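import Pool.Agent.W_2cf66e_h3.AV
import Pool.Agent.W_2cf66e_h65.GAvg

/-!
# MP_2cf66e_nt, one inequality: subdivision of the cube (helper3)
-/

set_option autoImplicit false

noncomputable section

open MeasureTheory MvPolynomial

namespace Pool.Agent.OneIneq

open Pool.Agent.CVol

/-- The half open unit cube. -/
def hcube (N : ℕ) : Set (Fin N → ℝ) := Set.univ.pi fun _ => Set.Ico (0 : ℝ) 1

theorem mem_hcube {N : ℕ} {x : Fin N → ℝ} : x ∈ hcube N ↔ ∀ i, 0 ≤ x i ∧ x i < 1 := by
  simp [hcube, Set.mem_univ_pi]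

theorem hcube_meas (N : ℕ) : MeasurableSet (hcube N) :=
  MeasurableSet.univ_pi fun _ => measurableSet_Ico

theorem hcube_ae (N : ℕ) : (hcube N : Set (Fin N → ℝ)) =ᵐ[volume] ucube (Fin N) :=
  Measure.univ_pi_Ico_ae_eq_Icc (μ := fun _ : Fin N => (volume : Measure ℝ))

theorem hcube_sub (N : ℕ) : hcube N ⊆ ucube (Fin N) := by
  intro x hx
  rw [mem_hcube] at hx
  rw [ucube, Set.mem_Icc, Pi.le_def, Pi.le_def]
  exact ⟨fun i => (hx i).1, fun i => (hx i).2.le⟩

/-- The affine map of the unit cube onto a small cube. -/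
def cellmap {N : ℕ} (k : ℕ) (b : Fin N → Fin k) (u : Fin N → ℝ) : Fin N → ℝ :=
  fun i => (u i + (b i : ℕ)) / k

theorem cell_indicator {N k : ℕ} (hk : 0 < k) (g : (Fin N → ℝ) → ℝ) (x : Fin N → ℝ) :
    (hcube N).indicator g x = ∑ b : Fin N → Fin k,
      (hcube N).indicator (fun u => g (cellmap k b u))
        ((k : ℝ) • x - fun i => ((b i : ℕ) : ℝ)) := by
  have hk' : (0 : ℝ) < k := by exact_mod_cast hk
  have hval : ∀ b : Fin N → Fin k, cellmap k b ((k : ℝ) • x - fun i => ((b i : ℕ) : ℝ)) = x := by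
    intro b
    funext i
    simp only [cellmap, Pi.sub_apply, Pi.smul_apply, smul_eq_mul]
    field_simp
    ring
  have hmem : ∀ b : Fin N → Fin k, ((k : ℝ) • x - fun i => ((b i : ℕ) : ℝ)) ∈ hcube N ↔
      ∀ i, ((b i : ℕ) : ℝ) ≤ k * x i ∧ k * x i < ((b i : ℕ) : ℝ) + 1 := by
    intro b
    rw [mem_hcube]
    refine forall_congr' fun i => ?_
    simp only [Pi.sub_apply, Pi.smul_apply, smul_eq_mul]
    constructor
    · rintro ⟨h1, h2⟩
      constructor <;> linarith
    · rintro ⟨h1, h2⟩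
      constructor <;> linarith
  by_cases hx : x ∈ hcube N
  · rw [Set.indicator_of_mem hx]
    have hx' := mem_hcube.1 hx
    have hfl : ∀ i, ⌊(k : ℝ) * x i⌋₊ < k := by
      intro i
      rw [Nat.floor_lt (mul_nonneg hk'.le (hx' i).1)]
      nlinarith [(hx' i).2]
    let b0 : Fin N → Fin k := fun i => ⟨⌊(k : ℝ) * x i⌋₊, hfl i⟩
    rw [Finset.sum_eq_single b0]
    · rw [Set.indicator_of_mem, hval]
      rw [hmem]
      intro i
      exact ⟨Nat.floor_le (mul_nonneg hk'.le (hx' i).1), Nat.lt_floor_add_one _⟩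
    · intro b _ hb
      rw [Set.indicator_of_notMem]
      intro h
      apply hb
      rw [hmem] at h
      funext i
      apply Fin.ext
      have h1 := h i
      have h2 : ⌊(k : ℝ) * x i⌋₊ = (b i : ℕ) := by
        rw [Nat.floor_eq_iff (mul_nonneg hk'.le (hx' i).1)]
        exact h1
      exact h2.symm
    · intro h
      exact absurd (Finset.mem_univ _) h
  · rw [Set.indicator_of_notMem hx]
    symm
    refine Finset.sum_eq_zero fun b _ => ?_
    rw [Set.indicator_of_notMem]
    intro h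
    apply hx
    rw [hmem] at h
    rw [mem_hcube]
    intro i
    have h1 := h i
    have h2 : ((b i : ℕ) : ℝ) + 1 ≤ k := by exact_mod_cast (b i).2
    have h3 : (0 : ℝ) ≤ ((b i : ℕ) : ℝ) := Nat.cast_nonneg _
    constructor
    · by_contra h4
      push Not at h4
      nlinarith [h1.1]
    · by_contra h4
      push Not at h4
      nlinarith [h1.2]

theorem subdiv {N k : ℕ} (hk : 0 < k) (g : (Fin N → ℝ) → ℝ) (hg : Continuous g) :
    ∫ z in ucube (Fin N), g z = ∑ b : Fin N → Fin k,
      ∫ u in ucube (Fin N), ((1 : ℝ) / k) ^ N * g (cellmap k b u) := by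
  have hk' : (0 : ℝ) < k := by exact_mod_cast hk
  have hcont : ∀ b : Fin N → Fin k, Continuous fun u : Fin N → ℝ => g (cellmap k b u) := by
    intro b
    refine hg.comp ?_
    unfold cellmap
    fun_prop
  have hint : ∀ b : Fin N → Fin k,
      Integrable ((hcube N).indicator (fun u => g (cellmap k b u))) := by
    intro b
    rw [integrable_indicator_iff (hcube_meas N)]
    exact ((hcont b).continuousOn.integrableOn_compact (ucube_compact _)).mono_set (hcube_sub N)
  rw [← setIntegral_congr_set (hcube_ae N), ← integral_indicator (hcube_meas N)]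
  have h1 : (hcube N).indicator g = fun x => ∑ b : Fin N → Fin k,
      (hcube N).indicator (fun u => g (cellmap k b u))
        ((k : ℝ) • x - fun i => ((b i : ℕ) : ℝ)) := funext fun x => cell_indicator hk g x
  rw [h1, integral_finsetSum]
  · refine Finset.sum_congr rfl fun b _ => ?_
    have h2 := Measure.integral_comp_smul (volume : Measure (Fin N → ℝ))
      (fun x => (hcube N).indicator (fun u => g (cellmap k b u)) (x - fun i => ((b i : ℕ) : ℝ)))
      (k : ℝ)
    beta_reduce at h2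
    rw [h2, integral_sub_right_eq_self
      (fun x => (hcube N).indicator (fun u => g (cellmap k b u)) x) (fun i => ((b i : ℕ) : ℝ)),
      integral_indicator (hcube_meas N), setIntegral_congr_set (hcube_ae N),
      integral_const_mul, Module.finrank_fin_fun, abs_of_nonneg (by positivity), smul_eq_mul,
      one_div, inv_pow]
  · intro b _
    have h2 := (hint b).comp_sub_right (fun i => ((b i : ℕ) : ℝ))
    exact h2.comp_smul hk'.ne'

/-- Integrals of rational polynomials over the unit cube are rational. -/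
theorem ucube_rat {N : ℕ} (q : MvPolynomial (Fin N) ℚ) :
    ∃ r : ℚ, ∫ z in ucube (Fin N), (aeval z q : ℝ) = r := by
  obtain ⟨r, hr⟩ := int_rat (bind₁ (fun i => C (1 / 2) * (X i + 1)) q)
  refine ⟨r / 2 ^ N, ?_⟩
  have h1 : ∀ y : Fin N → ℝ, (aeval y (bind₁ (fun i => C (1 / 2) * (X i + 1)) q) : ℝ) =
      aeval (fun i => (1 / 2 : ℝ) * (y i + 1)) q := by
    intro y
    rw [aeval_bind₁]
    congr 2
    funext i
    simp
  simp only [h1] at hr
  rw [box_ucube (fun y : Fin N → ℝ => (aeval (fun i => (1 / 2 : ℝ) * (y i + 1)) q : ℝ))] at hr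
  have h2 : ∀ u : Fin N → ℝ, (fun i => (1 / 2 : ℝ) * (2 * u i - 1 + 1)) = u := by
    intro u
    funext i
    ring
  simp only [h2] at hr
  push_cast
  rw [← hr]
  field_simp

/-- The integral of `|Q|` is rational plus a sum of integrals of small `|P_a|`. -/
def Good {N : ℕ} (Q : MvPolynomial (Fin N) ℚ) (η : ℝ) : Prop :=
  ∃ (α : Type) (_ : Fintype α) (r : ℚ) (P : α → MvPolynomial (Fin N) ℚ) (s : α → ℝ),
    (∀ a, ∀ z ∈ ucube (Fin N), |(aeval z (P a) : ℝ)| ≤ s a) ∧ ∑ a, s a ≤ η ∧
    ∫ z in ucube (Fin N), |(aeval z Q : ℝ)| =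
      r + ∑ a, ∫ z in ucube (Fin N), |(aeval z (P a) : ℝ)|

theorem good_all {N : ℕ} (Q : MvPolynomial (Fin N) ℚ) {η : ℝ} (hη : 0 < η) : Good Q η := by
  have huc : UniformContinuousOn (fun z : Fin N → ℝ => (aeval z Q : ℝ)) (ucube (Fin N)) :=
    (ucube_compact (Fin N)).uniformContinuousOn_of_continuous (HCell_cont Q).continuousOn
  rw [Metric.uniformContinuousOn_iff_le] at huc
  obtain ⟨δ, hδ, hd⟩ := huc η hη
  obtain ⟨k, hk⟩ := exists_nat_gt (1 / δ)
  have hk0 : (0 : ℝ) < k := lt_trans (by positivity) hk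
  have hkn : 0 < k := by exact_mod_cast hk0
  have hkd : 1 / (k : ℝ) ≤ δ := by
    rw [div_le_iff₀ hk0]
    rw [div_lt_iff₀ hδ] at hk
    linarith
  have hmap : ∀ (b : Fin N → Fin k) (u : Fin N → ℝ), u ∈ ucube (Fin N) →
      cellmap k b u ∈ ucube (Fin N) := by
    intro b u hu
    rw [ucube, Set.mem_Icc, Pi.le_def, Pi.le_def] at hu ⊢
    refine ⟨fun i => ?_, fun i => ?_⟩
    · have := hu.1 i
      unfold cellmap
      positivity
    · have h1 := hu.2 i
      have h2 : ((b i : ℕ) : ℝ) + 1 ≤ k := by exact_mod_cast (b i).2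
      unfold cellmap
      rw [div_le_one hk0]
      linarith
  have hosc : ∀ (b : Fin N → Fin k) (u v : Fin N → ℝ), u ∈ ucube (Fin N) → v ∈ ucube (Fin N) →
      |(aeval (cellmap k b u) Q : ℝ) - aeval (cellmap k b v) Q| ≤ η := by
    intro b u v hu hv
    have h1 := hd (cellmap k b u) (hmap b u hu) (cellmap k b v) (hmap b v hv) (by
      rw [dist_pi_le_iff hδ.le]
      intro i
      rw [Real.dist_eq]
      unfold cellmap
      rw [← sub_div, abs_div, abs_of_pos hk0]
      refine le_trans ?_ hkd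
      rw [div_le_div_iff_of_pos_right hk0, abs_le]
      rw [ucube, Set.mem_Icc, Pi.le_def, Pi.le_def] at hu hv
      have := hu.1 i
      have := hu.2 i
      have := hv.1 i
      have := hv.2 i
      constructor <;> linarith)
    rwa [Real.dist_eq] at h1
  let Qb : (Fin N → Fin k) → MvPolynomial (Fin N) ℚ := fun b =>
    C ((1 / (k : ℚ)) ^ N) * bind₁ (fun i => C (1 / (k : ℚ)) * (X i + C ((b i : ℕ) : ℚ))) Q
  have hQb : ∀ b u, (aeval u (Qb b) : ℝ) = ((1 : ℝ) / k) ^ N * aeval (cellmap k b u) Q := by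
    intro b u
    simp only [Qb]
    rw [map_mul, aeval_C, aeval_bind₁]
    congr 1
    · simp
    · congr 2
      funext i
      simp only [map_mul, map_add, aeval_C, aeval_X, cellmap, eq_ratCast]
      push_cast
      field_simp
  have hpow : (0 : ℝ) < ((1 : ℝ) / k) ^ N := by positivity
  -- the three cases
  have hcase : ∀ b : Fin N → Fin k, ∃ (r : ℚ) (P : MvPolynomial (Fin N) ℚ),
      (∀ z ∈ ucube (Fin N), |(aeval z P : ℝ)| ≤ ((1 : ℝ) / k) ^ N * η) ∧
      ∫ z in ucube (Fin N), |(aeval z (Qb b) : ℝ)| =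
        r + ∫ z in ucube (Fin N), |(aeval z P : ℝ)| := by
    intro b
    by_cases h1 : ∀ z ∈ ucube (Fin N), 0 ≤ (aeval z (Qb b) : ℝ)
    · obtain ⟨r, hr⟩ := ucube_rat (Qb b)
      refine ⟨r, 0, fun z _ => ?_, ?_⟩
      · simp only [map_zero, abs_zero]
        positivity
      · rw [← hr]
        simp only [map_zero, abs_zero, integral_zero, add_zero]
        exact setIntegral_congr_fun (ucube_meas _) fun z hz => abs_of_nonneg (h1 z hz)
    by_cases h2 : ∀ z ∈ ucube (Fin N), (aeval z (Qb b) : ℝ) ≤ 0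
    · obtain ⟨r, hr⟩ := ucube_rat (-(Qb b))
      refine ⟨r, 0, fun z _ => ?_, ?_⟩
      · simp only [map_zero, abs_zero]
        positivity
      · rw [← hr]
        simp only [map_zero, abs_zero, integral_zero, add_zero, map_neg]
        exact setIntegral_congr_fun (ucube_meas _) fun z hz => abs_of_nonpos (h2 z hz)
    push Not at h1 h2
    obtain ⟨z1, hz1, h1⟩ := h1
    obtain ⟨z2, hz2, h2⟩ := h2
    refine ⟨0, Qb b, fun z hz => ?_, by simp⟩
    rw [hQb] at h1 h2 ⊢
    have h3 : (aeval (cellmap k b z1) Q : ℝ) < 0 := by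
      by_contra h
      push Not at h
      exact absurd (mul_nonneg hpow.le h) (not_le.2 h1)
    have h4 : 0 < (aeval (cellmap k b z2) Q : ℝ) := by
      by_contra h
      push Not at h
      exact absurd (mul_nonpos_of_nonneg_of_nonpos hpow.le h) (not_le.2 h2)
    rw [abs_mul, abs_of_pos hpow]
    refine mul_le_mul_of_nonneg_left ?_ hpow.le
    have h5 := abs_le.1 (hosc b z z1 hz hz1)
    have h6 := abs_le.1 (hosc b z z2 hz hz2)
    rw [abs_le]
    constructor <;> linarith [h5.2, h6.1]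
  choose r P hP1 hP2 using hcase
  refine ⟨Fin N → Fin k, inferInstance, ∑ b, r b, P, fun _ => ((1 : ℝ) / k) ^ N * η, hP1, ?_, ?_⟩
  · rw [Finset.sum_const, Finset.card_univ, Fintype.card_fun, Fintype.card_fin, Fintype.card_fin,
      nsmul_eq_mul]
    push_cast
    rw [← mul_assoc, ← mul_pow, mul_one_div_cancel hk0.ne', one_pow, one_mul]
  · rw [subdiv hkn _ (HCell_cont Q).abs]
    push_cast
    rw [← Finset.sum_add_distrib]
    refine Finset.sum_congr rfl fun b _ => ?_
    rw [← hP2 b]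
    refine setIntegral_congr_fun (ucube_meas _) fun z _ => ?_
    beta_reduce
    rw [hQb, abs_mul, abs_of_pos hpow]

/-- A rational combination of `L^1` norms is a rational number plus small signed `L^1` norms. -/
theorem AV.small {x : ℝ} (h : AV x) {ε : ℝ} (hε : 0 < ε) :
    ∃ (N : ℕ) (α : Type) (_ : Fintype α) (r : ℚ) (σ : α → Bool)
      (P : α → MvPolynomial (Fin N) ℚ) (s : α → ℝ),
      (∀ a, ∀ z ∈ ucube (Fin N), |(aeval z (P a) : ℝ)| ≤ s a) ∧ ∑ a, s a ≤ ε ∧
      x = r + ∑ a, (if σ a then (1 : ℝ) else -1) *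
        ∫ z in ucube (Fin N), |(aeval z (P a) : ℝ)| := by
  obtain ⟨N, k, c, Q, hx⟩ := h
  have hg : ∀ j : Fin k, Good (C |c j| * Q j) (ε / (k + 1)) := fun j =>
    good_all _ (by positivity)
  choose α iα r P s h1 h2 h3 using hg
  refine ⟨N, Σ j, α j, inferInstance, ∑ j, (if 0 ≤ c j then 1 else -1) * r j,
    fun p => decide (0 ≤ c p.1), fun p => P p.1 p.2, fun p => s p.1 p.2,
    fun p => h1 p.1 p.2, ?_, ?_⟩
  · rw [Fintype.sum_sigma]
    calc ∑ j, ∑ a, s j a ≤ ∑ _j : Fin k, ε / (k + 1) := Finset.sum_le_sum fun j _ => h2 j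
      _ = k * (ε / (k + 1)) := by simp
      _ ≤ ε := by
        rw [← mul_div_assoc, div_le_iff₀ (by positivity)]
        nlinarith
  · rw [hx, Fintype.sum_sigma]
    push_cast
    rw [← Finset.sum_add_distrib]
    refine Finset.sum_congr rfl fun j _ => ?_
    have h7 : ∑ x, (if decide (0 ≤ c j) = true then (1 : ℝ) else -1) *
        ∫ (z : Fin N → ℝ) in ucube (Fin N), |(aeval z (P j x) : ℝ)| =
        (if decide (0 ≤ c j) = true then (1 : ℝ) else -1) *
        ∑ x, ∫ (z : Fin N → ℝ) in ucube (Fin N), |(aeval z (P j x) : ℝ)| := by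
      rw [Finset.mul_sum]
    refine Eq.trans ?_ (congrArg _ h7.symm)
    rw [← sub_eq_iff_eq_add'.2 (h3 j)]
    have h4 : ∀ z : Fin N → ℝ, |(aeval z (C |c j| * Q j) : ℝ)| =
        |(c j : ℝ)| * |(aeval z (Q j) : ℝ)| := by
      intro z
      rw [map_mul, aeval_C, abs_mul]
      simp
    simp only [h4]
    rw [integral_const_mul]
    by_cases h5 : 0 ≤ c j
    · have h6 : (0 : ℝ) ≤ c j := by exact_mod_cast h5
      simp only [h5, decide_true, if_true, abs_of_nonneg h6]
      push_cast
      ring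
    · have h6 : (c j : ℝ) < 0 := by exact_mod_cast not_le.1 h5
      simp only [h5, decide_false, if_false, abs_of_neg h6, Bool.false_eq_true]
      push_cast
      ring

end Pool.Agent.OneIneq
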