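import Mathlib

/-!
# MP_2cf66e_nt, one inequality: two elementary integrals (helper3)
-/

set_option autoImplicit false

noncomputable section

open MeasureTheory

namespace Pool.Agent.OneIneq

theorem kerS {F D : ℝ} (hF : 0 < F) (hF1 : F ≤ 1) (hD : F ≤ D) :
    ∫ s in Set.Icc (0 : ℝ) 1, max 0 (F ^ 2 - s * D) = F ^ 4 / (2 * D) := by
  have hD0 : 0 < D := hF.trans_le hD
  have hT0 : 0 ≤ F ^ 2 / D := by positivity
  have hT1 : F ^ 2 / D ≤ 1 := by
    rw [div_le_one hD0]
    nlinarith
  rw [integral_Icc_eq_integral_Ioc, ← intervalIntegral.integral_of_le zero_le_one]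
  have hc : Continuous fun s : ℝ => max 0 (F ^ 2 - s * D) := by fun_prop
  rw [← intervalIntegral.integral_add_adjacent_intervals (b := F ^ 2 / D)
    (hc.intervalIntegrable _ _) (hc.intervalIntegrable _ _)]
  have h1 : ∫ s in (0 : ℝ)..(F ^ 2 / D), max 0 (F ^ 2 - s * D) =
      ∫ s in (0 : ℝ)..(F ^ 2 / D), (F ^ 2 - s * D) := by
    refine intervalIntegral.integral_congr fun s hs => ?_
    rw [Set.uIcc_of_le hT0] at hs
    have h3 : s * D ≤ F ^ 2 := by
      have := hs.2
      rwa [le_div_iff₀ hD0] at this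
    exact max_eq_right (by linarith)
  have h2 : ∫ s in (F ^ 2 / D)..1, max 0 (F ^ 2 - s * D) = ∫ s in (F ^ 2 / D)..1, (0 : ℝ) := by
    refine intervalIntegral.integral_congr fun s hs => ?_
    rw [Set.uIcc_of_le hT1] at hs
    have h3 : F ^ 2 ≤ s * D := by
      have := hs.1
      rwa [div_le_iff₀ hD0] at this
    exact max_eq_left (by linarith)
  have hi : IntervalIntegrable (fun s : ℝ => s * D) volume 0 (F ^ 2 / D) :=
    Continuous.intervalIntegrable (by fun_prop) _ _
  rw [h1, h2, intervalIntegral.integral_zero, add_zero,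
    intervalIntegral.integral_sub (by simp) hi,
    intervalIntegral.integral_const, intervalIntegral.integral_mul_const, integral_id]
  simp only [smul_eq_mul]
  field_simp
  ring

theorem kerT {F : ℝ} (hF : 0 < F) (hF1 : F ≤ 1) :
    ∫ t in Set.Icc (0 : ℝ) 1, (F - 1) / (F + t * (1 - F)) = Real.log F := by
  rw [integral_Icc_eq_integral_Ioc, ← intervalIntegral.integral_of_le zero_le_one]
  have hpos : ∀ t ∈ Set.uIcc (0 : ℝ) 1, 0 < F + t * (1 - F) := by
    intro t ht
    rw [Set.uIcc_of_le zero_le_one] at ht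
    nlinarith [mul_nonneg ht.1 (sub_nonneg.2 hF1)]
  have hd : ∀ t ∈ Set.uIcc (0 : ℝ) 1,
      HasDerivAt (fun t => -Real.log (F + t * (1 - F))) ((F - 1) / (F + t * (1 - F))) t := by
    intro t ht
    have h1 : HasDerivAt (fun t : ℝ => F + t * (1 - F)) (1 - F) t := by
      have := ((hasDerivAt_id t).mul_const (1 - F)).const_add F
      simpa using this
    have h2 := (h1.log (hpos t ht).ne').neg
    refine h2.congr_deriv ?_
    rw [← neg_div, neg_sub]
  rw [intervalIntegral.integral_eq_sub_of_hasDerivAt hd]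
  · simp
  · refine ContinuousOn.intervalIntegrable ?_
    refine ContinuousOn.div continuousOn_const (by fun_prop) fun t ht => (hpos t ht).ne'

end Pool.Agent.OneIneq
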