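import Pool.Agent.W_2cf66e_h3.Dav

/-!
# MP_2cf66e_nt, one inequality: lattice points with error term, all dimensions (helper3)
-/

set_option autoImplicit false

noncomputable section

open MeasureTheory

namespace Pool.Agent.OneIneq

theorem rbox_pi (C n : ℕ) : (volume : Measure (Fin n → ℝ)).restrict (rbox C n) =
    Measure.pi fun _ : Fin n => (volume : Measure ℝ).restrict (Set.Icc (-(C : ℝ)) C) := by
  have h1 : rbox C n = Set.univ.pi fun _ : Fin n => Set.Icc (-(C : ℝ)) C := by
    rw [Set.pi_univ_Icc]
    rfl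
  rw [h1, volume_pi, Measure.restrict_pi_pi]

theorem cons_meas (n : ℕ) :
    Measurable fun z : ℝ × (Fin n → ℝ) => (Fin.cons z.1 z.2 : Fin (n + 1) → ℝ) := by
  refine measurable_pi_iff.2 fun i => ?_
  refine Fin.cases ?_ (fun j => ?_) i
  · simp only [Fin.cons_zero]
    exact measurable_fst
  · simp only [Fin.cons_succ]
    exact (measurable_pi_apply j).comp measurable_snd

/-- Fubini for the box. -/
theorem rbox_fub (C n : ℕ) {g : (Fin (n + 1) → ℝ) → ℝ} (hg : Measurable g) :
    Vc C (n + 1) g = ∫ t in Set.Icc (-(C : ℝ)) C, Vc C n fun w => g (Fin.cons t w) := by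
  unfold Vc
  set P : Measure ℝ := (volume : Measure ℝ).restrict (Set.Icc (-(C : ℝ)) C) with hP
  let e := MeasurableEquiv.piFinSuccAbove (fun _ : Fin (n + 1) => ℝ) 0
  have hsymm : ∀ z : ℝ × (Fin n → ℝ), e.symm z = Fin.cons z.1 z.2 := by
    intro z
    have h2 : (e.symm z : Fin (n + 1) → ℝ) = Fin.insertNth 0 z.1 z.2 := rfl
    rw [h2, Fin.insertNth_zero']
  have hPfin : IsFiniteMeasure P := by
    refine ⟨?_⟩
    rw [hP, Measure.restrict_apply_univ, Real.volume_Icc]
    exact ENNReal.ofReal_lt_top
  rw [rbox_pi, rbox_pi]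
  have hmp := (measurePreserving_piFinSuccAbove (fun _ : Fin (n + 1) => P) 0).symm
  rw [← hmp.integral_comp e.symm.measurableEmbedding]
  rw [integral_prod]
  · refine integral_congr_ae (Filter.Eventually.of_forall fun t => ?_)
    refine integral_congr_ae (Filter.Eventually.of_forall fun w => ?_)
    exact congrArg (fun v => ps (g v)) (hsymm (t, w))
  · have h1 : Measurable fun z : ℝ × (Fin n → ℝ) => ps (g (e.symm z)) :=
      ps_meas.comp (hg.comp e.symm.measurable)
    refine Integrable.of_bound h1.aestronglyMeasurable 1 ?_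
    refine Filter.Eventually.of_forall fun z => ?_
    rw [Real.norm_of_nonneg (ps_nonneg _)]
    exact ps_le _

theorem dav (D C : ℕ) : ∀ n : ℕ, ∃ K : ℝ, 0 ≤ K ∧ ∀ g : (Fin n → ℝ) → ℝ, Continuous g →
    PF D n g → ∀ T : ℕ, 0 < T → |Nc C T n g - T ^ n * Vc C n g| * T ≤ K * T ^ n := by
  intro n
  induction n with
  | zero =>
    refine ⟨0, le_refl _, fun g _ _ T _ => ?_⟩
    have h1 : Nc C T 0 g = ps (g 0) := by
      unfold Nc lbox
      rw [Fintype.piFinset_of_isEmpty, Fintype.sum_unique]
      congr 2
      exact Subsingleton.elim _ _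
    have h2 : Vc C 0 g = ps (g 0) := by
      unfold Vc
      have h3 : ∀ u : Fin 0 → ℝ, ps (g u) = ps (g 0) := fun u => by
        rw [Subsingleton.elim u 0]
      simp only [h3]
      have h4 : rbox C 0 = Set.univ := by
        ext u
        simp [rbox, Pi.le_def]
      have h5 : volume (Set.univ : Set (Fin 0 → ℝ)) = 1 := by
        simp [volume_pi, Measure.pi_of_empty]
      rw [h4, setIntegral_const, measureReal_def, h5]
      simp
    rw [h1, h2]
    simp
  | succ n ih =>
    obtain ⟨K, hK, ih⟩ := ih
    refine ⟨(2 * D + 1) * (2 * C + 1) ^ n + 2 * C * K, by positivity, fun g hg hpf T hT => ?_⟩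
    have hT' : (0 : ℝ) < T := by exact_mod_cast hT
    have hT1 : (1 : ℝ) ≤ T := by exact_mod_cast hT
    have hcont : ∀ t, Continuous fun w : Fin n → ℝ => g (Fin.cons t w) := fun t =>
      hg.comp (continuous_pi fun i => by
        refine Fin.cases ?_ (fun j => ?_) i
        · simp only [Fin.cons_zero]
          exact continuous_const
        · simp only [Fin.cons_succ]
          exact continuous_apply j)
    have hcont' : ∀ w : Fin n → ℝ, Continuous fun t : ℝ => g (Fin.cons t w) := fun w =>
      hg.comp (continuous_pi fun i => by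
        refine Fin.cases ?_ (fun j => ?_) i
        · simp only [Fin.cons_zero]
          exact continuous_id
        · simp only [Fin.cons_succ]
          exact continuous_const)
    have hIcc : volume (Set.Icc (-(C : ℝ)) C) ≠ ⊤ := by simp
    -- the count as a sum over lines
    have hN : Nc C T (n + 1) g = ∑ w ∈ lbox C T n, ∑ a ∈ Finset.Icc (-(C * T : ℤ)) (C * T),
        ps (g (Fin.cons ((a : ℝ) / T) fun i => (w i : ℝ) / T)) := by
      unfold Nc
      rw [lbox_succ]
      refine Finset.sum_congr rfl fun w _ => Finset.sum_congr rfl fun a _ => ?_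
      congr 2
      funext i
      refine Fin.cases ?_ (fun j => ?_) i
      · simp
      · simp
    -- lines
    have hline : ∀ w ∈ lbox C T n, |∑ a ∈ Finset.Icc (-(C * T : ℤ)) (C * T),
        ps (g (Fin.cons ((a : ℝ) / T) fun i => (w i : ℝ) / T)) -
        T * ∫ t in Set.Icc (-(C : ℝ)) C, ps (g (Fin.cons t fun i => (w i : ℝ) / T))| ≤
        2 * D + 1 := by
      intro w _
      obtain ⟨p, hp, hp'⟩ := hpf.1 fun i => (w i : ℝ) / T
      simp only [hp']
      exact dav_one hp C hT
    have hsum1 : |Nc C T (n + 1) g - T * ∫ t in Set.Icc (-(C : ℝ)) C,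
        Nc C T n fun w => g (Fin.cons t w)| ≤ (2 * D + 1) * (2 * C * T + 1) ^ n := by
      have h1 : T * ∫ t in Set.Icc (-(C : ℝ)) C, (Nc C T n fun w => g (Fin.cons t w)) =
          ∑ w ∈ lbox C T n, T * ∫ t in Set.Icc (-(C : ℝ)) C,
            ps (g (Fin.cons t fun i => (w i : ℝ) / T)) := by
        unfold Nc
        rw [integral_finsetSum, Finset.mul_sum]
        intro w _
        exact ps_int hIcc (hcont' _).measurable
      rw [h1, hN, ← Finset.sum_sub_distrib]
      refine (Finset.abs_sum_le_sum_abs _ _).trans ((Finset.sum_le_sum hline).trans ?_)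
      rw [Finset.sum_const, nsmul_eq_mul, lbox_card]
      exact (mul_comm _ _).le
    -- slices
    have hslice : ∀ t : ℝ, ‖(Nc C T n fun w => g (Fin.cons t w)) -
        T ^ n * Vc C n fun w => g (Fin.cons t w)‖ ≤ K * T ^ n / T := by
      intro t
      rw [Real.norm_eq_abs, le_div_iff₀ hT']
      exact ih _ (hcont t) (hpf.2 t) T hT
    have hint1 : IntegrableOn (fun t => Nc C T n fun w => g (Fin.cons t w))
        (Set.Icc (-(C : ℝ)) C) := by
      unfold Nc
      refine integrable_finsetSum _ fun w _ => ?_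
      exact ps_int hIcc (hcont' _).measurable
    have hVm : Measurable fun t => Vc C n fun w => g (Fin.cons t w) := by
      unfold Vc
      have h1 : StronglyMeasurable fun z : ℝ × (Fin n → ℝ) => ps (g (Fin.cons z.1 z.2)) :=
        (ps_meas.comp (hg.measurable.comp (cons_meas n))).stronglyMeasurable
      exact (h1.integral_prod_right' (ν := (volume : Measure (Fin n → ℝ)).restrict
        (rbox C n))).measurable
    have hVb : ∀ t, ‖Vc C n fun w => g (Fin.cons t w)‖ ≤ volume.real (rbox C n) := by
      intro t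
      have h1 := norm_setIntegral_le_of_norm_le_const (μ := volume) (s := rbox C n) (C := 1)
        (f := fun w : Fin n → ℝ => ps (g (Fin.cons t w)))
        (show volume (rbox C n) < ⊤ from (isCompact_Icc).measure_lt_top) fun w _ => by
          rw [Real.norm_of_nonneg (ps_nonneg _)]
          exact ps_le _
      rwa [one_mul] at h1
    have hint2 : IntegrableOn (fun t => (T : ℝ) ^ n * Vc C n fun w => g (Fin.cons t w))
        (Set.Icc (-(C : ℝ)) C) := by
      refine Integrable.const_mul ?_ _
      exact Measure.integrableOn_of_bounded hIcc hVm.aestronglyMeasurable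
        (Filter.Eventually.of_forall hVb)
    have hsum2 : |(∫ t in Set.Icc (-(C : ℝ)) C, Nc C T n fun w => g (Fin.cons t w)) -
        T ^ n * Vc C (n + 1) g| ≤ K * T ^ n / T * (2 * C) := by
      rw [rbox_fub C n hg.measurable, ← integral_const_mul, ← integral_sub hint1 hint2]
      have h1 := norm_setIntegral_le_of_norm_le_const (μ := volume)
        (s := Set.Icc (-(C : ℝ)) C) (C := K * T ^ n / T)
        (f := fun t => (Nc C T n fun w => g (Fin.cons t w)) -
          T ^ n * Vc C n fun w => g (Fin.cons t w)) (by simp) fun t _ => hslice t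
      rw [measureReal_def, Real.volume_Icc, ENNReal.toReal_ofReal (by
        have : (0 : ℝ) ≤ C := Nat.cast_nonneg C
        linarith)] at h1
      rw [Real.norm_eq_abs] at h1
      refine h1.trans (le_of_eq ?_)
      ring
    -- together
    have h3 : |Nc C T (n + 1) g - T ^ (n + 1) * Vc C (n + 1) g| ≤
        (2 * D + 1) * (2 * C * T + 1) ^ n + T * (K * T ^ n / T * (2 * C)) := by
      have h4 : Nc C T (n + 1) g - T ^ (n + 1) * Vc C (n + 1) g =
          (Nc C T (n + 1) g - T * ∫ t in Set.Icc (-(C : ℝ)) C,
            Nc C T n fun w => g (Fin.cons t w)) +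
          T * ((∫ t in Set.Icc (-(C : ℝ)) C, Nc C T n fun w => g (Fin.cons t w)) -
            T ^ n * Vc C (n + 1) g) := by ring
      rw [h4]
      refine (abs_add_le _ _).trans (add_le_add hsum1 ?_)
      rw [abs_mul, abs_of_pos hT']
      exact mul_le_mul_of_nonneg_left hsum2 hT'.le
    have h5 : (2 * (C : ℝ) * T + 1) ^ n ≤ (2 * C + 1) ^ n * T ^ n := by
      rw [← mul_pow]
      refine pow_le_pow_left₀ (by positivity) ?_ n
      nlinarith [Nat.cast_nonneg (α := ℝ) C]
    have h6 : T * (K * T ^ n / T * (2 * C)) = 2 * C * K * T ^ n := by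
      field_simp
    calc |Nc C T (n + 1) g - T ^ (n + 1) * Vc C (n + 1) g| * T ≤
          ((2 * D + 1) * (2 * C * T + 1) ^ n + T * (K * T ^ n / T * (2 * C))) * T :=
          mul_le_mul_of_nonneg_right h3 hT'.le
      _ ≤ ((2 * D + 1) * ((2 * C + 1) ^ n * T ^ n) + 2 * C * K * T ^ n) * T := by
          rw [h6]
          refine mul_le_mul_of_nonneg_right (add_le_add_left ?_ _) hT'.le
          exact mul_le_mul_of_nonneg_left h5 (by positivity)
      _ = ((2 * D + 1) * (2 * C + 1) ^ n + 2 * C * K) * T ^ (n + 1) := by ring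

end Pool.Agent.OneIneq
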