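import Pool.Agent.W_2cf66e_h3.Main
import Pool.Agent.W_2cf66e_h3.Dav2

/-!
# MP_2cf66e_nt, one inequality: counting with error term (helper3)
-/

set_option autoImplicit false

noncomputable section

open MeasureTheory MvPolynomial Filter
open scoped ENNReal Topology Pointwise

namespace Pool.Agent.OneIneq

open Pool.Agent.CVol

/-- Positive periods are the leading constants of the counting problems of one homogeneous
inequality, with error `O(T^(n-1))`. -/
theorem period_iff_lattice (x : ℝ) (hx : 0 < x) : IsPeriod x ↔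
    ∃ (n d K : ℕ) (F : MvPolynomial (Fin (n + 1)) ℤ), F.IsHomogeneous d ∧
      ∀ T : ℕ, 0 < T →
        (∀ z : Fin n → ℤ, 0 < eval (Fin.cons (T : ℤ) z : Fin (n + 1) → ℤ) F →
          ∀ i, |z i| ≤ K * T) ∧
        |({z : Fin n → ℤ | 0 < eval (Fin.cons (T : ℤ) z : Fin (n + 1) → ℤ) F}.ncard : ℝ) -
          x * (T : ℝ) ^ n| * T ≤ K * (T : ℝ) ^ n := by
  constructor
  · intro h
    obtain ⟨n, f, h1, h2⟩ := (period_iff_vol x hx).1 h
    obtain ⟨d, F, hF, hFf⟩ := homog f
    have hS : Sset F = {u : Fin n → ℝ | 0 < (aeval u f : ℝ)} := by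
      ext u
      have h3 := hFf 1 u
      simp only [one_mul, one_pow] at h3
      rw [Sset, Set.mem_ofPred_eq, Set.mem_ofPred_eq, h3]
    obtain ⟨C0, hC0⟩ := isBounded_iff_forall_norm_le.1 h1
    obtain ⟨C, hC⟩ := exists_nat_ge C0
    obtain ⟨D, hD⟩ := PF.poly f
    obtain ⟨K0, hK0, hdav⟩ := dav D C n
    obtain ⟨K, hK⟩ := exists_nat_ge K0
    have hcont : Continuous fun u : Fin n → ℝ => (aeval u f : ℝ) := by
      have h3 := HCell_cont (map (Int.castRingHom ℚ) f)
      simp only [toRat] at h3
      exact h3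
    have hbox : ∀ u : Fin n → ℝ, 0 < (aeval u f : ℝ) → ∀ i, |u i| ≤ C := by
      intro u hu i
      have h4 := (norm_le_pi_norm u i).trans ((hC0 u hu).trans hC)
      rwa [Real.norm_eq_abs] at h4
    -- the volume
    have hV : Vc C n (fun u : Fin n → ℝ => (aeval u f : ℝ)) = x := by
      have hm : MeasurableSet {u : Fin n → ℝ | 0 < (aeval u f : ℝ)} :=
        (isOpen_lt continuous_const hcont).measurableSet
      have h3 : (fun u : Fin n → ℝ => ps (aeval u f : ℝ)) =
          {u : Fin n → ℝ | 0 < (aeval u f : ℝ)}.indicator fun _ => 1 := by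
        funext u
        rw [Set.indicator_apply]
        rfl
      have h4 : rbox C n ∩ {u : Fin n → ℝ | 0 < (aeval u f : ℝ)} =
          {u : Fin n → ℝ | 0 < (aeval u f : ℝ)} := by
        refine Set.inter_eq_right.2 fun u hu => ?_
        have h5 := fun i => abs_le.1 (hbox u hu i)
        exact ⟨fun i => (h5 i).1, fun i => (h5 i).2⟩
      unfold Vc
      rw [h3, setIntegral_indicator hm, h4, setIntegral_const, measureReal_def, h2,
        ENNReal.toReal_ofReal hx.le, smul_eq_mul, mul_one]
    refine ⟨n, d, max C K, F, hF, fun T hT => ?_⟩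
    have hT' : (0 : ℝ) < T := by exact_mod_cast hT
    have hzb : ∀ z : Fin n → ℤ, 0 < eval (Fin.cons (T : ℤ) z : Fin (n + 1) → ℤ) F →
        ∀ i, |z i| ≤ C * T := by
      intro z hz i
      have h3 := (Sset_scale hF hT z).2 hz
      rw [hS] at h3
      have h4 := hbox _ h3 i
      rw [abs_div, Nat.abs_cast, div_le_iff₀ hT'] at h4
      exact_mod_cast h4
    refine ⟨fun z hz i => ?_, ?_⟩
    · refine (hzb z hz i).trans ?_
      have : (C : ℤ) ≤ (max C K : ℕ) := by exact_mod_cast le_max_left C K
      exact mul_le_mul_of_nonneg_right this (by positivity)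
    · have hNc : (({z : Fin n → ℤ | 0 < eval (Fin.cons (T : ℤ) z : Fin (n + 1) → ℤ) F}.ncard
          : ℕ) : ℝ) = Nc C T n (fun u : Fin n → ℝ => (aeval u f : ℝ)) := by
        classical
        have h5 : {z : Fin n → ℤ | 0 < eval (Fin.cons (T : ℤ) z : Fin (n + 1) → ℤ) F} =
            ((lbox C T n).filter fun z => 0 < (aeval (fun i => (z i : ℝ) / T) f : ℝ)) := by
          ext z
          rw [Finset.coe_filter, Set.mem_ofPred_eq, Set.mem_ofPred_eq]
          have h6 := Sset_scale hF hT z
          rw [hS, Set.mem_ofPred_eq] at h6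
          rw [← h6]
          constructor
          · intro h7
            refine ⟨?_, h7⟩
            rw [lbox, Fintype.mem_piFinset]
            intro i
            rw [Finset.mem_Icc]
            exact abs_le.1 (hzb z (h6.1 h7) i)
          · rintro ⟨-, h7⟩
            exact h7
        rw [h5, Set.ncard_coe_finset, Nc, Finset.card_filter]
        push_cast
        rfl
      have h6 := hdav _ hcont hD T hT
      rw [hV] at h6
      rw [hNc, mul_comm x]
      refine h6.trans (mul_le_mul_of_nonneg_right ?_ (by positivity))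
      have : (K : ℝ) ≤ (max C K : ℕ) := by exact_mod_cast le_max_right C K
      exact hK.trans this
  · rintro ⟨n, d, K, F, hF, hall⟩
    refine (period_iff_count x hx).2 ⟨n, d, F, hF, ⟨K, fun T z hT hz => (hall T hT).1 z hz⟩, ?_⟩
    rw [tendsto_iff_norm_sub_tendsto_zero]
    refine squeeze_zero' (g := fun T : ℕ => (K : ℝ) / T)
      (Eventually.of_forall fun T => norm_nonneg _) ?_
      (tendsto_const_div_atTop_nhds_zero_nat _)
    filter_upwards [eventually_gt_atTop 0] with T hT
    have hT' : (0 : ℝ) < T := by exact_mod_cast hT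
    have h1 := (hall T hT).2
    have h2 : (0 : ℝ) < (T : ℝ) ^ n := by positivity
    rw [Real.norm_eq_abs, le_div_iff₀ hT']
    have h3 : ({z : Fin n → ℤ | 0 < eval (Fin.cons (T : ℤ) z : Fin (n + 1) → ℤ) F}.ncard : ℝ) /
        (T : ℝ) ^ n - x =
        (({z : Fin n → ℤ | 0 < eval (Fin.cons (T : ℤ) z : Fin (n + 1) → ℤ) F}.ncard : ℝ) -
          x * (T : ℝ) ^ n) / (T : ℝ) ^ n := by
      field_simp
    rw [h3, abs_div, abs_of_pos h2, div_mul_eq_mul_div, div_le_iff₀ h2]
    exact h1

end Pool.Agent.OneIneq
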