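import Pool.Agent.W_2cf66e_h3.Stmt
import Pool.Agent.W_2cf66e_h3.Main2
import Pool.Agent.W_2cf66e_h92.DetForm

/-!
# MP_2cf66e_nt, one inequality: determinants (helper3, helper92)
-/

set_option autoImplicit false

noncomputable section

open MeasureTheory MvPolynomial

namespace Pool.Agent.OneIneq

open Pool.Agent.CVol

/-- Every integer polynomial is a determinant (helper92). -/
theorem exists_mat {n : ℕ} (f : MvPolynomial (Fin n) ℤ) :
    ∃ (N : ℕ) (c : Fin N → Fin N → Fin (n + 2)), ∀ u : Fin n → ℝ,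
      (mat c u).det = (aeval u f : ℝ) :=
  Pool.Agent.DF2cf.exists_det_eval f

/-- The determinant is an integer polynomial. -/
theorem mat_poly {n N : ℕ} (c : Fin N → Fin N → Fin (n + 2)) :
    ∃ f : MvPolynomial (Fin n) ℤ, ∀ u : Fin n → ℝ, (mat c u).det = (aeval u f : ℝ) := by
  refine ⟨(Matrix.of fun i j => (Fin.cons 0 (Fin.cons 1 X) :
    Fin (n + 2) → MvPolynomial (Fin n) ℤ) (c i j)).det, fun u => ?_⟩
  rw [AlgHom.map_det]
  congr 1
  ext i j
  simp only [mat, Matrix.of_apply, AlgHom.mapMatrix_apply, Matrix.map_apply]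
  generalize c i j = k
  refine Fin.cases ?_ (fun k => ?_) k
  · simp
  · refine Fin.cases ?_ (fun k => ?_) k
    · simp
    · simp

theorem main_pos (x : ℝ) (hx : 0 < x) : List.TFAE [
    IsPeriod x,
    ∃ (n : ℕ) (f : MvPolynomial (Fin n) ℤ),
      Bornology.IsBounded {u : Fin n → ℝ | 0 < (aeval u f : ℝ)} ∧
      volume {u : Fin n → ℝ | 0 < (aeval u f : ℝ)} = ENNReal.ofReal x,
    ∃ (n N : ℕ) (c : Fin N → Fin N → Fin (n + 2)),
      Bornology.IsBounded {u : Fin n → ℝ | 0 < (mat c u).det} ∧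
      volume {u : Fin n → ℝ | 0 < (mat c u).det} = ENNReal.ofReal x,
    ∃ (n d K : ℕ) (F : MvPolynomial (Fin (n + 1)) ℤ), F.IsHomogeneous d ∧
      ∀ T : ℕ, 0 < T →
        (∀ z : Fin n → ℤ, 0 < eval (Fin.cons (T : ℤ) z : Fin (n + 1) → ℤ) F →
          ∀ i, |z i| ≤ K * T) ∧
        |({z : Fin n → ℤ | 0 < eval (Fin.cons (T : ℤ) z : Fin (n + 1) → ℤ) F}.ncard : ℝ) -
          x * (T : ℝ) ^ n| * T ≤ K * (T : ℝ) ^ n] := by
  tfae_have 1 ↔ 2 := period_iff_vol x hx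
  tfae_have 1 ↔ 4 := period_iff_lattice x hx
  tfae_have 2 → 3 := by
    rintro ⟨n, f, h⟩
    obtain ⟨N, c, hc⟩ := exists_mat f
    exact ⟨n, N, c, by simpa only [hc] using h⟩
  tfae_have 3 → 2 := by
    rintro ⟨n, N, c, h⟩
    obtain ⟨f, hf⟩ := mat_poly c
    exact ⟨n, f, by simpa only [hf] using h⟩
  tfae_finish

theorem main_real (x : ℝ) : List.TFAE [
    IsPeriod x,
    ∃ (a : ℤ) (n : ℕ) (f : MvPolynomial (Fin n) ℤ),
      x = a + (volume {u : Fin n → ℝ | (∀ i, 0 ≤ u i ∧ u i ≤ 1) ∧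
        0 < (aeval u f : ℝ)}).toReal,
    ∃ (a : ℤ) (n N : ℕ) (c : Fin N → Fin N → Fin (n + 2)),
      x = a + (volume {u : Fin n → ℝ | (∀ i, 0 ≤ u i ∧ u i ≤ 1) ∧
        0 < (mat c u).det}).toReal] := by
  tfae_have 1 ↔ 2 := period_iff_prob x
  tfae_have 2 → 3 := by
    rintro ⟨a, n, f, h⟩
    obtain ⟨N, c, hc⟩ := exists_mat f
    exact ⟨a, n, N, c, by simpa only [hc] using h⟩
  tfae_have 3 → 2 := by
    rintro ⟨a, n, N, c, h⟩
    obtain ⟨f, hf⟩ := mat_poly c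
    exact ⟨a, n, f, by simpa only [hf] using h⟩
  tfae_finish

end Pool.Agent.OneIneq
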