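import Pool.Agent.W_2cf66e_h3.Count
import Pool.Agent.W_2cf66e_h3.Per
import Pool.Agent.W_2cf66e_h65.HMain
import Pool.Agent.W_2cf66e_h65.ISet

/-!
# MP_2cf66e_nt, one inequality: the three normal forms (helper3)
-/

set_option autoImplicit false

noncomputable section

open MeasureTheory MvPolynomial Filter
open scoped ENNReal Topology Pointwise

namespace Pool.Agent.OneIneq

open Pool.Agent.CVol

/-- Evaluation of integer polynomials at integer points. -/
theorem aeval_int {σ : Type} (v : σ → ℤ) (F : MvPolynomial σ ℤ) :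
    (aeval (fun i => ((v i : ℤ) : ℝ)) F : ℝ) = ((eval v F : ℤ) : ℝ) := by
  have h := aeval_algebraMap_apply (A := ℤ) (B := ℝ) v F
  have h2 : (algebraMap ℤ ℝ ∘ v : σ → ℝ) = fun i => ((v i : ℤ) : ℝ) := rfl
  rw [h2] at h
  rw [h, aeval_eq_eval]
  rfl

/-- The set `F(1, u) > 0`. -/
def Sset {n : ℕ} (F : MvPolynomial (Fin (n + 1)) ℤ) : Set (Fin n → ℝ) :=
  {u | 0 < (aeval (Fin.cons 1 u : Fin (n + 1) → ℝ) F : ℝ)}

theorem Sset_scale {n d : ℕ} {F : MvPolynomial (Fin (n + 1)) ℤ} (hF : F.IsHomogeneous d) {T : ℕ}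
    (hT : 0 < T) (z : Fin n → ℤ) :
    (fun i => ((z i : ℤ) : ℝ) / T : Fin n → ℝ) ∈ Sset F ↔
      0 < eval (Fin.cons (T : ℤ) z : Fin (n + 1) → ℤ) F := by
  have hT' : (0 : ℝ) < T := by exact_mod_cast hT
  have h1 := homog_smul hF (T : ℝ) (Fin.cons 1 fun i => ((z i : ℤ) : ℝ) / T : Fin (n + 1) → ℝ)
  have h2 : (fun i => (T : ℝ) * (Fin.cons 1 fun i => ((z i : ℤ) : ℝ) / T : Fin (n + 1) → ℝ) i) =
      fun i => (((Fin.cons (T : ℤ) z : Fin (n + 1) → ℤ) i : ℤ) : ℝ) := by
    funext i
    refine Fin.cases ?_ (fun j => ?_) i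
    · simp
    · simp only [Fin.cons_succ]
      field_simp
  rw [h2, aeval_int] at h1
  have h3 : (0 : ℝ) < (T : ℝ) ^ d := by positivity
  rw [Sset, Set.mem_ofPred_eq]
  constructor
  · intro h4
    have h5 := mul_pos h3 h4
    rw [← h1] at h5
    exact_mod_cast h5
  · intro h4
    have h5 : (0 : ℝ) < ((eval (Fin.cons (T : ℤ) z : Fin (n + 1) → ℤ) F : ℤ) : ℝ) := by
      exact_mod_cast h4
    rw [h1] at h5
    exact (mul_pos_iff_of_pos_left h3).1 h5

/-- The lattice points of the dilated set. -/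
theorem lattice_card {n d : ℕ} {F : MvPolynomial (Fin (n + 1)) ℤ} (hF : F.IsHomogeneous d)
    {T : ℕ} (hT : 0 < T) :
    Nat.card ↑(Sset F ∩ (T : ℝ)⁻¹ •
      (Submodule.span ℤ (Set.range (Pi.basisFun ℝ (Fin n))) : Set (Fin n → ℝ))) =
    {z : Fin n → ℤ | 0 < eval (Fin.cons (T : ℤ) z : Fin (n + 1) → ℤ) F}.ncard := by
  have hT' : (0 : ℝ) < T := by exact_mod_cast hT
  have : NeZero T := ⟨hT.ne'⟩
  let φ : (Fin n → ℤ) → (Fin n → ℝ) := fun z i => ((z i : ℤ) : ℝ) / T
  have hφ : Function.Injective φ := by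
    intro z z' h
    funext i
    have h1 := congrFun h i
    simp only [φ] at h1
    have h2 : ((z i : ℤ) : ℝ) = z' i := by
      field_simp at h1
      exact h1
    exact_mod_cast h2
  have h1 : Sset F ∩ (T : ℝ)⁻¹ •
      (Submodule.span ℤ (Set.range (Pi.basisFun ℝ (Fin n))) : Set (Fin n → ℝ)) =
      φ '' {z : Fin n → ℤ | 0 < eval (Fin.cons (T : ℤ) z : Fin (n + 1) → ℤ) F} := by
    ext u
    constructor
    · rintro ⟨hu, hL⟩
      have h2 : ∀ i, (T : ℝ) * u i ∈ Set.range (algebraMap ℤ ℝ) := by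
        rw [← Submodule.coe_pointwise_smul] at hL
        exact BoxIntegral.unitPartition.mem_smul_span_iff.1 hL
      choose z hz using h2
      have h3 : φ z = u := by
        funext i
        have h4 := hz i
        rw [eq_intCast] at h4
        simp only [φ]
        rw [h4]
        field_simp
      refine ⟨z, ?_, h3⟩
      rw [Set.mem_ofPred_eq, ← Sset_scale hF hT]
      rw [← h3] at hu
      exact hu
    · rintro ⟨z, hz, rfl⟩
      refine ⟨(Sset_scale hF hT z).2 hz, ?_⟩
      rw [← Submodule.coe_pointwise_smul]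
      refine BoxIntegral.unitPartition.mem_smul_span_iff.2 fun i => ⟨z i, ?_⟩
      simp only [φ, eq_intCast]
      field_simp
  rw [h1, Nat.card_coe_set_eq, Set.ncard_image_of_injective _ hφ]

/-- The positive set of a nonzero polynomial has a boundary of measure zero. -/
theorem frontier_null {n : ℕ} {F : MvPolynomial (Fin (n + 1)) ℤ}
    (g : MvPolynomial (Fin n) ℚ) (hg : ∀ u : Fin n → ℝ, (aeval u g : ℝ) =
      aeval (Fin.cons 1 u : Fin (n + 1) → ℝ) F) (hx : g ≠ 0) :
    volume (frontier (Sset F)) = 0 := by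
  have h1 : Sset F = {u | 0 < (aeval u g : ℝ)} := by
    ext u
    rw [Sset, Set.mem_ofPred_eq, Set.mem_ofPred_eq, hg]
  have h2 : frontier (Sset F) ⊆ {u | (aeval u g : ℝ) = 0} := by
    rw [h1]
    intro u hu
    have h3 : u ∈ {b : Fin n → ℝ | (0 : ℝ) = aeval b g} :=
      frontier_lt_subset_eq continuous_const (HCell_cont g) hu
    have h4 : (0 : ℝ) = aeval u g := h3
    exact h4.symm
  exact measure_mono_null h2 (null_rat g hx)

theorem Sset_open {n : ℕ} (g : MvPolynomial (Fin n) ℚ) :
    IsOpen {u : Fin n → ℝ | 0 < (aeval u g : ℝ)} :=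
  isOpen_lt continuous_const (HCell_cont g)

/-- The count of lattice points. -/
theorem tendsto_count {n d : ℕ} {F : MvPolynomial (Fin (n + 1)) ℤ} (hF : F.IsHomogeneous d)
    (g : MvPolynomial (Fin n) ℚ) (hg : ∀ u : Fin n → ℝ, (aeval u g : ℝ) =
      aeval (Fin.cons 1 u : Fin (n + 1) → ℝ) F) (hx : g ≠ 0)
    (hb : Bornology.IsBounded (Sset F)) :
    Tendsto (fun T : ℕ => ({z : Fin n → ℤ | 0 < eval (Fin.cons (T : ℤ) z : Fin (n + 1) → ℤ) F}.ncard
      : ℝ) / (T : ℝ) ^ n) atTop (𝓝 (volume.real (Sset F))) := by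
  have h1 : Sset F = {u | 0 < (aeval u g : ℝ)} := by
    ext u
    rw [Sset, Set.mem_ofPred_eq, Set.mem_ofPred_eq, hg]
  have hm : MeasurableSet (Sset F) := by
    rw [h1]
    exact (Sset_open g).measurableSet
  have h2 := tendsto_card_div_pow_atTop_volume (Sset F) hb hm (frontier_null g hg hx)
  refine h2.congr' ?_
  filter_upwards [eventually_gt_atTop 0] with T hT
  rw [lattice_card hF hT, Fintype.card_fin]

/-- Dehomogenization. -/
theorem dehom {n : ℕ} (F : MvPolynomial (Fin (n + 1)) ℤ) :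
    ∃ f : MvPolynomial (Fin n) ℤ, ∀ u : Fin n → ℝ, (aeval u f : ℝ) =
      aeval (Fin.cons 1 u : Fin (n + 1) → ℝ) F := by
  refine ⟨aeval (Fin.cons 1 X : Fin (n + 1) → MvPolynomial (Fin n) ℤ) F, fun u => ?_⟩
  rw [← AlgHom.comp_apply (aeval u), comp_aeval]
  congr 1
  congr 1
  funext i
  refine Fin.cases ?_ (fun j => ?_) i
  · simp
  · simp

theorem period_add {x y : ℝ} (hx : IsPeriod x) (hy : IsPeriod y) : IsPeriod (x + y) := by
  obtain ⟨N, g, hg, hc, hi⟩ := ((period_smooth hx 0).add (period_smooth hy 0)).fin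
  rw [← hi]
  exact period_of_smooth g hg hc.continuous

theorem period_int (a : ℤ) : IsPeriod (a : ℝ) := by
  refine ⟨0, C (a : ℚ), 1, 1, 0, fun _ _ => 1, ?_, ?_⟩
  · have h1 : (fun x : Fin 0 → ℝ => (aeval x (C (a : ℚ)) : ℝ) / aeval x (1 : MvPolynomial (Fin 0) ℚ)) =
        fun _ => (a : ℝ) := by
      funext x
      simp
    rw [h1]
    refine integrableOn_const ?_
    refine ne_of_lt (lt_of_le_of_lt (measure_mono (Set.subset_univ _)) ?_)
    simp
  · have h1 : {x : Fin 0 → ℝ | ∃ j : Fin 1, ∀ i : Fin 0,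
        0 < (aeval x ((fun _ _ => 1 : Fin 1 → Fin 0 → MvPolynomial (Fin 0) ℚ) j i) : ℝ)} =
        Set.univ := by
      ext x
      simp
    have h2 : volume (Set.univ : Set (Fin 0 → ℝ)) = 1 := by
      simp [volume_pi, Measure.pi_of_empty]
    rw [h1]
    simp [measureReal_def, h2]

/-- Positive periods are the volumes of the bounded positive sets of integer polynomials. -/
theorem period_iff_vol (x : ℝ) (hx : 0 < x) : IsPeriod x ↔
    ∃ (n : ℕ) (f : MvPolynomial (Fin n) ℤ),
      Bornology.IsBounded {u : Fin n → ℝ | 0 < (aeval u f : ℝ)} ∧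
      volume {u : Fin n → ℝ | 0 < (aeval u f : ℝ)} = ENNReal.ofReal x := by
  constructor
  · intro h
    obtain ⟨n, f, h1, h2⟩ := (period_av h).bdd hx
    obtain ⟨d, g, hd, hg⟩ := clear f
    have hd' : (0 : ℝ) < d := by exact_mod_cast hd
    have h3 : {u : Fin n → ℝ | 0 < (aeval u g : ℝ)} = {u : Fin n → ℝ | 0 < (aeval u f : ℝ)} := by
      ext u
      rw [Set.mem_ofPred_eq, Set.mem_ofPred_eq, hg, mul_pos_iff_of_pos_left hd']
    exact ⟨n, g, by rw [h3]; exact h1, by rw [h3]; exact h2⟩
  · rintro ⟨n, f, -, h2⟩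
    refine period_of_volume (s := {u : Fin n → ℝ | 0 < (aeval u f : ℝ)}) ?_ x hx h2
    have h3 := IsSA.pos (map (Int.castRingHom ℚ) f)
    simp only [toRat] at h3
    exact h3

/-- Positive periods are the leading constants of the counting problems of one homogeneous
inequality. -/
theorem period_iff_count (x : ℝ) (hx : 0 < x) : IsPeriod x ↔
    ∃ (n d : ℕ) (F : MvPolynomial (Fin (n + 1)) ℤ), F.IsHomogeneous d ∧
      (∃ C : ℕ, ∀ (T : ℕ) (z : Fin n → ℤ), 0 < T →
        0 < eval (Fin.cons (T : ℤ) z : Fin (n + 1) → ℤ) F → ∀ i, |z i| ≤ C * T) ∧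
      Tendsto (fun T : ℕ =>
        ({z : Fin n → ℤ | 0 < eval (Fin.cons (T : ℤ) z : Fin (n + 1) → ℤ) F}.ncard : ℝ) /
          (T : ℝ) ^ n) atTop (𝓝 x) := by
  constructor
  · intro h
    obtain ⟨n, f, h1, h2⟩ := (period_iff_vol x hx).1 h
    obtain ⟨d, F, hF, hFf⟩ := homog f
    have hS : Sset F = {u : Fin n → ℝ | 0 < (aeval u f : ℝ)} := by
      ext u
      have h3 := hFf 1 u
      simp only [one_mul, one_pow] at h3
      rw [Sset, Set.mem_ofPred_eq, Set.mem_ofPred_eq, h3]
    refine ⟨n, d, F, hF, ?_, ?_⟩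
    · obtain ⟨C, hC⟩ := isBounded_iff_forall_norm_le.1 h1
      obtain ⟨C', hC'⟩ := exists_nat_ge C
      refine ⟨C', fun T z hT hz i => ?_⟩
      have hT' : (0 : ℝ) < T := by exact_mod_cast hT
      have h3 := (Sset_scale hF hT z).2 hz
      rw [hS] at h3
      have h4 := (norm_le_pi_norm _ i).trans ((hC _ h3).trans hC')
      rw [Real.norm_eq_abs, abs_div, Nat.abs_cast, div_le_iff₀ hT'] at h4
      exact_mod_cast h4
    · have hg : ∀ u : Fin n → ℝ, (aeval u (map (Int.castRingHom ℚ) f) : ℝ) =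
          aeval (Fin.cons 1 u : Fin (n + 1) → ℝ) F := by
        intro u
        have h3 := hFf 1 u
        simp only [one_mul, one_pow] at h3
        rw [toRat, h3]
      have hne : map (Int.castRingHom ℚ) f ≠ 0 := by
        intro h0
        have h3 : {u : Fin n → ℝ | 0 < (aeval u f : ℝ)} = ∅ := by
          ext u
          rw [Set.mem_ofPred_eq, ← toRat, h0]
          simp
        rw [h3, measure_empty] at h2
        have := ENNReal.ofReal_pos.2 hx
        rw [← h2] at this
        exact lt_irrefl _ this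
      have h3 := tendsto_count hF _ hg hne (by rw [hS]; exact h1)
      have h4 : volume.real (Sset F) = x := by
        rw [hS, measureReal_def, h2, ENNReal.toReal_ofReal hx.le]
      rw [h4] at h3
      exact h3
  · rintro ⟨n, d, F, hF, ⟨C, hC⟩, hlim⟩
    obtain ⟨f, hf⟩ := dehom F
    have hS : Sset F = {u : Fin n → ℝ | 0 < (aeval u f : ℝ)} := by
      ext u
      rw [Sset, Set.mem_ofPred_eq, Set.mem_ofPred_eq, hf]
    have hopen : IsOpen (Sset F) := by
      have h3 := Sset_open (map (Int.castRingHom ℚ) f)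
      simp only [toRat] at h3
      rw [hS]
      exact h3
    have hbd : Bornology.IsBounded (Sset F) := by
      refine isBounded_iff_forall_norm_le.2 ⟨C, fun u hu => ?_⟩
      rw [pi_norm_le_iff_of_nonneg (Nat.cast_nonneg C)]
      intro i
      by_contra hc
      have hc' : (C : ℝ) < |u i| := not_le.1 hc
      -- a rational point in the open set
      have hO : IsOpen (Sset F ∩ {v : Fin n → ℝ | (C : ℝ) < |v i|}) :=
        hopen.inter (isOpen_lt continuous_const (continuous_apply i).abs)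
      have hdense : DenseRange (fun (q : Fin n → ℚ) (j : Fin n) => ((q j : ℚ) : ℝ)) :=
        DenseRange.piMap fun _ => Rat.denseRange_cast
      obtain ⟨q, hq⟩ := hdense.exists_mem_open hO ⟨u, hu, hc'⟩
      let T : ℕ := ∏ j, (q j).den
      have hT : 0 < T := Finset.prod_pos fun j _ => (q j).den_pos
      have hT' : (0 : ℝ) < T := by exact_mod_cast hT
      have hz : ∀ j, ∃ z : ℤ, (z : ℝ) = q j * T := by
        intro j
        refine ⟨(q j).num * ∏ j' ∈ Finset.univ.erase j, ((q j').den : ℤ), ?_⟩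
        have h5 : (T : ℝ) = (q j).den * ∏ j' ∈ Finset.univ.erase j, ((q j').den : ℝ) := by
          simp only [T]
          push_cast
          exact (Finset.mul_prod_erase Finset.univ (fun j' => ((q j').den : ℝ))
            (Finset.mem_univ j)).symm
        have h6 : ((q j : ℚ) : ℝ) * ((q j).den : ℝ) = ((q j).num : ℝ) := by
          have := Rat.mul_den_eq_num (q j)
          exact_mod_cast this
        rw [h5, ← mul_assoc, h6]
        push_cast
        rfl
      choose z hz using hz
      have hzu : (fun j => ((z j : ℤ) : ℝ) / T : Fin n → ℝ) = fun j => ((q j : ℚ) : ℝ) := by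
        funext j
        rw [hz]
        field_simp
      have h7 := (Sset_scale hF hT z).1 (by rw [hzu]; exact hq.1)
      have h8 := hC T z hT h7 i
      have h9 : |((z i : ℤ) : ℝ)| ≤ C * T := by exact_mod_cast h8
      have h10 : (C : ℝ) < |((q i : ℚ) : ℝ)| := hq.2
      rw [hz, abs_mul, Nat.abs_cast] at h9
      exact absurd (le_of_mul_le_mul_right h9 hT') (not_le.2 h10)
    by_cases h0 : map (Int.castRingHom ℚ) f = 0
    · exfalso
      have hem : Sset F = ∅ := by
        rw [hS]
        ext u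
        rw [Set.mem_ofPred_eq, ← toRat, h0]
        simp
      have h3 : ∀ᶠ T : ℕ in atTop,
          ({z : Fin n → ℤ | 0 < eval (Fin.cons (T : ℤ) z : Fin (n + 1) → ℤ) F}.ncard : ℝ) /
          (T : ℝ) ^ n = 0 := by
        filter_upwards [eventually_gt_atTop 0] with T hT
        have h4 : {z : Fin n → ℤ | 0 < eval (Fin.cons (T : ℤ) z : Fin (n + 1) → ℤ) F} = ∅ := by
          ext z
          rw [Set.mem_ofPred_eq, ← Sset_scale hF hT, hem]
          simp
        rw [h4]
        simp
      have h4 := tendsto_nhds_unique (hlim.congr' h3) tendsto_const_nhds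
      linarith
    · have hg : ∀ u : Fin n → ℝ, (aeval u (map (Int.castRingHom ℚ) f) : ℝ) =
          aeval (Fin.cons 1 u : Fin (n + 1) → ℝ) F := by
        intro u
        rw [toRat, hf]
      have h3 := tendsto_count hF _ hg h0 hbd
      have h4 := tendsto_nhds_unique hlim h3
      have h5 : volume (Sset F) ≠ ⊤ := hbd.measure_lt_top.ne
      refine (period_iff_vol x hx).2 ⟨n, f, by rw [← hS]; exact hbd, ?_⟩
      rw [← hS, h4, measureReal_def, ENNReal.ofReal_toReal h5]

/-- Periods are integers plus probabilities of one polynomial inequality. -/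
theorem period_iff_prob (x : ℝ) : IsPeriod x ↔
    ∃ (a : ℤ) (n : ℕ) (f : MvPolynomial (Fin n) ℤ),
      x = a + (volume {u : Fin n → ℝ | (∀ i, 0 ≤ u i ∧ u i ≤ 1) ∧
        0 < (aeval u f : ℝ)}).toReal := by
  constructor
  · intro h
    by_cases h0 : x = ⌊x⌋
    · refine ⟨⌊x⌋, 0, 0, ?_⟩
      simp only [map_zero, lt_irrefl, and_false]
      rw [show {u : Fin 0 → ℝ | False} = ∅ from rfl, measure_empty, ENNReal.toReal_zero, add_zero]
      exact h0
    · have h1 : 0 < x - ⌊x⌋ := by
        have := Int.floor_le x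
        rcases lt_or_eq_of_le this with h2 | h2
        · linarith
        · exact absurd h2.symm h0
      have h2 : x - ⌊x⌋ < 1 := by
        have := Int.lt_floor_add_one x
        linarith
      obtain ⟨n, f, hf⟩ := (period_av h).prob ⌊x⌋ h1 h2
      obtain ⟨d, g, hd, hg⟩ := clear f
      have hd' : (0 : ℝ) < d := by exact_mod_cast hd
      refine ⟨⌊x⌋, n, g, ?_⟩
      have hset : {u : Fin n → ℝ | (∀ i, 0 ≤ u i ∧ u i ≤ 1) ∧ 0 < (aeval u g : ℝ)} =
          {u : Fin n → ℝ | (∀ i, 0 ≤ u i ∧ u i ≤ 1) ∧ 0 < (aeval u f : ℝ)} := by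
        ext u
        rw [Set.mem_ofPred_eq, Set.mem_ofPred_eq, hg, mul_pos_iff_of_pos_left hd']
      rw [hset]
      exact hf
  · rintro ⟨a, n, f, rfl⟩
    refine period_add (period_int a) ?_
    set S : Set (Fin n → ℝ) := {u : Fin n → ℝ | (∀ i, 0 ≤ u i ∧ u i ≤ 1) ∧ 0 < (aeval u f : ℝ)}
      with hSdef
    have hfin : volume S ≠ ⊤ := by
      refine ne_of_lt (lt_of_le_of_lt (measure_mono (t := ucube (Fin n)) fun u hu => ?_)
        (ucube_compact _).measure_lt_top)
      exact mem_ucube.2 hu.1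
    rcases lt_or_eq_of_le (ENNReal.toReal_nonneg (a := volume S)) with h0 | h0
    · refine period_of_volume ?_ _ h0 (ENNReal.ofReal_toReal hfin).symm
      -- semialgebraic
      have hpos : IsSA {u : Fin n → ℝ | 0 < (aeval u f : ℝ)} := by
        have h3 := IsSA.pos (map (Int.castRingHom ℚ) f)
        simp only [toRat] at h3
        exact h3
      have hlow : ∀ i : Fin n, IsSA {u : Fin n → ℝ | 0 ≤ u i} := by
        intro i
        have h3 := (IsSA.pos (-(X i : MvPolynomial (Fin n) ℚ))).compl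
        have h4 : {u : Fin n → ℝ | 0 < (aeval u (-(X i : MvPolynomial (Fin n) ℚ)) : ℝ)}ᶜ =
            {u : Fin n → ℝ | 0 ≤ u i} := by
          ext u
          rw [Set.mem_compl_iff, Set.mem_ofPred_eq, Set.mem_ofPred_eq, map_neg, aeval_X, not_lt]
          constructor <;> intro h <;> linarith
        rw [h4] at h3
        exact h3
      have hup : ∀ i : Fin n, IsSA {u : Fin n → ℝ | u i ≤ 1} := by
        intro i
        have h3 := (IsSA.pos ((X i : MvPolynomial (Fin n) ℚ) - 1)).compl
        have h4 : {u : Fin n → ℝ | 0 < (aeval u ((X i : MvPolynomial (Fin n) ℚ) - 1) : ℝ)}ᶜ =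
            {u : Fin n → ℝ | u i ≤ 1} := by
          ext u
          rw [Set.mem_compl_iff, Set.mem_ofPred_eq, Set.mem_ofPred_eq, map_sub, aeval_X, map_one,
            not_lt]
          constructor <;> intro h <;> linarith
        rw [h4] at h3
        exact h3
      have hbox : ∀ I : Finset (Fin n), IsSA {u : Fin n → ℝ | (∀ i ∈ I, 0 ≤ u i ∧ u i ≤ 1) ∧
          0 < (aeval u f : ℝ)} := by
        intro I
        induction I using Finset.induction_on with
        | empty => simpa using hpos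
        | insert i I hi ih =>
          have h5 := ((hlow i).inter (hup i)).inter ih
          have h6 : ({u : Fin n → ℝ | 0 ≤ u i} ∩ {u : Fin n → ℝ | u i ≤ 1}) ∩
              {u : Fin n → ℝ | (∀ i ∈ I, 0 ≤ u i ∧ u i ≤ 1) ∧ 0 < (aeval u f : ℝ)} =
              {u : Fin n → ℝ | (∀ j ∈ insert i I, 0 ≤ u j ∧ u j ≤ 1) ∧
                0 < (aeval u f : ℝ)} := by
            ext u
            simp only [Set.mem_inter_iff, Set.mem_ofPred_eq, Finset.forall_mem_insert]
            tauto
          rw [h6] at h5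
          exact h5
      have h7 := hbox Finset.univ
      simp only [Finset.mem_univ, true_implies] at h7
      exact h7
    · rw [← h0]
      have := period_int 0
      simpa using this

end Pool.Agent.OneIneq
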