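import Pool.Agent.W_2cf66e_h3.Abs

/-!
# MP_2cf66e_nt, one inequality: rational combinations of L^1 norms of polynomials (helper3)
-/

set_option autoImplicit false

noncomputable section

open MeasureTheory MvPolynomial

namespace Pool.Agent.OneIneq

open Pool.Agent.CVol

/-- `x` is a rational linear combination of the integrals over a unit cube of absolute values of
rational polynomials. -/
def AV (x : ℝ) : Prop :=
  ∃ (N k : ℕ) (c : Fin k → ℚ) (Q : Fin k → MvPolynomial (Fin N) ℚ),
    x = ∑ j, (c j : ℝ) * ∫ z in ucube (Fin N), |(aeval z (Q j) : ℝ)|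

theorem ucube_compact (ι : Type) [Fintype ι] : IsCompact (ucube ι) := isCompact_Icc

theorem ucube_meas (ι : Type) [Fintype ι] : MeasurableSet (ucube ι) :=
  (ucube_compact ι).isClosed.measurableSet

theorem abs_int {ι : Type} [Fintype ι] (Q : MvPolynomial ι ℚ) :
    IntegrableOn (fun z : ι → ℝ => |(aeval z Q : ℝ)|) (ucube ι) :=
  (HCell_cont Q).abs.continuousOn.integrableOn_compact (ucube_compact ι)

theorem AV.of_abs {N : ℕ} {φ : (Fin N → ℝ) → ℝ} (h : AbsF (ucube (Fin N)) φ) :
    AV (∫ z in ucube (Fin N), φ z) := by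
  obtain ⟨k, c, Q, hQ⟩ := h
  refine ⟨N, k, c, Q, ?_⟩
  rw [setIntegral_congr_fun (ucube_meas _) hQ, integral_finsetSum]
  · refine Finset.sum_congr rfl fun j _ => ?_
    rw [integral_const_mul]
  · intro j _
    exact (abs_int (Q j)).const_mul _

theorem AV.zero : AV 0 := ⟨0, 0, fun _ => 0, fun _ => 0, by simp⟩

theorem proj_left (N M : ℕ) (g : (Fin N → ℝ) → ℝ) (hg : Continuous g) :
    ∫ θ in ucube (Fin (N + M)), g (fun i => θ (Fin.castAdd M i)) = ∫ z in ucube (Fin N), g z := by
  have h := KVal_proj_left N M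
  rw [← h.map_eq, integral_map h.measurable.aemeasurable hg.aestronglyMeasurable]

theorem proj_right (N M : ℕ) (g : (Fin M → ℝ) → ℝ) (hg : Continuous g) :
    ∫ θ in ucube (Fin (N + M)), g (fun i => θ (Fin.natAdd N i)) = ∫ z in ucube (Fin M), g z := by
  have h := KVal_proj_right N M
  rw [← h.map_eq, integral_map h.measurable.aemeasurable hg.aestronglyMeasurable]

theorem AV.add {x y : ℝ} (h : AV x) (h' : AV y) : AV (x + y) := by
  obtain ⟨N, k, c, Q, hx⟩ := h
  obtain ⟨M, k', c', Q', hy⟩ := h'
  refine ⟨N + M, k + k', Fin.append c c', Fin.append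
    (fun j => rename (Fin.castAdd M) (Q j)) (fun j => rename (Fin.natAdd N) (Q' j)), ?_⟩
  rw [Fin.sum_univ_add, hx, hy]
  simp only [Fin.append_left, Fin.append_right, aeval_rename]
  congr 1
  · refine Finset.sum_congr rfl fun j _ => ?_
    rw [← proj_left N M _ (HCell_cont (Q j)).abs]
    rfl
  · refine Finset.sum_congr rfl fun j _ => ?_
    rw [← proj_right N M _ (HCell_cont (Q' j)).abs]
    rfl

theorem AV.sum {α : Type} (T : Finset α) (x : α → ℝ) (h : ∀ a ∈ T, AV (x a)) :
    AV (∑ a ∈ T, x a) := by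
  classical
  induction T using Finset.induction_on with
  | empty => simpa using AV.zero
  | insert a T ha ih =>
    rw [Finset.sum_insert ha]
    exact (h a (Finset.mem_insert_self _ _)).add
      (ih fun b hb => h b (Finset.mem_insert_of_mem hb))

/-- The substitution `y = 2 u - 1` from the cube `[-1,1]^n` to the unit cube. -/
theorem box_ucube {n : ℕ} (g : (Fin n → ℝ) → ℝ) :
    ∫ y in box (Fin n), g y = 2 ^ n * ∫ u in ucube (Fin n), g (fun i => 2 * u i - 1) := by
  have hb : MeasurableSet (box (Fin n)) := (isCompact_Icc).isClosed.measurableSet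
  rw [← integral_indicator hb, ← integral_indicator (ucube_meas _)]
  have h1 : (ucube (Fin n)).indicator (fun u => g (fun i => 2 * u i - 1)) =
      fun u => (box (Fin n)).indicator g ((2 : ℝ) • u - 1) := by
    funext u
    have h2 : ((2 : ℝ) • u - 1 : Fin n → ℝ) = fun i => 2 * u i - 1 := by
      funext i
      simp
    have h3 : u ∈ ucube (Fin n) ↔ (fun i => 2 * u i - 1 : Fin n → ℝ) ∈ box (Fin n) := by
      rw [ucube, Set.mem_Icc, Pi.le_def, Pi.le_def, box_eq, Set.mem_ofPred_eq, ← forall_and]
      refine forall_congr' fun i => ?_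
      constructor
      · rintro ⟨h4, h5⟩
        exact ⟨by linarith, by linarith⟩
      · rintro ⟨h4, h5⟩
        exact ⟨by linarith, by linarith⟩
    rw [h2]
    by_cases h : u ∈ ucube (Fin n)
    · rw [Set.indicator_of_mem h, Set.indicator_of_mem (h3.1 h)]
    · rw [Set.indicator_of_notMem h, Set.indicator_of_notMem fun h' => h (h3.2 h')]
  rw [h1]
  have h2 := Measure.integral_comp_smul (volume : Measure (Fin n → ℝ))
    (fun x => (box (Fin n)).indicator g (x - 1)) (2 : ℝ)
  beta_reduce at h2
  rw [h2, integral_sub_right_eq_self (fun x => (box (Fin n)).indicator g x) 1]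
  rw [Module.finrank_fin_fun, abs_of_nonneg (by positivity), smul_eq_mul, ← mul_assoc,
    mul_inv_cancel₀ (by positivity), one_mul]

theorem box_to_ucube {n : ℕ} {φ : (Fin n → ℝ) → ℝ} (h : AbsF (box (Fin n)) φ) :
    AbsF (ucube (Fin n)) (fun u => φ fun i => 2 * u i - 1) := by
  have h1 := h.comp (S := ucube (Fin n)) (fun i => 2 * X i - 1) (fun z hz => by
    rw [ucube, Set.mem_Icc, Pi.le_def, Pi.le_def] at hz
    rw [box_eq, Set.mem_ofPred_eq]
    intro i
    have h2 := hz.1 i
    have h3 := hz.2 i
    simp only [map_sub, map_mul, aeval_X, map_one, map_ofNat]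
    exact ⟨by linarith, by linarith⟩)
  refine h1.congr fun z _ => ?_
  simp only [map_sub, map_mul, aeval_X, map_one, map_ofNat]

end Pool.Agent.OneIneq
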