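import Pool.Agent.W_2cf66e_h3.Wt

/-!
# MP_2cf66e_nt, one inequality: bounded positive sets (helper3)
-/

set_option autoImplicit false

noncomputable section

open MeasureTheory MvPolynomial
open scoped ENNReal

namespace Pool.Agent.OneIneq

open Pool.Agent.CVol

/-- Fubini for the volume of a set. -/
theorem vol_fub' {N : ℕ} {S : Set (Fin (N + 1) → ℝ)} (hS : MeasurableSet S) :
    volume S = ∫⁻ w : Fin N → ℝ, volume {y : ℝ | (Fin.cons y w : Fin (N + 1) → ℝ) ∈ S} := by
  let e := MeasurableEquiv.piFinSuccAbove (fun _ : Fin (N + 1) => ℝ) 0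
  have hsymm : ∀ z : ℝ × (Fin N → ℝ), e.symm z = Fin.cons z.1 z.2 := by
    intro z
    have h2 : (e.symm z : Fin (N + 1) → ℝ) = Fin.insertNth 0 z.1 z.2 := rfl
    rw [h2, Fin.insertNth_zero']
  have h1 : volume (e.symm ⁻¹' S) = volume S :=
    (volume_preserving_piFinSuccAbove (fun _ : Fin (N + 1) => ℝ) 0).symm.measure_preimage_equiv S
  rw [← h1, Measure.volume_eq_prod, Measure.prod_apply_symm (e.symm.measurable hS)]
  refine lintegral_congr fun w => ?_
  congr 1
  ext y
  rw [Set.mem_preimage, Set.mem_preimage, hsymm]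
  rfl

/-- The profile as a polynomial. -/
def QF {σ : Type} (T : MvPolynomial σ ℚ) : MvPolynomial σ ℚ := T ^ 2 * (1 - T ^ 2)

theorem QF_val {σ : Type} (T : MvPolynomial σ ℚ) (z : σ → ℝ) :
    (aeval z (QF T) : ℝ) = qf (aeval z T) := by
  simp [QF, qf]

section

variable {N L : ℕ} (P : Fin L → MvPolynomial (Fin N) ℚ) (r : ℚ) (e b : Fin L → ℚ)

/-- Centres. -/
def al (l : Fin L) : ℚ := 4 * b l + r * (1 + e l) / 2

/-- Squares of the radii. -/
def cc (s : ℝ) (u : Fin N → ℝ) (l : Fin L) : ℝ :=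
  (aeval u (P l)) ^ 2 * (225 / 4 * qf (10 * (s - 2) - 7))

/-- Square of the half height of the base. -/
def BB (s : ℝ) : ℝ := (3 * r / 4) ^ 2 * qf (s - 2)

/-- The length of the fibre. -/
def hh (s : ℝ) (u : Fin N → ℝ) : ℝ :=
  2 * Real.sqrt (BB r s) + ∑ l, (e l : ℝ) * (2 * Real.sqrt (cc P s u l))

variable {P r e b}

theorem BB_sqrt (hr : 0 ≤ (r : ℝ)) (s : ℝ) : Real.sqrt (BB r s) = 3 * r / 4 * bs s := by
  rw [BB, Real.sqrt_mul (sq_nonneg _), Real.sqrt_sq (by positivity)]
  rfl

theorem cc_sqrt (s : ℝ) (u : Fin N → ℝ) (l : Fin L) :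
    Real.sqrt (cc P s u l) = 15 / 2 * |(aeval u (P l) : ℝ)| * lb s := by
  rw [cc, Real.sqrt_mul (sq_nonneg _), Real.sqrt_sq_eq_abs, Real.sqrt_mul (by norm_num),
    show (225 / 4 : ℝ) = (15 / 2) ^ 2 by norm_num, Real.sqrt_sq (by norm_num)]
  unfold lb
  ring

theorem hh_eq (hr : 0 ≤ (r : ℝ)) (s : ℝ) (u : Fin N → ℝ) :
    hh P r e s u = (3 * r / 2) * bs s +
      (∑ l, (e l : ℝ) * |(aeval u (P l) : ℝ)|) * (15 * lb s) := by
  rw [hh, BB_sqrt hr, Finset.sum_mul]
  congr 1
  · ring
  · refine Finset.sum_congr rfl fun l _ => ?_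
    rw [cc_sqrt]
    ring

theorem hh_int (hr : 0 ≤ (r : ℝ)) (u : Fin N → ℝ) : Integrable (fun s => hh P r e s u) := by
  simp only [hh_eq hr]
  exact (bs_int.const_mul _).add ((lb_int.const_mul _).const_mul _)

theorem hh_val (hr : 0 ≤ (r : ℝ)) (u : Fin N → ℝ) :
    ∫ s, hh P r e s u = r + ∑ l, (e l : ℝ) * |(aeval u (P l) : ℝ)| := by
  simp only [hh_eq hr]
  rw [integral_add (bs_int.const_mul _) ((lb_int.const_mul _).const_mul _), integral_const_mul,
    integral_const_mul, integral_const_mul, bs_val, lb_val]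
  ring

theorem hh_out (hr : 0 ≤ (r : ℝ)) {s : ℝ} (hs : s ≤ 1) (u : Fin N → ℝ) : hh P r e s u = 0 := by
  rw [hh_eq hr, bs_out hs, lb_out hs]
  ring

/-- The geometric conditions. -/
theorem conds {x : ℝ} (hx : 0 < x) {q : Fin L → ℚ}
    (he : ∀ l, (e l : ℝ) = 1 ∨ (e l : ℝ) = -1)
    (hs : ∀ l, ∀ z ∈ ucube (Fin N), |(aeval z (P l) : ℝ)| ≤ q l)
    (hb0 : ∀ l, 0 ≤ (b l : ℝ) - q l) (hbd : ∀ l l', l < l' → (b l : ℝ) + q l ≤ (b l' : ℝ) - q l')
    (hb4 : ∀ l, (b l : ℝ) + q l ≤ 4 * (x / 100)) (hr : 99 / 100 * x ≤ (r : ℝ))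
    {u : Fin N → ℝ} (hu : u ∈ ucube (Fin N)) (s : ℝ) :
    (∀ l, 0 < cc P s u l → 0 ≤ ((al r e b l : ℚ) : ℝ) - Real.sqrt (cc P s u l)) ∧
    (∀ l, 0 < cc P s u l → (e l : ℝ) = -1 →
      ((al r e b l : ℚ) : ℝ) + Real.sqrt (cc P s u l) ≤ Real.sqrt (BB r s)) ∧
    (∀ l, 0 < cc P s u l → (e l : ℝ) = 1 →
      Real.sqrt (BB r s) ≤ ((al r e b l : ℚ) : ℝ) - Real.sqrt (cc P s u l)) ∧
    (∀ l l', l < l' → 0 < cc P s u l → 0 < cc P s u l' →
      Real.sqrt (cc P s u l) + Real.sqrt (cc P s u l') ≤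
        |((al r e b l : ℚ) : ℝ) - ((al r e b l' : ℚ) : ℝ)|) := by
  have hr0 : 0 ≤ (r : ℝ) := by linarith
  have hal : ∀ l, ((al r e b l : ℚ) : ℝ) = 4 * b l + r * (1 + e l) / 2 := by
    intro l
    unfold al
    push_cast
    rfl
  have hg : ∀ l, Real.sqrt (cc P s u l) ≤ 4 * q l := by
    intro l
    rw [cc_sqrt]
    have h1 := hs l u hu
    have h2 := lb_le s
    have h3 := lb_nonneg s
    have h4 := abs_nonneg (aeval u (P l) : ℝ)
    calc 15 / 2 * |(aeval u (P l) : ℝ)| * lb s ≤ 15 / 2 * |(aeval u (P l) : ℝ)| * (1 / 2) :=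
          mul_le_mul_of_nonneg_left h2 (by positivity)
      _ ≤ 4 * q l := by linarith
  have hq0 : ∀ l, 0 ≤ (q l : ℝ) := fun l => (abs_nonneg _).trans (hs l u hu)
  have hqf : ∀ l, 0 < cc P s u l → 0 < qf (10 * (s - 2) - 7) := by
    intro l hl
    unfold cc at hl
    by_contra hc
    have h1 := not_lt.1 hc
    have h2 : (aeval u (P l) : ℝ) ^ 2 * (225 / 4 * qf (10 * (s - 2) - 7)) ≤ 0 :=
      mul_nonpos_of_nonneg_of_nonpos (sq_nonneg _) (by linarith)
    linarith
  refine ⟨?_, ?_, ?_, ?_⟩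
  · intro l _
    rw [hal]
    have h1 := hg l
    have h2 := hb0 l
    rcases he l with h | h <;> rw [h] <;> linarith
  · intro l hl h
    rw [hal, h, BB_sqrt hr0]
    have h1 := hg l
    have h2 := hb4 l
    have h3 := bs_ge (hqf l hl)
    have h4 : 3 * (r : ℝ) / 4 * (12 / 25) ≤ 3 * r / 4 * bs s :=
      mul_le_mul_of_nonneg_left h3 (by positivity)
    linarith
  · intro l _ h
    rw [hal, h, BB_sqrt hr0]
    have h1 := hg l
    have h2 := hb0 l
    have h3 := bs_le s
    have h4 : 3 * (r : ℝ) / 4 * bs s ≤ 3 * r / 4 * (1 / 2) :=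
      mul_le_mul_of_nonneg_left h3 (by positivity)
    linarith
  · intro l l' hl _ _
    have h1 := hg l
    have h2 := hg l'
    have h3 := hbd l l' hl
    have h4 := hb4 l'
    have h5 := hb0 l
    have h6 := hb0 l'
    have h7 := hb4 l
    have h8 := hq0 l
    have h9 := hq0 l'
    rw [hal, hal]
    rcases he l with h | h <;> rcases he l' with h' | h' <;> rw [h, h']
    · rw [abs_sub_comm]
      refine le_trans ?_ (le_abs_self _)
      linarith
    · refine le_trans ?_ (le_abs_self _)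
      linarith
    · rw [abs_sub_comm]
      refine le_trans ?_ (le_abs_self _)
      linarith
    · rw [abs_sub_comm]
      refine le_trans ?_ (le_abs_self _)
      linarith

theorem hh_cont (hr : 0 ≤ (r : ℝ)) : Continuous fun p : ℝ × (Fin N → ℝ) => hh P r e p.1 p.2 := by
  simp only [hh_eq hr]
  have h1 : Continuous bs := Real.continuous_sqrt.comp (qf_cont.comp (by fun_prop))
  have h2 : Continuous lb := Real.continuous_sqrt.comp (qf_cont.comp (by fun_prop))
  have h3 : Continuous fun u : Fin N → ℝ => ∑ l, (e l : ℝ) * |(aeval u (P l) : ℝ)| :=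
    continuous_finsetSum _ fun l _ => continuous_const.mul (HCell_cont (P l)).abs
  exact (continuous_const.mul (h1.comp continuous_fst)).add
    ((h3.comp continuous_snd).mul (continuous_const.mul (h2.comp continuous_fst)))

theorem wt_meas (k : ℕ) : Measurable fun z : Fin (N + 1) → ℝ =>
    ENNReal.ofReal |(aeval z (Z1 k N) : ℝ) / aeval z (D1 k N)| := by
  have h1 : Measurable fun z : Fin (N + 1) → ℝ => (aeval z (Z1 k N) : ℝ) / aeval z (D1 k N) :=
    Measurable.div (HCell_cont (Z1 k N)).measurable (HCell_cont (D1 k N)).measurable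
  have h2 : Measurable fun z : Fin (N + 1) → ℝ =>
      |(aeval z (Z1 k N) : ℝ) / aeval z (D1 k N)| := h1.abs
  exact h2.ennreal_ofReal

theorem hz_meas (hr : 0 ≤ (r : ℝ)) (k : ℕ) : Measurable fun z : Fin (N + 1) → ℝ =>
    ENNReal.ofReal (hh P r e (aeval z (S0 N)) (uc k z)) := by
  have h0 : Measurable fun p : ℝ × (Fin N → ℝ) => hh P r e p.1 p.2 := (hh_cont hr).measurable
  have h1 : Measurable fun z : Fin (N + 1) → ℝ => ((aeval z (S0 N) : ℝ), uc k z) :=
    Measurable.prodMk (HCell_cont (S0 N)).measurable uc_meas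
  have h2 : Measurable ((fun p : ℝ × (Fin N → ℝ) => hh P r e p.1 p.2) ∘
      fun z : Fin (N + 1) → ℝ => ((aeval z (S0 N) : ℝ), uc k z)) := h0.comp h1
  simp only [Function.comp_def] at h2
  exact h2.ennreal_ofReal

end

/-- A positive rational combination of `L^1` norms is the volume of the bounded positive set of one
polynomial. -/
theorem AV.bdd {x : ℝ} (h : AV x) (hx0 : 0 < x) :
    ∃ (n : ℕ) (f : MvPolynomial (Fin n) ℚ),
      Bornology.IsBounded {u : Fin n → ℝ | 0 < (aeval u f : ℝ)} ∧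
      volume {u : Fin n → ℝ | 0 < (aeval u f : ℝ)} = ENNReal.ofReal x := by
  obtain ⟨N, L, P, r, e, b, q, he, hs, hb0, hbd, hb4, hx, hR⟩ :=
    h.prep (ε := x / 100) (by positivity)
  obtain ⟨hR1, hR2⟩ := abs_le.1 hR
  have hr : 99 / 100 * x ≤ (r : ℝ) := by linarith
  have hr2 : (r : ℝ) ≤ 101 / 100 * x := by linarith
  have hr0 : 0 ≤ (r : ℝ) := by linarith
  obtain ⟨k, hk⟩ : ∃ k, k = N + 1 := ⟨_, rfl⟩
  have hk0 : 0 < k := by omega
  choose d Q hQ using fun l => exists_uc k (P l)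
  have hcond := fun (u : Fin N → ℝ) (hu : u ∈ ucube (Fin N)) (s : ℝ) =>
    conds hx0 he hs hb0 hbd hb4 hr hu s
  -- the polynomial
  let τ : MvPolynomial (Fin (N + 1)) ℚ →ₐ[ℚ] MvPolynomial (Fin (N + 2)) ℚ := rename Fin.succ
  let G : MvPolynomial (Fin (N + 2)) ℚ :=
    ((X 0 * τ (D1 k N)) ^ 2 - C ((3 * r / 4) ^ 2) * QF (τ (S0 N) - 2) * τ (Z1 k N) ^ 2) *
    ∏ l, ((X 0 * τ (D1 k N) - C (al r e b l) * τ (Z1 k N)) ^ 2 * τ (D0 N) ^ (2 * d l) -
      τ (Q l) ^ 2 * (C (225 / 4) * QF (10 * (τ (S0 N) - 2) - 7)) * τ (Z1 k N) ^ 2)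
  have hτ : ∀ (y : ℝ) (z : Fin (N + 1) → ℝ) (p : MvPolynomial (Fin (N + 1)) ℚ),
      (aeval (Fin.cons y z : Fin (N + 2) → ℝ) (τ p) : ℝ) = aeval z p := by
    intro y z p
    simp only [τ, aeval_rename]
    rfl
  have hGval : ∀ (y : ℝ) (z : Fin (N + 1) → ℝ), z 0 ≠ 0 → ∃ T : ℝ, 0 < T ∧
      (aeval (Fin.cons y z : Fin (N + 2) → ℝ) G : ℝ) =
      T * (((y * aeval z (D1 k N)) ^ 2 - BB r (aeval z (S0 N)) * aeval z (Z1 k N) ^ 2) *
        ∏ l, ((y * aeval z (D1 k N) - al r e b l * aeval z (Z1 k N)) ^ 2 -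
          cc P (aeval z (S0 N)) (uc k z) l * aeval z (Z1 k N) ^ 2)) := by
    intro y z hz
    have hpos := D0_pos hz
    refine ⟨∏ l, (aeval z (D0 N) : ℝ) ^ (2 * d l), Finset.prod_pos fun l _ => by positivity, ?_⟩
    simp only [G, map_mul, map_sub, map_pow, map_prod, hτ, aeval_X, aeval_C, eq_ratCast,
      Fin.cons_zero, QF_val, map_ofNat, hQ _ z hz]
    rw [mul_left_comm, ← Finset.prod_mul_distrib]
    unfold BB cc
    congr 1
    · push_cast
      ring
    · refine Finset.prod_congr rfl fun l _ => ?_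
      push_cast
      ring
  have hG0 : ∀ (y : ℝ) (z : Fin (N + 1) → ℝ), z 0 = 0 →
      (aeval (Fin.cons y z : Fin (N + 2) → ℝ) G : ℝ) = 0 := by
    intro y z hz
    have h1 : (aeval z (D1 k N) : ℝ) = 0 := by
      rw [D1_val, hz]
      simp
    have h2 : (aeval z (Z1 k N) : ℝ) = 0 := by
      rw [Z1_val, hz]
      simp
    have h3 : (aeval (Fin.cons y z : Fin (N + 2) → ℝ) ((X 0 * τ (D1 k N)) ^ 2 -
        C ((3 * r / 4) ^ 2) * QF (τ (S0 N) - 2) * τ (Z1 k N) ^ 2) : ℝ) = 0 := by
      simp only [map_sub, map_mul, map_pow, hτ, h1, h2]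
      simp
    simp only [G]
    rw [map_mul, h3, zero_mul]
  have hneg : ∀ θ : Fin (N + 2) → ℝ, 0 < (aeval θ (-G) : ℝ) ↔ (aeval θ G : ℝ) < 0 := by
    intro θ
    rw [map_neg]
    constructor <;> intro h <;> linarith
  have hcons : ∀ θ : Fin (N + 2) → ℝ,
      θ = (Fin.cons (θ 0) (fun i => θ i.succ) : Fin (N + 2) → ℝ) := by
    intro θ
    funext i
    refine Fin.cases ?_ (fun j => ?_) i
    · rfl
    · rfl
  refine ⟨N + 2, -G, ?_, ?_⟩
  · -- boundedness
    simp only [hneg]
    refine isBounded_iff_forall_norm_le.2 ⟨max 2 (2 * x * (3 * ((N + 1 : ℕ) : ℝ) ^ N)),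
      fun θ hθ => ?_⟩
    rw [Set.mem_ofPred_eq, hcons θ] at hθ
    set y := θ 0 with hy
    set z : Fin (N + 1) → ℝ := fun i => θ i.succ with hz
    have hz0 : z 0 ≠ 0 := by
      intro h0
      rw [hG0 y z h0] at hθ
      exact lt_irrefl _ hθ
    obtain ⟨T, hT, hTG⟩ := hGval y z hz0
    rw [hTG] at hθ
    set D := (aeval z (D1 k N) : ℝ) with hD
    set Z := (aeval z (Z1 k N) : ℝ) with hZ
    set s := (aeval z (S0 N) : ℝ) with hss
    have hD0 : D ≠ 0 := D1_ne hz0
    have hE : ((y * D) ^ 2 - BB r s * Z ^ 2) * ∏ l, ((y * D - al r e b l * Z) ^ 2 -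
        cc P s (uc k z) l * Z ^ 2) < 0 := by
      by_contra hc
      exact absurd (mul_nonneg hT.le (not_lt.1 hc)) (not_le.2 hθ)
    have hcase : (y * D) ^ 2 < BB r s * Z ^ 2 ∨
        ∃ l, (y * D - al r e b l * Z) ^ 2 < cc P s (uc k z) l * Z ^ 2 := by
      by_contra hc
      push Not at hc
      refine absurd (mul_nonneg (sub_nonneg.2 hc.1) (Finset.prod_nonneg fun l _ => ?_))
        (not_le.2 hE)
      exact sub_nonneg.2 (hc.2 l)
    have hmem := uc_mem (k := k) z
    -- the key bounds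
    have hkey : (1 ≤ s ∧ s ≤ 3) ∧ |y * D| ≤ 2 * x * |Z| := by
      rcases hcase with h1 | ⟨l, h1⟩
      · have hB : 0 < BB r s := by
          by_contra hc
          have h2 := mul_nonpos_of_nonpos_of_nonneg (not_lt.1 hc) (sq_nonneg Z)
          nlinarith [sq_nonneg (y * D)]
        have hq : 0 < qf (s - 2) := by
          unfold BB at hB
          by_contra hc
          have h2 := mul_nonpos_of_nonneg_of_nonpos (sq_nonneg (3 * (r : ℝ) / 4)) (not_lt.1 hc)
          linarith
        have h2 := abs_lt.1 (qf_pos hq)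
        refine ⟨⟨by linarith [h2.1], by linarith [h2.2]⟩, ?_⟩
        have h3 : |y * D| ≤ Real.sqrt (BB r s) * |Z| := by
          rw [← Real.sqrt_sq_eq_abs, ← Real.sqrt_sq_eq_abs, ← Real.sqrt_mul hB.le]
          exact Real.sqrt_le_sqrt h1.le
        rw [BB_sqrt hr0] at h3
        have h4 : 3 * (r : ℝ) / 4 * bs s ≤ 2 * x := by
          have := mul_le_mul_of_nonneg_left (bs_le s)
            (show (0 : ℝ) ≤ 3 * (r : ℝ) / 4 by positivity)
          linarith
        exact h3.trans (mul_le_mul_of_nonneg_right h4 (abs_nonneg _))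
      · have hc0 : 0 < cc P s (uc k z) l := by
          by_contra hc
          have h2 := mul_nonpos_of_nonpos_of_nonneg (not_lt.1 hc) (sq_nonneg Z)
          nlinarith [sq_nonneg (y * D - al r e b l * Z)]
        have hq : 0 < qf (10 * (s - 2) - 7) := by
          unfold cc at hc0
          by_contra hc
          have h2 : (aeval (uc k z) (P l) : ℝ) ^ 2 * (225 / 4 * qf (10 * (s - 2) - 7)) ≤ 0 :=
            mul_nonpos_of_nonneg_of_nonpos (sq_nonneg _) (by linarith [not_lt.1 hc])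
          linarith
        have h2 := abs_lt.1 (qf_pos hq)
        refine ⟨⟨by linarith [h2.1], by linarith [h2.2]⟩, ?_⟩
        have h3 : |y * D - al r e b l * Z| ≤ Real.sqrt (cc P s (uc k z) l) * |Z| := by
          rw [← Real.sqrt_sq_eq_abs, ← Real.sqrt_sq_eq_abs, ← Real.sqrt_mul hc0.le]
          exact Real.sqrt_le_sqrt h1.le
        have h4 : |y * D| ≤ (|((al r e b l : ℚ) : ℝ)| + Real.sqrt (cc P s (uc k z) l)) * |Z| := by
          have h5 : y * D = (y * D - al r e b l * Z) + al r e b l * Z := by ring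
          have h6 : |y * D| ≤ |y * D - al r e b l * Z| + |(al r e b l : ℝ) * Z| := by
            nth_rewrite 1 [h5]
            exact abs_add_le _ _
          rw [abs_mul (al r e b l : ℝ)] at h6
          linarith
        have h5 : |((al r e b l : ℚ) : ℝ)| + Real.sqrt (cc P s (uc k z) l) ≤ 2 * x := by
          have h6 : Real.sqrt (cc P s (uc k z) l) ≤ 4 * q l := by
            rw [cc_sqrt]
            have h7 := hs l _ hmem
            have h8 := abs_nonneg (aeval (uc k z) (P l) : ℝ)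
            calc 15 / 2 * |(aeval (uc k z) (P l) : ℝ)| * lb s ≤
                15 / 2 * |(aeval (uc k z) (P l) : ℝ)| * (1 / 2) :=
                  mul_le_mul_of_nonneg_left (lb_le s) (by positivity)
              _ ≤ 4 * q l := by linarith
          have h7 : ((al r e b l : ℚ) : ℝ) = 4 * b l + r * (1 + e l) / 2 := by
            unfold al
            push_cast
            rfl
          have h8 := hb4 l
          have h9 := hb0 l
          have h10 : 0 ≤ (q l : ℝ) := (abs_nonneg _).trans (hs l _ hmem)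
          have h11 : 0 ≤ ((al r e b l : ℚ) : ℝ) := by
            rw [h7]
            rcases he l with h | h <;> rw [h] <;> linarith
          rw [abs_of_nonneg h11, h7]
          rcases he l with h | h <;> rw [h] <;> linarith
        exact h4.trans (mul_le_mul_of_nonneg_right h5 (abs_nonneg _))
    obtain ⟨⟨hs1, hs3⟩, hyD⟩ := hkey
    have hΩ : |Z / D| ≤ 3 * ((N + 1 : ℕ) : ℝ) ^ N := by
      have := wt_bound hz0 hs1 hs3
      rw [hZ, hD, hk]
      exact this
    have hyb : |y| ≤ 2 * x * (3 * ((N + 1 : ℕ) : ℝ) ^ N) := by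
      have h1 : |y| ≤ 2 * x * |Z / D| := by
        rw [abs_mul] at hyD
        rw [abs_div, ← mul_div_assoc, le_div_iff₀ (abs_pos.2 hD0)]
        exact hyD
      exact h1.trans (mul_le_mul_of_nonneg_left hΩ (by positivity))
    rw [pi_norm_le_iff_of_nonneg (le_max_of_le_left (by norm_num))]
    intro i
    rw [Real.norm_eq_abs]
    refine Fin.cases ?_ (fun j => ?_) i
    · exact le_max_of_le_right hyb
    · refine le_max_of_le_left ?_
      have h1 : (z j) ^ 2 ≤ 3 := by
        rw [hss, S0_val] at hs3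
        have h2 : ∀ i : Fin N, 0 ≤ z i.succ ^ 2 := fun i => sq_nonneg _
        refine Fin.cases ?_ (fun j' => ?_) j
        · have := Finset.sum_nonneg fun i (_ : i ∈ Finset.univ) => h2 i
          linarith
        · have := Finset.single_le_sum (fun i _ => h2 i) (Finset.mem_univ j')
          nlinarith [sq_nonneg (z 0)]
      have h2 : |z j| ≤ 2 := by
        by_contra hc
        have h3 := not_le.1 hc
        have h4 := sq_abs (z j)
        nlinarith
      exact h2
  · -- volume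
    have hS : MeasurableSet {u : Fin (N + 2) → ℝ | 0 < (aeval u (-G) : ℝ)} :=
      (isOpen_lt continuous_const (HCell_cont (-G))).measurableSet
    rw [vol_fub' hS]
    have hW0 : ∀ᵐ z : Fin (N + 1) → ℝ, z 0 ≠ 0 ∧ (aeval z (Z1 k N) : ℝ) ≠ 0 := by
      have hne : (X 0 * W0 N : MvPolynomial (Fin (N + 1)) ℚ) ≠ 0 := by
        refine mul_ne_zero (X_ne_zero 0) ?_
        unfold W0
        exact Finset.prod_ne_zero_iff.2 fun i _ => X_ne_zero _
      have h1 := null_rat _ hne
      have h2 : ∀ᵐ z : Fin (N + 1) → ℝ, (aeval z (X 0 * W0 N : MvPolynomial (Fin (N + 1)) ℚ) : ℝ) ≠ 0 := by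
        rw [ae_iff]
        simp only [not_not, ne_eq]
        exact h1
      filter_upwards [h2] with z hz
      rw [map_mul, aeval_X] at hz
      have h3 := left_ne_zero_of_mul hz
      have h4 := right_ne_zero_of_mul hz
      refine ⟨h3, ?_⟩
      rw [Z1_val]
      have h5 : (aeval z (S0 N) : ℝ) ≠ 0 := by
        rw [S0_val]
        have := Finset.sum_nonneg fun (i : Fin N) (_ : i ∈ Finset.univ) => sq_nonneg (z i.succ)
        have h6 : 0 < z 0 ^ 2 := by positivity
        linarith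
      have h6 : (k : ℝ) ^ N ≠ 0 := by positivity
      exact mul_ne_zero (mul_ne_zero (mul_ne_zero h6 h5) h4) (pow_ne_zero _ h3)
    have hfib : ∀ᵐ z : Fin (N + 1) → ℝ,
        volume {y : ℝ | (Fin.cons y z : Fin (N + 2) → ℝ) ∈
          {u : Fin (N + 2) → ℝ | 0 < (aeval u (-G) : ℝ)}} =
        ENNReal.ofReal |(aeval z (Z1 k N) : ℝ) / aeval z (D1 k N)| *
          ENNReal.ofReal (hh P r e (aeval z (S0 N)) (uc k z)) := by
      filter_upwards [hW0] with z hz
      obtain ⟨c1, c2, c3, c4⟩ := hcond (uc k z) (uc_mem z) (aeval z (S0 N))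
      have h1 := disc_scaled (B := BB r (aeval z (S0 N))) (e := fun l => (e l : ℝ))
        (α := fun l => ((al r e b l : ℚ) : ℝ)) (c := cc P (aeval z (S0 N)) (uc k z))
        he c1 c2 c3 c4 hz.2 (D1_ne (k := k) hz.1)
      rw [hh, ← h1]
      congr 1
      ext y
      rw [Set.mem_ofPred_eq, Set.mem_ofPred_eq, hneg]
      obtain ⟨T, hT, hTG⟩ := hGval y z hz.1
      rw [hTG]
      constructor
      · intro h2
        by_contra h3
        exact absurd (mul_nonneg hT.le (not_lt.1 h3)) (not_le.2 h2)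
      · intro h2
        exact mul_neg_of_pos_of_neg hT h2
    rw [lintegral_congr_ae hfib]
    have hhc := hh_cont (P := P) (e := e) hr0
    have hFm : Measurable fun z : Fin (N + 1) → ℝ =>
        ENNReal.ofReal |(aeval z (Z1 k N) : ℝ) / aeval z (D1 k N)| *
          ENNReal.ofReal (hh P r e (aeval z (S0 N)) (uc k z)) := by
      exact (wt_meas k).mul (hz_meas hr0 k)
    rw [cone hFm]
    have hin : ∀ w : Fin N → ℝ, ∫⁻ a : ℝ, ENNReal.ofReal (|a| ^ N) *
        (ENNReal.ofReal |(aeval (Fin.cons a fun i => a * w i : Fin (N + 1) → ℝ) (Z1 k N) : ℝ) /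
          aeval (Fin.cons a fun i => a * w i : Fin (N + 1) → ℝ) (D1 k N)| *
          ENNReal.ofReal (hh P r e
            (aeval (Fin.cons a fun i => a * w i : Fin (N + 1) → ℝ) (S0 N))
            (uc k (Fin.cons a fun i => a * w i : Fin (N + 1) → ℝ)))) =
        (∏ i, ENNReal.ofReal (rk k (w i))) *
          ∫⁻ s in Set.Ioi (0 : ℝ), ENNReal.ofReal (hh P r e s fun i => fk k (w i)) := by
      intro w
      rw [← sq_one (sg_pos w) fun s => ENNReal.ofReal (hh P r e s fun i => fk k (w i)),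
        ← lintegral_const_mul' _ _ (by
          rw [← ENNReal.ofReal_prod_of_nonneg fun i _ => rk_nonneg k (w i)]
          exact ENNReal.ofReal_ne_top)]
      refine lintegral_congr_ae ?_
      have h3 : ({0}ᶜ : Set ℝ) ∈ ae (volume : Measure ℝ) :=
        compl_mem_ae_iff.2 (measure_singleton 0)
      filter_upwards [h3] with a ha
      have ha0 : a ≠ 0 := ha
      rw [S0_cone, uc_cone ha0, ← mul_assoc, ← ENNReal.ofReal_mul (by positivity), wt_id ha0,
        ENNReal.ofReal_mul (Finset.prod_nonneg fun i _ => rk_nonneg k (w i)),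
        ENNReal.ofReal_prod_of_nonneg fun i _ => rk_nonneg k (w i), mul_assoc]
    simp only [hin]
    have hHm : Measurable fun u : Fin N → ℝ =>
        ∫⁻ s in Set.Ioi (0 : ℝ), ENNReal.ofReal (hh P r e s u) := by
      have h1 : Measurable fun p : (Fin N → ℝ) × ℝ => ENNReal.ofReal (hh P r e p.2 p.1) :=
        (hhc.comp (continuous_snd.prodMk continuous_fst)).measurable.ennreal_ofReal
      exact h1.lintegral_prod_right'
    rw [fk_all hk0 N (fun u => ∫⁻ s in Set.Ioi (0 : ℝ), ENNReal.ofReal (hh P r e s u)) hHm]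
    have hval : ∀ u ∈ ucube (Fin N), ∫⁻ s in Set.Ioi (0 : ℝ), ENNReal.ofReal (hh P r e s u) =
        ENNReal.ofReal (r + ∑ l, (e l : ℝ) * |(aeval u (P l) : ℝ)|) ∧
        0 ≤ (r + ∑ l, (e l : ℝ) * |(aeval u (P l) : ℝ)| : ℝ) := by
      intro u hu
      have hnn : ∀ s, 0 ≤ hh P r e s u := by
        intro s
        obtain ⟨c1, c2, c3, c4⟩ := hcond u hu s
        exact (disc_vol (B := BB r s) (e := fun l => (e l : ℝ))
          (α := fun l => ((al r e b l : ℚ) : ℝ)) (c := cc P s u) he c1 c2 c3 c4).1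
      rw [← ofReal_integral_eq_lintegral_ofReal (hh_int hr0 u).integrableOn
        (Filter.Eventually.of_forall hnn), ← hh_val hr0 u]
      refine ⟨?_, integral_nonneg hnn⟩
      congr 1
      refine setIntegral_eq_integral_of_forall_compl_eq_zero fun s hs' => ?_
      refine hh_out hr0 ?_ u
      have : s ≤ 0 := not_lt.1 hs'
      linarith
    rw [setLIntegral_congr_fun (ucube_meas _) fun u hu => (hval u hu).1]
    rw [← ofReal_integral_eq_lintegral_ofReal]
    · congr 1
      rw [integral_add, integral_finsetSum]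
      · rw [setIntegral_const, ucube_one, one_smul]
        simp only [integral_const_mul]
        exact hx.symm
      · intro l _
        exact (abs_int _).const_mul _
      · exact integrableOn_const (ucube_compact _).measure_lt_top.ne
      · exact integrable_finsetSum _ fun l _ => (abs_int _).const_mul _
    · have hgc : Continuous fun u : Fin N → ℝ => r + ∑ l, (e l : ℝ) * |(aeval u (P l) : ℝ)| := by
        refine continuous_const.add (continuous_finsetSum _ fun l _ => ?_)
        exact continuous_const.mul (HCell_cont (P l)).abs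
      exact hgc.continuousOn.integrableOn_compact (ucube_compact _)
    · rw [Filter.EventuallyLE, ae_restrict_iff' (ucube_meas _)]
      exact Filter.Eventually.of_forall fun u hu => (hval u hu).2

end Pool.Agent.OneIneq
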