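import Pool.Agent.W_2cf66e_h3.LogStep
import Pool.Agent.W_2cf66e_h65.HSub
import Pool.Agent.W_2cf66e_h65.BLog
import Pool.Agent.W_2cf66e_h65.HNull

/-!
# MP_2cf66e_nt, one inequality: cells (helper3)
-/

set_option autoImplicit false

noncomputable section

open MeasureTheory MvPolynomial

namespace Pool.Agent.OneIneq

open Pool.Agent.CVol

/-- The cell attached to finitely many polynomials and a denominator, with its polynomial. -/
theorem exists_cell' {n m : ℕ} (p : Fin m → MvPolynomial (Fin n) ℚ)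
    (r q : MvPolynomial (Fin n) ℚ) :
    ∃ (F f : MvPolynomial (Fin n) ℚ) (c : ℚ), F = C c * (q ^ 2 * (∏ k, p k) * den n) ∧
      IsCell {y : Fin n → ℝ | y ∈ ocube n ∧ (∀ k, 0 < aeval y (p k)) ∧ aeval y q ≠ 0} F ∧
      ∀ y ∈ {y : Fin n → ℝ | y ∈ ocube n ∧ (∀ k, 0 < aeval y (p k)) ∧ aeval y q ≠ 0},
        aeval y r / aeval y q = aeval y f / aeval y F := by
  obtain ⟨H, hH⟩ : ∃ H : MvPolynomial (Fin n) ℚ, H = q ^ 2 * (∏ k, p k) * den n := ⟨_, rfl⟩
  obtain ⟨M, hM, hMb⟩ := exists_bound H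
  have hMr : (0 : ℝ) < M := by exact_mod_cast hM
  have hHe : ∀ y : Fin n → ℝ, aeval y H =
      (aeval y q) ^ 2 * (∏ k, aeval y (p k)) * aeval y (den n) := by
    intro y
    rw [hH]
    simp only [map_mul, map_pow, map_prod]
  have hFe : ∀ y : Fin n → ℝ, aeval y (C (1 / M) * H) = 1 / (M : ℝ) * aeval y H := by
    intro y
    rw [map_mul, aeval_C]
    congr 1
    simp
  have hsub : ∀ y ∈ ocube n, y ∈ box (Fin n) := by
    intro y hy
    rw [box_eq]
    intro i
    have h1 := abs_lt.1 (hy i)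
    exact ⟨h1.1.le, h1.2.le⟩
  have hpos : ∀ y ∈ {y : Fin n → ℝ | y ∈ ocube n ∧ (∀ k, 0 < aeval y (p k)) ∧ aeval y q ≠ 0},
      0 < aeval y H := by
    intro y hy
    rw [hHe]
    have h1 : 0 < (aeval y q) ^ 2 := by
      have := hy.2.2
      positivity
    have h2 : 0 < ∏ k, aeval y (p k) := Finset.prod_pos fun k _ => hy.2.1 k
    have h3 := den_pos hy.1
    positivity
  have hU : {y : Fin n → ℝ | y ∈ ocube n ∧ (∀ k, 0 < aeval y (p k)) ∧ aeval y q ≠ 0} =
      {y : Fin n → ℝ | ∀ i, |y i| < 1} ∩ ((⋂ k, {y : Fin n → ℝ | 0 < aeval y (p k)}) ∩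
        {y : Fin n → ℝ | aeval y q ≠ 0}) := by
    ext y
    simp only [Set.mem_ofPred_eq, Set.mem_inter_iff, Set.mem_iInter, ocube]
  have hopen : IsOpen {y : Fin n → ℝ | y ∈ ocube n ∧ (∀ k, 0 < aeval y (p k)) ∧
      aeval y q ≠ 0} := by
    rw [hU]
    refine IsOpen.inter ?_ (IsOpen.inter ?_ ?_)
    · have h1 : {y : Fin n → ℝ | ∀ i, |y i| < 1} = ⋂ i, {y : Fin n → ℝ | |y i| < 1} := by
        ext y
        simp only [Set.mem_ofPred_eq, Set.mem_iInter]
      rw [h1]
      exact isOpen_iInter_of_finite fun i =>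
        isOpen_lt ((continuous_apply i).abs) continuous_const
    · exact isOpen_iInter_of_finite fun k => isOpen_lt continuous_const (HCell_cont (p k))
    · exact isOpen_ne_fun (HCell_cont q) continuous_const
  refine ⟨C (1 / M) * H, C (1 / M) * (r * q * (∏ k, p k) * den n), 1 / M, by rw [hH], ⟨hopen, ?_, ?_, ?_, ?_, ?_⟩, ?_⟩
  · intro y hy
    exact hsub y hy.1
  · rw [hU]
    exact IsSA.obox.inter ((IsSA.iInter _ fun k => IsSA.pos (p k)).inter (IsSA.ne_zero q))
  · intro y hy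
    rw [hFe]
    have := hpos y hy
    positivity
  · intro y hy
    rw [hFe, one_div, ← div_eq_inv_mul, div_le_one hMr]
    exact (le_abs_self _).trans (hMb y (hsub y hy.1))
  · intro x hx
    rw [hopen.frontier_eq] at hx
    obtain ⟨hx1, hx2⟩ := hx
    by_contra hne
    apply hx2
    rw [hFe] at hne
    have hH0 : aeval x H ≠ 0 := fun h => hne (by rw [h, mul_zero])
    rw [hHe] at hH0
    have hd0 : aeval x (den n) ≠ 0 := right_ne_zero_of_mul hH0
    have hqp := left_ne_zero_of_mul hH0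
    have hp0 : ∏ k, aeval x (p k) ≠ 0 := right_ne_zero_of_mul hqp
    have hq0 : aeval x q ≠ 0 := fun h => left_ne_zero_of_mul hqp (by rw [h]; ring)
    rw [HCell_den] at hd0
    refine ⟨?_, ?_, hq0⟩
    · intro i
      have h1 : |x i| ≤ 1 := by
        have h2 : IsClosed {y : Fin n → ℝ | |y i| ≤ 1} :=
          isClosed_le ((continuous_apply i).abs) continuous_const
        exact closure_minimal (fun y hy => (hy.1 i).le) h2 hx1
      refine lt_of_le_of_ne h1 fun h2 => ?_
      have h3 : 1 - (x i) ^ 2 ≠ 0 := Finset.prod_ne_zero_iff.1 hd0 i (Finset.mem_univ i)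
      apply h3
      rw [← sq_abs, h2]
      norm_num
    · intro k
      have h1 : 0 ≤ aeval x (p k) := by
        have h2 : IsClosed {y : Fin n → ℝ | 0 ≤ aeval y (p k)} :=
          isClosed_le continuous_const (HCell_cont (p k))
        exact closure_minimal (fun y hy => (hy.2.1 k).le) h2 hx1
      exact lt_of_le_of_ne h1 (Finset.prod_ne_zero_iff.1 hp0 k (Finset.mem_univ k)).symm
  · intro y hy
    rw [hFe, hHe, map_mul, aeval_C]
    simp only [map_mul, map_prod]
    have h1 : aeval y q ≠ 0 := hy.2.2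
    have h2 : ∏ k, aeval y (p k) ≠ 0 := (Finset.prod_pos fun k _ => hy.2.1 k).ne'
    have h3 : aeval y (den n) ≠ 0 := (den_pos hy.1).ne'
    have h4 : (algebraMap ℚ ℝ) (1 / M) = 1 / (M : ℝ) := by simp
    rw [h4]
    field_simp


/-- The cell function. -/
theorem cell_abs {n m : ℕ} (p : Fin m → MvPolynomial (Fin n) ℚ) (q h : MvPolynomial (Fin n) ℚ)
    (c : ℚ) (e : ℕ) :
    AbsF (box (Fin n)) (Set.indicator
      {y : Fin n → ℝ | y ∈ ocube n ∧ (∀ k, 0 < aeval y (p k)) ∧ aeval y q ≠ 0}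
      (fun y => (aeval y h : ℝ) * (aeval y (C c * (q ^ 2 * (∏ k, p k) * den n))) ^ (e + 1))) := by
  have h1 := AbsF.poly (box_bound (Fin n))
    (h * C (c ^ (e + 1)) * q ^ (2 * (e + 1)) * den n ^ (e + 1) * ∏ k, p k ^ e)
  have h2 := AbsF.prod (box_bound (Fin n)) Finset.univ
    (fun k y => max 0 (aeval y (p k) : ℝ)) fun k _ => AbsF.pos (box_bound (Fin n)) (p k)
  refine (h1.mul h2).congr fun z hz => ?_
  by_cases hU : z ∈ {y : Fin n → ℝ | y ∈ ocube n ∧ (∀ k, 0 < (aeval y (p k) : ℝ)) ∧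
      (aeval y q : ℝ) ≠ 0}
  · rw [Set.indicator_of_mem hU]
    have h3 : ∏ k, max 0 (aeval z (p k) : ℝ) = ∏ k, (aeval z (p k) : ℝ) :=
      Finset.prod_congr rfl fun k _ => max_eq_right (hU.2.1 k).le
    rw [h3]
    simp only [map_mul, map_pow, map_prod, aeval_C, eq_ratCast, Finset.prod_pow]
    push_cast
    ring
  · rw [Set.indicator_of_notMem hU]
    symm
    simp only [map_mul, map_pow, map_prod, HCell_den]
    rw [Set.mem_ofPred_eq, not_and_or, not_and_or] at hU
    rcases hU with h3 | h3 | h3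
    · have h4 : ∏ i, (1 - (z i) ^ 2) = 0 := by
        rw [ocube, Set.mem_ofPred_eq] at h3
        push Not at h3
        obtain ⟨i, hi⟩ := h3
        rw [box_eq, Set.mem_ofPred_eq] at hz
        have h5 := abs_le.2 (hz i)
        have h6 : |z i| = 1 := le_antisymm h5 hi
        refine Finset.prod_eq_zero (Finset.mem_univ i) ?_
        rw [← sq_abs, h6]
        norm_num
      rw [h4]
      ring
    · push Not at h3
      obtain ⟨k, hk⟩ := h3
      have h4 : ∏ k, max 0 (aeval z (p k) : ℝ) = 0 :=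
        Finset.prod_eq_zero (Finset.mem_univ k) (max_eq_left hk)
      rw [h4]
      ring
    · rw [not_not] at h3
      rw [h3]
      ring

theorem sub_val {n : ℕ} (F : MvPolynomial (Fin n) ℚ) (u : Fin n → ℝ) :
    (aeval u (bind₁ (fun i => 2 * X i - 1) F) : ℝ) = aeval (fun i => 2 * u i - 1) F := by
  rw [aeval_bind₁]
  simp only [map_sub, map_mul, aeval_X, map_one, map_ofNat]

/-- A cell integral is a combination of `L^1` norms of polynomials. -/
theorem cell_av {n m : ℕ} (p : Fin m → MvPolynomial (Fin n) ℚ) (r q : MvPolynomial (Fin n) ℚ)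
    (hint : IntegrableOn (fun y : Fin n → ℝ => (aeval y r : ℝ) / aeval y q)
      {y : Fin n → ℝ | y ∈ ocube n ∧ (∀ k, 0 < (aeval y (p k) : ℝ)) ∧ (aeval y q : ℝ) ≠ 0}) :
    AV (∫ y in {y : Fin n → ℝ | y ∈ ocube n ∧ (∀ k, 0 < (aeval y (p k) : ℝ)) ∧
      (aeval y q : ℝ) ≠ 0}, (aeval y r : ℝ) / aeval y q) := by
  obtain ⟨F, f, c, hFc, hcell, hfF⟩ := exists_cell' p r q
  set U := {y : Fin n → ℝ | y ∈ ocube n ∧ (∀ k, 0 < (aeval y (p k) : ℝ)) ∧
      (aeval y q : ℝ) ≠ 0} with hU
  have hUm : MeasurableSet U := hcell.isOpen.measurableSet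
  rw [setIntegral_congr_fun hUm hfF]
  obtain ⟨μ, hμ⟩ := cell_log hcell f (hint.congr_fun hfF hUm)
  obtain ⟨h, hh⟩ := hμ (4 * μ + 2) (by omega)
  rw [hh]
  refine AV.sum _ _ fun i hi => ?_
  have hi' : i ≤ μ := Nat.lt_succ_iff.1 (Finset.mem_range.1 hi)
  obtain ⟨e, he⟩ : ∃ e, 4 * μ + 2 = 4 * i + (e + 1) := ⟨4 * μ + 1 - 4 * i, by omega⟩
  have h1 : ∫ x in U, (aeval x (h i) : ℝ) * (aeval x F) ^ (4 * μ + 2) *
      (Real.log (aeval x F)) ^ i = ∫ y in box (Fin n), (U.indicator
        (fun y => (aeval y (h i) : ℝ) * (aeval y F) ^ (e + 1)) y) * fl (aeval y F) ^ i := by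
    have h2 : ∀ y : Fin n → ℝ, (U.indicator
        (fun y => (aeval y (h i) : ℝ) * (aeval y F) ^ (e + 1)) y) * fl (aeval y F) ^ i =
        U.indicator (fun x => (aeval x (h i) : ℝ) * (aeval x F) ^ (4 * μ + 2) *
          (Real.log (aeval x F)) ^ i) y := by
      intro y
      by_cases hy : y ∈ U
      · rw [Set.indicator_of_mem hy, Set.indicator_of_mem hy, he]
        unfold fl
        rw [mul_pow, ← pow_mul, pow_add]
        ring
      · rw [Set.indicator_of_notMem hy, Set.indicator_of_notMem hy, zero_mul]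
    simp only [h2]
    rw [setIntegral_indicator hUm, Set.inter_eq_self_of_subset_right hcell.sub]
  rw [h1, box_ucube, ← integral_const_mul]
  have hFm : Measurable fun z : Fin n → ℝ => (aeval z F : ℝ) := (HCell_cont F).measurable
  have hsubm : Measurable fun (u : Fin n → ℝ) (i : Fin n) => 2 * u i - 1 := by
    fun_prop
  have h3 := log_pow i n (fun u => (2 : ℝ) ^ n * (U.indicator
    (fun y => (aeval y (h i) : ℝ) * (aeval y F) ^ (e + 1)) (fun i => 2 * u i - 1)))
    (bind₁ (fun i => 2 * X i - 1) F) ?_ ?_ ?_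
  · simp only [sub_val] at h3
    have h4 : ∀ u : Fin n → ℝ, (2 : ℝ) ^ n * ((U.indicator
        (fun y => (aeval y (h i) : ℝ) * (aeval y F) ^ (e + 1)) (fun i => 2 * u i - 1)) *
          fl (aeval (fun i => 2 * u i - 1) F) ^ i) = (2 : ℝ) ^ n * (U.indicator
        (fun y => (aeval y (h i) : ℝ) * (aeval y F) ^ (e + 1)) (fun i => 2 * u i - 1)) *
          fl (aeval (fun i => 2 * u i - 1) F) ^ i := fun u => by ring
    simp only [h4]
    exact h3
  · have h5 : Measurable (U.indicator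
        (fun y => (aeval y (h i) : ℝ) * (aeval y F) ^ (e + 1))) :=
      ((HCell_cont (h i)).measurable.mul (hFm.pow_const _)).indicator hUm
    exact (h5.comp hsubm).const_mul _
  · have h5 := cell_abs p q (h i) c e
    rw [← hFc] at h5
    have h6 := (box_to_ucube h5).smul ((2 : ℚ) ^ n)
    refine h6.congr fun z _ => ?_
    push_cast
    rfl
  · intro z _ hz
    rw [sub_val]
    have h5 : (fun i => 2 * z i - 1) ∈ U := by
      by_contra h6
      apply hz
      rw [Set.indicator_of_notMem h6, mul_zero]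
    exact ⟨hcell.pos _ h5, hcell.le_one _ h5⟩

end Pool.Agent.OneIneq
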