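import Pool.Agent.W_2cf66e_h3.Bdd

/-!
# MP_2cf66e_nt, one inequality: counting lattice points (helper3)
-/

set_option autoImplicit false

noncomputable section

open MeasureTheory MvPolynomial Filter
open scoped ENNReal Topology

namespace Pool.Agent.OneIneq

open Pool.Agent.CVol

/-- Integer coefficients. -/
theorem clear {ι : Type} (f : MvPolynomial ι ℚ) :
    ∃ (d : ℕ) (g : MvPolynomial ι ℤ), 0 < d ∧ ∀ u : ι → ℝ,
      (aeval u g : ℝ) = d * aeval u f := by
  induction f using MvPolynomial.induction_on with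
  | C a =>
    refine ⟨a.den, C a.num, a.den_pos, fun u => ?_⟩
    rw [aeval_C, aeval_C, eq_ratCast, eq_intCast]
    have h := a.den_pos
    have h1 : (a.den : ℝ) * (a : ℝ) = (a.num : ℝ) := by
      have h2 := Rat.mul_den_eq_num a
      have h3 : ((a * a.den : ℚ) : ℝ) = ((a.num : ℚ) : ℝ) := by rw [h2]
      push_cast at h3
      linarith
    exact h1.symm
  | add p q hp hq =>
    obtain ⟨d1, g1, h1, k1⟩ := hp
    obtain ⟨d2, g2, h2, k2⟩ := hq
    refine ⟨d1 * d2, g1 * C (d2 : ℤ) + g2 * C (d1 : ℤ), Nat.mul_pos h1 h2, fun u => ?_⟩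
    rw [map_add, map_mul, map_mul, k1 u, k2 u, aeval_C, aeval_C, map_add]
    push_cast
    ring
  | mul_X p i hp =>
    obtain ⟨d, g, h1, k1⟩ := hp
    refine ⟨d, g * X i, h1, fun u => ?_⟩
    rw [map_mul, k1 u, aeval_X, map_mul, aeval_X, mul_assoc]

/-- Integer polynomials as rational polynomials. -/
theorem toRat {ι : Type} (f : MvPolynomial ι ℤ) (u : ι → ℝ) :
    (aeval u (map (Int.castRingHom ℚ) f) : ℝ) = aeval u f := by
  have h : (Int.castRingHom ℚ) = algebraMap ℤ ℚ := rfl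
  rw [h, aeval_map_algebraMap]

/-- Homogenization. -/
theorem homog {n : ℕ} (f : MvPolynomial (Fin n) ℤ) :
    ∃ (d : ℕ) (F : MvPolynomial (Fin (n + 1)) ℤ), F.IsHomogeneous d ∧
      ∀ (t : ℝ) (u : Fin n → ℝ),
        (aeval (Fin.cons t fun i => t * u i : Fin (n + 1) → ℝ) F : ℝ) = t ^ d * aeval u f := by
  induction f using MvPolynomial.induction_on with
  | C a =>
    refine ⟨0, C a, isHomogeneous_C _ _, fun t u => ?_⟩
    rw [aeval_C, aeval_C, pow_zero, one_mul]
  | add p q hp hq =>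
    obtain ⟨d1, F1, h1, k1⟩ := hp
    obtain ⟨d2, F2, h2, k2⟩ := hq
    refine ⟨d1 + d2, F1 * X 0 ^ d2 + F2 * X 0 ^ d1, ?_, fun t u => ?_⟩
    · refine IsHomogeneous.add ?_ ?_
      · exact h1.mul (isHomogeneous_X_pow 0 d2)
      · rw [add_comm d1 d2]
        exact h2.mul (isHomogeneous_X_pow 0 d1)
    · rw [map_add, map_mul, map_mul, k1, k2, map_pow, map_pow, aeval_X, Fin.cons_zero, map_add]
      ring
  | mul_X p i hp =>
    obtain ⟨d, F, h, k⟩ := hp
    refine ⟨d + 1, F * X i.succ, h.mul (isHomogeneous_X _ _), fun t u => ?_⟩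
    rw [map_mul, k, aeval_X, Fin.cons_succ, map_mul, aeval_X]
    ring

/-- Values of homogeneous polynomials. -/
theorem homog_smul {σ : Type} [Fintype σ] {F : MvPolynomial σ ℤ} {d : ℕ} (hF : F.IsHomogeneous d)
    (t : ℝ) (v : σ → ℝ) : (aeval (fun i => t * v i) F : ℝ) = t ^ d * aeval v F := by
  classical
  rw [aeval_def, aeval_def, eval₂_eq', eval₂_eq', Finset.mul_sum]
  refine Finset.sum_congr rfl fun m hm => ?_
  have h1 : ∑ i, m i = d := by
    have h2 := hF.degree_eq_sum_deg_support hm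
    rw [h2]
    refine (Finset.sum_subset (Finset.subset_univ _) fun i _ hi => ?_).symm
    exact Finsupp.notMem_support_iff.1 hi
  have h3 : ∏ i, (t * v i) ^ m i = t ^ d * ∏ i, v i ^ m i := by
    rw [← h1, ← Finset.prod_pow_eq_pow_sum, ← Finset.prod_mul_distrib]
    exact Finset.prod_congr rfl fun i _ => mul_pow _ _ _
  rw [h3]
  ring

end Pool.Agent.OneIneq
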