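import Mathlib

/-!
# MP_2cf66e_nt, one inequality: lattice points with error term (helper3)
-/

set_option autoImplicit false

noncomputable section

open MeasureTheory

namespace Pool.Agent.OneIneq

/-- The indicator function of the positive set. -/
def ps (x : ℝ) : ℝ := if 0 < x then 1 else 0

theorem ps_nonneg (x : ℝ) : 0 ≤ ps x := by
  unfold ps
  split_ifs <;> norm_num

theorem ps_le (x : ℝ) : ps x ≤ 1 := by
  unfold ps
  split_ifs <;> norm_num

theorem ps_meas : Measurable ps :=
  Measurable.ite measurableSet_Ioi measurable_const measurable_const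

theorem ps_int {α : Type*} [MeasurableSpace α] {μ : Measure α} {s : Set α} (hs : μ s ≠ ⊤)
    {g : α → ℝ} (hg : Measurable g) : IntegrableOn (fun x => ps (g x)) s μ := by
  refine Measure.integrableOn_of_bounded hs (ps_meas.comp hg).aestronglyMeasurable (M := 1) ?_
  refine Filter.Eventually.of_forall fun x => ?_
  rw [Real.norm_of_nonneg (ps_nonneg _)]
  exact ps_le _

/-- Constant sign between roots. -/
theorem const_sign {p : Polynomial ℝ} {x y : ℝ}
    (h : ∀ t ∈ Set.Icc x y, p.eval t ≠ 0) : ∀ t ∈ Set.Icc x y, ps (p.eval t) = ps (p.eval x) := by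
  intro t ht
  have hc : ContinuousOn (fun t => p.eval t) (Set.Icc x t) := p.continuous.continuousOn
  have hsub : Set.Icc x t ⊆ Set.Icc x y := Set.Icc_subset_Icc_right ht.2
  have hx : p.eval x ≠ 0 := h x ⟨le_refl _, ht.1.trans ht.2⟩
  have ht0 : p.eval t ≠ 0 := h t ht
  unfold ps
  rcases lt_or_gt_of_ne hx with h1 | h1
  · rcases lt_or_gt_of_ne ht0 with h2 | h2
    · rw [if_neg (not_lt.2 h1.le), if_neg (not_lt.2 h2.le)]
    · exfalso
      obtain ⟨s, hs, hs0⟩ := intermediate_value_Icc ht.1 hc ⟨h1.le, h2.le⟩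
      exact h s (hsub hs) hs0
  · rcases lt_or_gt_of_ne ht0 with h2 | h2
    · exfalso
      obtain ⟨s, hs, hs0⟩ := intermediate_value_Icc' ht.1 hc ⟨h2.le, h1.le⟩
      exact h s (hsub hs) hs0
    · rw [if_pos h1, if_pos h2]

/-- One variable. -/
theorem dav_one {D : ℕ} {p : Polynomial ℝ} (hp : p.natDegree ≤ D) (C : ℕ) {T : ℕ} (hT : 0 < T) :
    |∑ a ∈ Finset.Icc (-(C * T : ℤ)) (C * T), ps (p.eval ((a : ℝ) / T)) -
      T * ∫ t in Set.Icc (-(C : ℝ)) C, ps (p.eval t)| ≤ 2 * D + 1 := by
  have hT' : (0 : ℝ) < T := by exact_mod_cast hT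
  by_cases hp0 : p = 0
  · have h1 : ∀ t : ℝ, ps (p.eval t) = 0 := by
      intro t
      rw [hp0]
      simp [ps]
    simp only [h1]
    simp
    positivity
  -- the points
  let x : ℕ → ℝ := fun k => ((k : ℝ) - C * T) / T
  have hx0 : x 0 = -C := by
    simp only [x]
    field_simp
    simp
  have hxn : x (2 * C * T) = C := by
    simp only [x]
    push_cast
    field_simp
    ring
  have hxs : ∀ k, x (k + 1) = x k + 1 / T := by
    intro k
    simp only [x]
    push_cast
    field_simp
    ring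
  have hxle : ∀ k, x k ≤ x (k + 1) := by
    intro k
    rw [hxs]
    have : 0 < 1 / (T : ℝ) := by positivity
    linarith
  have hii : ∀ a b : ℝ, IntervalIntegrable (fun t => ps (p.eval t)) volume a b := by
    intro a b
    rw [intervalIntegrable_iff]
    exact ps_int (by simp [Set.uIoc]) p.continuous.measurable
  -- the sum of the values
  have hsum : ∑ a ∈ Finset.Icc (-(C * T : ℤ)) (C * T), ps (p.eval ((a : ℝ) / T)) =
      ∑ k ∈ Finset.range (2 * C * T + 1), ps (p.eval (x k)) := by
    symm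
    refine Finset.sum_bij' (fun k _ => (k : ℤ) - C * T) (fun a _ => (a + C * T).toNat) ?_ ?_ ?_ ?_ ?_
    · intro k hk
      rw [Finset.mem_range] at hk
      rw [Finset.mem_Icc]
      constructor
      · have := Int.natCast_nonneg k
        linarith
      · have : (k : ℤ) ≤ 2 * C * T := by exact_mod_cast Nat.lt_succ_iff.1 hk
        linarith
    · intro a ha
      rw [Finset.mem_Icc] at ha
      rw [Finset.mem_range, Nat.lt_succ_iff, Int.toNat_le]
      push_cast
      linarith
    · intro k _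
      simp
    · intro a ha
      rw [Finset.mem_Icc] at ha
      beta_reduce
      rw [Int.toNat_of_nonneg (by linarith)]
      ring
    · intro k _
      simp only [x]
      push_cast
      rfl
  have hint : ∫ t in Set.Icc (-(C : ℝ)) C, ps (p.eval t) =
      ∑ k ∈ Finset.range (2 * C * T), ∫ t in (x k)..(x (k + 1)), ps (p.eval t) := by
    rw [intervalIntegral.sum_integral_adjacent_intervals fun k _ => hii _ _, hx0, hxn,
      integral_Icc_eq_integral_Ioc, intervalIntegral.integral_of_le]
    have : (0 : ℝ) ≤ C := Nat.cast_nonneg C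
    linarith
  rw [hsum, hint, Finset.sum_range_succ, Finset.mul_sum]
  -- each cell
  have hcell : ∀ k, |ps (p.eval (x k)) - T * ∫ t in (x k)..(x (k + 1)), ps (p.eval t)| ≤ 1 := by
    intro k
    have h1 : 0 ≤ ∫ t in (x k)..(x (k + 1)), ps (p.eval t) :=
      intervalIntegral.integral_nonneg (hxle k) fun t _ => ps_nonneg _
    have h2 : ∫ t in (x k)..(x (k + 1)), ps (p.eval t) ≤ ∫ _t in (x k)..(x (k + 1)), (1 : ℝ) :=
      intervalIntegral.integral_mono_on (hxle k) (hii _ _) (by simp) fun t _ => ps_le _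
    rw [intervalIntegral.integral_const, smul_eq_mul, mul_one, hxs, add_sub_cancel_left] at h2
    have h3 : (T : ℝ) * (1 / T) = 1 := by field_simp
    have h4 : (T : ℝ) * ∫ t in (x k)..(x k + 1 / T), ps (p.eval t) ≤ 1 :=
      (mul_le_mul_of_nonneg_left h2 hT'.le).trans_eq h3
    rw [hxs] at h1 ⊢
    have h5 := mul_nonneg hT'.le h1
    have h6 := ps_nonneg (p.eval (x k))
    have h7 := ps_le (p.eval (x k))
    rw [abs_le]
    constructor <;> linarith
  have hgood : ∀ k, (∀ t ∈ Set.Icc (x k) (x (k + 1)), p.eval t ≠ 0) →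
      |ps (p.eval (x k)) - T * ∫ t in (x k)..(x (k + 1)), ps (p.eval t)| = 0 := by
    intro k hk
    have h1 : ∫ t in (x k)..(x (k + 1)), ps (p.eval t) =
        ∫ _t in (x k)..(x (k + 1)), ps (p.eval (x k)) := by
      refine intervalIntegral.integral_congr fun t ht => ?_
      rw [Set.uIcc_of_le (hxle k)] at ht
      exact const_sign hk t ht
    rw [h1, intervalIntegral.integral_const, hxs, add_sub_cancel_left, smul_eq_mul, ← mul_assoc]
    have h3 : (T : ℝ) * (1 / T) = 1 := by field_simp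
    rw [h3, one_mul, sub_self, abs_zero]
  classical
  -- bad cells
  let bad : Finset ℕ := (Finset.range (2 * C * T)).filter fun k =>
    ∃ t ∈ Set.Icc (x k) (x (k + 1)), p.eval t = 0
  have hbad : bad.card ≤ 2 * D := by
    have h1 : bad ⊆ p.roots.toFinset.biUnion fun r =>
        {(⌊(r * T + C * T : ℝ)⌋).toNat, (⌊(r * T + C * T : ℝ)⌋).toNat - 1} := by
      intro k hk
      obtain ⟨_, t, ht, ht0⟩ := Finset.mem_filter.1 hk
      rw [Finset.mem_biUnion]
      refine ⟨t, ?_, ?_⟩
      · rw [Multiset.mem_toFinset, Polynomial.mem_roots hp0]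
        exact ht0
      · have h2 : (k : ℝ) ≤ t * T + C * T := by
          have := ht.1
          simp only [x] at this
          rw [div_le_iff₀ hT'] at this
          linarith
        have h3 : t * T + C * T ≤ (k : ℝ) + 1 := by
          have := ht.2
          simp only [x] at this
          rw [le_div_iff₀ hT'] at this
          push_cast at this
          linarith
        have h4 : (k : ℤ) ≤ ⌊(t * T + C * T : ℝ)⌋ := Int.le_floor.2 (by exact_mod_cast h2)
        have h5 : ⌊(t * T + C * T : ℝ)⌋ ≤ (k : ℤ) + 1 := by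
          have := (Int.floor_le (t * T + C * T : ℝ)).trans h3
          exact_mod_cast this
        rw [Finset.mem_insert, Finset.mem_singleton]
        omega
    have h2 : ∀ r ∈ p.roots.toFinset, ({(⌊(r * T + C * T : ℝ)⌋).toNat,
        (⌊(r * T + C * T : ℝ)⌋).toNat - 1} : Finset ℕ).card ≤ 2 := fun r _ => Finset.card_le_two
    have h3 := Finset.card_biUnion_le_card_mul _ _ 2 h2
    have h4 : p.roots.toFinset.card ≤ D :=
      (Multiset.toFinset_card_le _).trans ((Polynomial.card_roots' p).trans hp)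
    calc bad.card ≤ _ := Finset.card_le_card h1
      _ ≤ p.roots.toFinset.card * 2 := h3
      _ ≤ D * 2 := Nat.mul_le_mul_right 2 h4
      _ = 2 * D := Nat.mul_comm _ _
  have hmain : |∑ k ∈ Finset.range (2 * C * T), ps (p.eval (x k)) -
      ∑ k ∈ Finset.range (2 * C * T), T * ∫ t in (x k)..(x (k + 1)), ps (p.eval t)| ≤ 2 * D := by
    rw [← Finset.sum_sub_distrib]
    refine (Finset.abs_sum_le_sum_abs _ _).trans ?_
    calc ∑ k ∈ Finset.range (2 * C * T),
          |ps (p.eval (x k)) - T * ∫ t in (x k)..(x (k + 1)), ps (p.eval t)| ≤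
        ∑ k ∈ Finset.range (2 * C * T), (if ∃ t ∈ Set.Icc (x k) (x (k + 1)), p.eval t = 0
          then (1 : ℝ) else 0) := by
          refine Finset.sum_le_sum fun k _ => ?_
          split_ifs with h
          · exact hcell k
          · push Not at h
            exact (hgood k h).le
      _ = bad.card := by
          rw [Finset.sum_ite, Finset.sum_const_zero, add_zero, Finset.sum_const, nsmul_eq_mul,
            mul_one]
      _ ≤ 2 * D := by exact_mod_cast hbad
  have h7 := ps_nonneg (p.eval (x (2 * C * T)))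
  have h8 := ps_le (p.eval (x (2 * C * T)))
  rw [abs_le] at hmain ⊢
  constructor <;> linarith [hmain.1, hmain.2]

/-- Functions which are polynomials of degree at most `D` in each variable. -/
def PF (D : ℕ) : (n : ℕ) → ((Fin n → ℝ) → ℝ) → Prop
  | 0, _ => True
  | n + 1, g => (∀ w : Fin n → ℝ, ∃ p : Polynomial ℝ, p.natDegree ≤ D ∧
      ∀ t, g (Fin.cons t w) = p.eval t) ∧ ∀ t, PF D n fun w => g (Fin.cons t w)

theorem PF.const (c : ℝ) : ∀ (D n : ℕ), PF D n fun _ => c
  | _, 0 => trivial
  | D, n + 1 => ⟨fun _ => ⟨Polynomial.C c, by simp, fun _ => by simp⟩, fun _ => PF.const c D n⟩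

theorem PF.add {D E : ℕ} : ∀ {n : ℕ} {g h : (Fin n → ℝ) → ℝ}, PF D n g → PF E n h →
    PF (D + E) n fun w => g w + h w
  | 0, _, _, _, _ => trivial
  | n + 1, g, h, hg, hh => by
    refine ⟨fun w => ?_, fun t => (hg.2 t).add (hh.2 t)⟩
    obtain ⟨p, hp, hp'⟩ := hg.1 w
    obtain ⟨q, hq, hq'⟩ := hh.1 w
    refine ⟨p + q, ?_, fun t => by beta_reduce; rw [hp', hq', Polynomial.eval_add]⟩
    exact (Polynomial.natDegree_add_le p q).trans (max_le (hp.trans (Nat.le_add_right _ _))
      (hq.trans (Nat.le_add_left _ _)))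

theorem PF.mul {D E : ℕ} : ∀ {n : ℕ} {g h : (Fin n → ℝ) → ℝ}, PF D n g → PF E n h →
    PF (D + E) n fun w => g w * h w
  | 0, _, _, _, _ => trivial
  | n + 1, g, h, hg, hh => by
    refine ⟨fun w => ?_, fun t => (hg.2 t).mul (hh.2 t)⟩
    obtain ⟨p, hp, hp'⟩ := hg.1 w
    obtain ⟨q, hq, hq'⟩ := hh.1 w
    refine ⟨p * q, ?_, fun t => by beta_reduce; rw [hp', hq', Polynomial.eval_mul]⟩
    exact Polynomial.natDegree_mul_le.trans (Nat.add_le_add hp hq)

theorem PF.coord : ∀ {n : ℕ} (i : Fin n), PF 1 n fun w => w i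
  | 0, i => i.elim0
  | n + 1, i => by
    refine Fin.cases ?_ (fun j => ?_) i
    · refine ⟨fun w => ⟨Polynomial.X, by simp, fun t => by simp⟩, fun t => ?_⟩
      simp only [Fin.cons_zero]
      exact PF.const t 1 n
    · refine ⟨fun w => ⟨Polynomial.C (w j), by simp, fun t => by simp⟩, fun t => ?_⟩
      simp only [Fin.cons_succ]
      exact PF.coord j

theorem PF.poly {n : ℕ} (f : MvPolynomial (Fin n) ℤ) :
    ∃ D, PF D n fun u => (MvPolynomial.aeval u f : ℝ) := by
  induction f using MvPolynomial.induction_on with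
  | C a =>
    refine ⟨0, ?_⟩
    simp only [MvPolynomial.aeval_C]
    exact PF.const _ 0 n
  | add p q hp hq =>
    obtain ⟨D, hD⟩ := hp
    obtain ⟨E, hE⟩ := hq
    refine ⟨D + E, ?_⟩
    simp only [map_add]
    exact hD.add hE
  | mul_X p i hp =>
    obtain ⟨D, hD⟩ := hp
    refine ⟨D + 1, ?_⟩
    simp only [map_mul, MvPolynomial.aeval_X]
    exact hD.mul (PF.coord i)

/-- The lattice box. -/
def lbox (C T n : ℕ) : Finset (Fin n → ℤ) :=
  Fintype.piFinset fun _ => Finset.Icc (-(C * T : ℤ)) (C * T)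

/-- The number of lattice points. -/
def Nc (C T n : ℕ) (g : (Fin n → ℝ) → ℝ) : ℝ :=
  ∑ z ∈ lbox C T n, ps (g fun i => (z i : ℝ) / T)

/-- The box. -/
def rbox (C n : ℕ) : Set (Fin n → ℝ) := Set.Icc (fun _ => -(C : ℝ)) (fun _ => (C : ℝ))

/-- The volume. -/
def Vc (C n : ℕ) (g : (Fin n → ℝ) → ℝ) : ℝ := ∫ u in rbox C n, ps (g u)

theorem lbox_succ (C T n : ℕ) (φ : (Fin (n + 1) → ℤ) → ℝ) :
    ∑ z ∈ lbox C T (n + 1), φ z =
      ∑ w ∈ lbox C T n, ∑ a ∈ Finset.Icc (-(C * T : ℤ)) (C * T), φ (Fin.cons a w) := by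
  rw [← Finset.sum_product']
  refine Finset.sum_bij' (fun z _ => (Fin.tail z, z 0)) (fun p _ => Fin.cons p.2 p.1) ?_ ?_ ?_ ?_ ?_
  · intro z hz
    rw [lbox, Fintype.mem_piFinset] at hz
    rw [Finset.mem_product, lbox, Fintype.mem_piFinset]
    exact ⟨fun i => hz i.succ, hz 0⟩
  · intro p hp
    rw [Finset.mem_product, lbox, Fintype.mem_piFinset] at hp
    rw [lbox, Fintype.mem_piFinset]
    intro i
    refine Fin.cases ?_ (fun j => ?_) i
    · exact hp.2
    · exact hp.1 j
  · intro z _
    exact Fin.cons_self_tail z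
  · intro p _
    simp
  · intro z _
    rw [Fin.cons_self_tail]

theorem lbox_card (C T n : ℕ) : ((lbox C T n).card : ℝ) = (2 * C * T + 1) ^ n := by
  rw [lbox, Fintype.card_piFinset, Finset.prod_const, Int.card_Icc, Finset.card_univ,
    Fintype.card_fin]
  push_cast
  congr 1
  rw [show ((C : ℤ) * T + 1 - -(C * T : ℤ)) = ((2 * C * T + 1 : ℕ) : ℤ) by push_cast; ring,
    Int.toNat_natCast]
  push_cast
  rfl

end Pool.Agent.OneIneq
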