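import Pool.Agent.W_2cf66e_h3.Sub

/-!
# MP_2cf66e_nt, one inequality: the fibre (helper3)
-/

set_option autoImplicit false

noncomputable section

open MeasureTheory MvPolynomial

namespace Pool.Agent.OneIneq

open Pool.Agent.CVol

theorem J_iff (a p y : ℝ) :
    (y - a) * (y - a - p) < 0 ↔ y ∈ Set.Ioo (min a (a + p)) (max a (a + p)) := by
  rw [Set.mem_Ioo, mul_neg_iff]
  rcases le_total 0 p with h | h
  · rw [min_eq_left (by linarith), max_eq_right (by linarith)]
    constructor
    · rintro (⟨h1, h2⟩ | ⟨h1, h2⟩)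
      · exact ⟨by linarith, by linarith⟩
      · exact ⟨by linarith, by linarith⟩
    · rintro ⟨h1, h2⟩
      exact Or.inl ⟨by linarith, by linarith⟩
  · rw [min_eq_right (by linarith), max_eq_left (by linarith)]
    constructor
    · rintro (⟨h1, h2⟩ | ⟨h1, h2⟩)
      · exact ⟨by linarith, by linarith⟩
      · exact ⟨by linarith, by linarith⟩
    · rintro ⟨h1, h2⟩
      exact Or.inr ⟨by linarith, by linarith⟩

theorem J_abs {a p y s : ℝ} (hp : |p| ≤ s) (h : (y - a) * (y - a - p) < 0) :
    - s < y - a ∧ y - a < s := by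
  have h1 := abs_le.1 hp
  rcases mul_neg_iff.1 h with ⟨h2, h3⟩ | ⟨h2, h3⟩
  · exact ⟨by linarith, by linarith⟩
  · exact ⟨by linarith, by linarith⟩

/-- The integral of the indicator function of `J`. -/
theorem J_int {a p : ℝ} (h0 : 0 ≤ a - |p|) (h1 : a + |p| ≤ 1) :
    IntegrableOn (fun y : ℝ => if (y - a) * (y - a - p) < 0 then (1 : ℝ) else 0) (Set.Icc 0 1) ∧
      ∫ y in Set.Icc (0 : ℝ) 1, (if (y - a) * (y - a - p) < 0 then (1 : ℝ) else 0) = |p| := by
  have h2 : (fun y : ℝ => if (y - a) * (y - a - p) < 0 then (1 : ℝ) else 0) =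
      (Set.Ioo (min a (a + p)) (max a (a + p))).indicator fun _ => 1 := by
    funext y
    rw [Set.indicator_apply]
    simp only [J_iff]
  have h3 : Set.Ioo (min a (a + p)) (max a (a + p)) ⊆ Set.Icc 0 1 := by
    intro y hy
    have h4 := J_abs (le_refl |p|) ((J_iff a p y).2 hy)
    exact ⟨by linarith, by linarith⟩
  rw [h2]
  constructor
  · exact (integrableOn_const (by simp)).indicator measurableSet_Ioo
  · rw [setIntegral_indicator measurableSet_Ioo, Set.inter_eq_right.2 h3, setIntegral_const,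
      measureReal_def, Real.volume_Ioo, ENNReal.toReal_ofReal]
    · rw [max_sub_min_eq_abs]
      simp
    · rw [max_sub_min_eq_abs]
      exact abs_nonneg _

theorem R_int {r : ℝ} (h0 : 0 ≤ r) (h1 : r ≤ 1) :
    IntegrableOn (fun y : ℝ => if y < r then (1 : ℝ) else 0) (Set.Icc 0 1) ∧
      ∫ y in Set.Icc (0 : ℝ) 1, (if y < r then (1 : ℝ) else 0) = r := by
  have h2 : (fun y : ℝ => if y < r then (1 : ℝ) else 0) =
      (Set.Iio r).indicator fun _ => 1 := by
    funext y
    rw [Set.indicator_apply]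
    simp only [Set.mem_Iio]
  have h3 : Set.Icc 0 1 ∩ Set.Iio r = Set.Ico 0 r := by
    ext y
    simp only [Set.mem_inter_iff, Set.mem_Icc, Set.mem_Iio, Set.mem_Ico]
    constructor
    · rintro ⟨⟨h4, h5⟩, h6⟩
      exact ⟨h4, h6⟩
    · rintro ⟨h4, h6⟩
      exact ⟨⟨h4, by linarith⟩, h6⟩
  rw [h2]
  constructor
  · exact (integrableOn_const (by simp)).indicator measurableSet_Iio
  · rw [setIntegral_indicator measurableSet_Iio, h3, setIntegral_const,
      measureReal_def, Real.volume_Ico, ENNReal.toReal_ofReal (by linarith)]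
    simp

section fibre

variable {L : ℕ} {r : ℝ} {e b s p : Fin L → ℝ}

/-- The indicator function of the negative set of the product. -/
theorem fib_point (he : ∀ l, e l = 1 ∨ e l = -1) (hp : ∀ l, |p l| ≤ s l)
    (hb0 : ∀ l, 0 ≤ b l - s l) (hbd : ∀ l l', l < l' → b l + s l ≤ b l' - s l')
    {y : ℝ} (hyr : y ≠ r) (hy : ∀ l, (y - (r + e l * b l)) * (y - (r + e l * b l) - p l) ≠ 0) :
    (if (y - r) * ∏ l, ((y - (r + e l * b l)) * (y - (r + e l * b l) - p l)) < 0
      then (1 : ℝ) else 0) = (if y < r then (1 : ℝ) else 0) +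
      ∑ l, e l * (if (y - (r + e l * b l)) * (y - (r + e l * b l) - p l) < 0
        then (1 : ℝ) else 0) := by
  -- position of the intervals
  have hpos : ∀ l, (y - (r + e l * b l)) * (y - (r + e l * b l) - p l) < 0 →
      b l - s l < e l * (y - r) ∧ e l * (y - r) < b l + s l := by
    intro l hl
    have h1 := J_abs (hp l) hl
    rcases he l with h2 | h2 <;> rw [h2] at h1 ⊢
    · exact ⟨by linarith [h1.1], by linarith [h1.2]⟩
    · exact ⟨by linarith [h1.2], by linarith [h1.1]⟩
  have habs : ∀ l, (y - (r + e l * b l)) * (y - (r + e l * b l) - p l) < 0 →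
      b l - s l < |y - r| ∧ |y - r| < b l + s l := by
    intro l hl
    have h1 := hpos l hl
    have h3 : e l * (y - r) = |y - r| := by
      have h4 : 0 < e l * (y - r) := lt_of_le_of_lt (hb0 l) h1.1
      rcases he l with h2 | h2
      · rw [h2, one_mul] at h4 ⊢
        rw [abs_of_pos h4]
      · rw [h2] at h4 ⊢
        rw [abs_of_neg (by linarith)]
        ring
    rwa [h3] at h1
  by_cases hex : ∃ l, (y - (r + e l * b l)) * (y - (r + e l * b l) - p l) < 0
  · obtain ⟨l0, hl0⟩ := hex
    have hoth : ∀ l, l ≠ l0 → 0 < (y - (r + e l * b l)) * (y - (r + e l * b l) - p l) := by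
      intro l hl
      by_contra hc
      have hc' := lt_of_le_of_ne (not_lt.1 hc) (hy l)
      have h1 := habs l hc'
      have h2 := habs l0 hl0
      rcases lt_or_gt_of_ne hl with h3 | h3
      · have := hbd l l0 h3
        linarith [h1.2, h2.1]
      · have := hbd l0 l h3
        linarith [h1.1, h2.2]
    have hprod : ∏ l, ((y - (r + e l * b l)) * (y - (r + e l * b l) - p l)) < 0 := by
      rw [← Finset.mul_prod_erase Finset.univ _ (Finset.mem_univ l0)]
      refine mul_neg_of_neg_of_pos hl0 (Finset.prod_pos fun l hl => ?_)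
      exact hoth l (Finset.ne_of_mem_erase hl)
    have hsum : ∑ l, e l * (if (y - (r + e l * b l)) * (y - (r + e l * b l) - p l) < 0
        then (1 : ℝ) else 0) = e l0 := by
      rw [Finset.sum_eq_single l0]
      · rw [if_pos hl0, mul_one]
      · intro l _ hl
        rw [if_neg (not_lt.2 (hoth l hl).le), mul_zero]
      · intro h
        exact absurd (Finset.mem_univ _) h
    rw [hsum]
    have h1 := hpos l0 hl0
    have h4 : 0 < e l0 * (y - r) := lt_of_le_of_lt (hb0 l0) h1.1
    rcases he l0 with h2 | h2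
    · rw [h2] at h4 ⊢
      rw [if_pos (mul_neg_of_pos_of_neg (by linarith) hprod), if_neg (by linarith)]
      norm_num
    · rw [h2] at h4 ⊢
      rw [if_neg (not_lt.2 (mul_nonneg_of_nonpos_of_nonpos (by linarith) hprod.le)),
        if_pos (by linarith)]
      norm_num
  · push Not at hex
    have hoth : ∀ l, 0 < (y - (r + e l * b l)) * (y - (r + e l * b l) - p l) := fun l =>
      lt_of_le_of_ne (hex l) (hy l).symm
    have hprod : 0 < ∏ l, ((y - (r + e l * b l)) * (y - (r + e l * b l) - p l)) :=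
      Finset.prod_pos fun l _ => hoth l
    have hsum : ∑ l, e l * (if (y - (r + e l * b l)) * (y - (r + e l * b l) - p l) < 0
        then (1 : ℝ) else 0) = 0 := by
      refine Finset.sum_eq_zero fun l _ => ?_
      rw [if_neg (not_lt.2 (hoth l).le), mul_zero]
    rw [hsum, add_zero]
    by_cases h : y < r
    · rw [if_pos h, if_pos (mul_neg_of_neg_of_pos (by linarith) hprod)]
    · rw [if_neg h, if_neg (not_lt.2 (mul_nonneg (by linarith) hprod.le))]

theorem ae_ne' (c : ℝ) : ∀ᵐ y : ℝ, y ≠ c := by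
  rw [ae_iff]
  simp

theorem fib_int (he : ∀ l, e l = 1 ∨ e l = -1) (hp : ∀ l, |p l| ≤ s l)
    (hb0 : ∀ l, 0 ≤ b l - s l) (hbd : ∀ l l', l < l' → b l + s l ≤ b l' - s l')
    (hb1 : ∀ l, b l + s l ≤ r) (hb2 : ∀ l, b l + s l ≤ 1 - r) (hr0 : 0 ≤ r) (hr1 : r ≤ 1) :
    IntegrableOn (fun y => if (y - r) * ∏ l, ((y - (r + e l * b l)) *
        (y - (r + e l * b l) - p l)) < 0 then (1 : ℝ) else 0) (Set.Icc 0 1) ∧
      ∫ y in Set.Icc (0 : ℝ) 1, (if (y - r) * ∏ l, ((y - (r + e l * b l)) *
        (y - (r + e l * b l) - p l)) < 0 then (1 : ℝ) else 0) = r + ∑ l, e l * |p l| := by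
  have hae : ∀ᵐ y : ℝ, y ≠ r ∧
      ∀ l, (y - (r + e l * b l)) * (y - (r + e l * b l) - p l) ≠ 0 := by
    refine (ae_ne' r).and (ae_all_iff.2 fun l => ?_)
    filter_upwards [ae_ne' (r + e l * b l), ae_ne' (r + e l * b l + p l)] with y h1 h2
    refine mul_ne_zero (sub_ne_zero.2 h1) ?_
    intro h
    exact h2 (by linarith)
  have hEq : (fun y => if (y - r) * ∏ l, ((y - (r + e l * b l)) *
        (y - (r + e l * b l) - p l)) < 0 then (1 : ℝ) else 0) =ᵐ[volume.restrict (Set.Icc 0 1)]
      fun y => (if y < r then (1 : ℝ) else 0) +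
      ∑ l, e l * (if (y - (r + e l * b l)) * (y - (r + e l * b l) - p l) < 0
        then (1 : ℝ) else 0) := by
    refine ae_restrict_of_ae ?_
    filter_upwards [hae] with y hy
    exact fib_point he hp hb0 hbd hy.1 hy.2
  have hJ : ∀ l, 0 ≤ (r + e l * b l) - |p l| ∧ (r + e l * b l) + |p l| ≤ 1 := by
    intro l
    have h1 := hp l
    have h2 := hb0 l
    have h3 := hb1 l
    have h4 := hb2 l
    have h5 := abs_nonneg (p l)
    rcases he l with h | h <;> rw [h]
    · exact ⟨by linarith, by linarith⟩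
    · exact ⟨by linarith, by linarith⟩
  have hi : ∀ l : Fin L, IntegrableOn (fun y : ℝ => e l *
      (if (y - (r + e l * b l)) * (y - (r + e l * b l) - p l) < 0
        then (1 : ℝ) else 0)) (Set.Icc 0 1) := fun l =>
    (J_int (hJ l).1 (hJ l).2).1.const_mul _
  have hR := R_int hr0 hr1
  constructor
  · refine Integrable.congr ?_ hEq.symm
    exact hR.1.add (integrable_finsetSum _ fun l _ => hi l)
  · rw [integral_congr_ae hEq, integral_add hR.1 (integrable_finsetSum _ fun l _ => hi l), hR.2,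
      integral_finsetSum _ fun l _ => hi l]
    congr 1
    refine Finset.sum_congr rfl fun l _ => ?_
    rw [integral_const_mul, (J_int (hJ l).1 (hJ l).2).2]

end fibre

end Pool.Agent.OneIneq
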