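import Pool.Agent.W_2cf66e_h3.FoldK
import Pool.Agent.W_2cf66e_h3.Fib

/-!
# MP_2cf66e_nt, one inequality: the fibre with symmetric intervals (helper3)
-/

set_option autoImplicit false

noncomputable section

open MeasureTheory MvPolynomial
open scoped ENNReal

namespace Pool.Agent.OneIneq

open Pool.Agent.CVol

theorem I_iff (a c y : ℝ) :
    (y - a) ^ 2 - c < 0 ↔ y ∈ Set.Ioo (a - Real.sqrt c) (a + Real.sqrt c) := by
  rw [Set.mem_Ioo, sub_neg, Real.sq_lt]
  constructor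
  · rintro ⟨h1, h2⟩
    exact ⟨by linarith, by linarith⟩
  · rintro ⟨h1, h2⟩
    exact ⟨by linarith, by linarith⟩

theorem I_int (a c : ℝ) :
    Integrable (fun y : ℝ => if (y - a) ^ 2 - c < 0 then (1 : ℝ) else 0) ∧
      ∫ y : ℝ, (if (y - a) ^ 2 - c < 0 then (1 : ℝ) else 0) = 2 * Real.sqrt c := by
  have h2 : (fun y : ℝ => if (y - a) ^ 2 - c < 0 then (1 : ℝ) else 0) =
      (Set.Ioo (a - Real.sqrt c) (a + Real.sqrt c)).indicator fun _ => 1 := by
    funext y
    rw [Set.indicator_apply]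
    simp only [I_iff]
  rw [h2]
  constructor
  · exact (integrable_indicator_iff measurableSet_Ioo).2 (integrableOn_const (by simp))
  · rw [integral_indicator measurableSet_Ioo, setIntegral_const,
      measureReal_def, Real.volume_Ioo, ENNReal.toReal_ofReal]
    · rw [smul_eq_mul, mul_one]
      ring
    · have := Real.sqrt_nonneg c
      linarith

section disc

variable {L : ℕ} {B : ℝ} {e α c : Fin L → ℝ}

theorem disc_point (he : ∀ l, e l = 1 ∨ e l = -1)
    (h0 : ∀ l, 0 < c l → 0 ≤ α l - Real.sqrt (c l))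
    (hm : ∀ l, 0 < c l → e l = -1 → α l + Real.sqrt (c l) ≤ Real.sqrt B)
    (hpl : ∀ l, 0 < c l → e l = 1 → Real.sqrt B ≤ α l - Real.sqrt (c l))
    (hd : ∀ l l', l < l' → 0 < c l → 0 < c l' →
      Real.sqrt (c l) + Real.sqrt (c l') ≤ |α l - α l'|)
    {y : ℝ} (hyr : y ^ 2 - B ≠ 0) (hy : ∀ l, (y - α l) ^ 2 - c l ≠ 0) :
    (if (y ^ 2 - B) * ∏ l, ((y - α l) ^ 2 - c l) < 0
      then (1 : ℝ) else 0) = (if y ^ 2 - B < 0 then (1 : ℝ) else 0) +
      ∑ l, e l * (if (y - α l) ^ 2 - c l < 0 then (1 : ℝ) else 0) := by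
  have hcpos : ∀ l, (y - α l) ^ 2 - c l < 0 → 0 < c l := by
    intro l hl
    nlinarith [sq_nonneg (y - α l)]
  have hmem : ∀ l, (y - α l) ^ 2 - c l < 0 →
      α l - Real.sqrt (c l) < y ∧ y < α l + Real.sqrt (c l) := fun l hl =>
    (I_iff _ _ _).1 hl
  have hB : y ^ 2 - B < 0 ↔ |y| < Real.sqrt B := by
    rw [sub_neg, Real.sq_lt, abs_lt]
  by_cases hex : ∃ l, (y - α l) ^ 2 - c l < 0
  · obtain ⟨l0, hl0⟩ := hex
    have hoth : ∀ l, l ≠ l0 → 0 < (y - α l) ^ 2 - c l := by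
      intro l hl
      by_contra hc
      have hc' := lt_of_le_of_ne (not_lt.1 hc) (hy l)
      have h1 := hmem l hc'
      have h2 := hmem l0 hl0
      have h3 : Real.sqrt (c l) + Real.sqrt (c l0) ≤ |α l - α l0| := by
        rcases lt_or_gt_of_ne hl with h3 | h3
        · exact hd l l0 h3 (hcpos l hc') (hcpos l0 hl0)
        · rw [abs_sub_comm, add_comm]
          exact hd l0 l h3 (hcpos l0 hl0) (hcpos l hc')
      rcases abs_cases (α l - α l0) with ⟨h4, h5⟩ | ⟨h4, h5⟩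
      · linarith [h1.1, h2.2]
      · linarith [h1.2, h2.1]
    have hprod : ∏ l, ((y - α l) ^ 2 - c l) < 0 := by
      rw [← Finset.mul_prod_erase Finset.univ _ (Finset.mem_univ l0)]
      refine mul_neg_of_neg_of_pos hl0 (Finset.prod_pos fun l hl => ?_)
      exact hoth l (Finset.ne_of_mem_erase hl)
    have hsum : ∑ l, e l * (if (y - α l) ^ 2 - c l < 0 then (1 : ℝ) else 0) = e l0 := by
      rw [Finset.sum_eq_single l0]
      · rw [if_pos hl0, mul_one]
      · intro l _ hl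
        rw [if_neg (not_lt.2 (hoth l hl).le), mul_zero]
      · intro h
        exact absurd (Finset.mem_univ _) h
    rw [hsum]
    have h1 := hmem l0 hl0
    have h2 := h0 l0 (hcpos l0 hl0)
    have h4 : 0 < y := by linarith [h1.1]
    rcases he l0 with h5 | h5
    · have h6 := hpl l0 (hcpos l0 hl0) h5
      have h7 : ¬ (y ^ 2 - B < 0) := by
        rw [hB, abs_of_pos h4]
        linarith [h1.1]
      rw [h5, if_neg h7, if_pos (mul_neg_of_pos_of_neg
        (lt_of_le_of_ne (not_lt.1 h7) hyr.symm) hprod)]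
      norm_num
    · have h6 := hm l0 (hcpos l0 hl0) h5
      have h7 : y ^ 2 - B < 0 := by
        rw [hB, abs_of_pos h4]
        linarith [h1.2]
      rw [h5, if_pos h7, if_neg (not_lt.2 (mul_nonneg_of_nonpos_of_nonpos h7.le hprod.le))]
      norm_num
  · push Not at hex
    have hoth : ∀ l, 0 < (y - α l) ^ 2 - c l := fun l =>
      lt_of_le_of_ne (hex l) (hy l).symm
    have hprod : 0 < ∏ l, ((y - α l) ^ 2 - c l) :=
      Finset.prod_pos fun l _ => hoth l
    have hsum : ∑ l, e l * (if (y - α l) ^ 2 - c l < 0 then (1 : ℝ) else 0) = 0 := by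
      refine Finset.sum_eq_zero fun l _ => ?_
      rw [if_neg (not_lt.2 (hoth l).le), mul_zero]
    rw [hsum, add_zero]
    by_cases h : y ^ 2 - B < 0
    · rw [if_pos h, if_pos (mul_neg_of_neg_of_pos h hprod)]
    · rw [if_neg h, if_neg (not_lt.2 (mul_nonneg (not_lt.1 h) hprod.le))]

theorem sq_ae (a c : ℝ) : ∀ᵐ y : ℝ, (y - a) ^ 2 - c ≠ 0 := by
  filter_upwards [ae_ne' (a + Real.sqrt c), ae_ne' (a - Real.sqrt c)] with y h1 h2 h
  have h3 : (y - a) ^ 2 = c := by linarith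
  have h4 : Real.sqrt c = |y - a| := by rw [← h3, Real.sqrt_sq_eq_abs]
  rcases abs_cases (y - a) with ⟨h5, _⟩ | ⟨h5, _⟩
  · exact h1 (by linarith)
  · exact h2 (by linarith)

theorem disc_int (he : ∀ l, e l = 1 ∨ e l = -1)
    (h0 : ∀ l, 0 < c l → 0 ≤ α l - Real.sqrt (c l))
    (hm : ∀ l, 0 < c l → e l = -1 → α l + Real.sqrt (c l) ≤ Real.sqrt B)
    (hpl : ∀ l, 0 < c l → e l = 1 → Real.sqrt B ≤ α l - Real.sqrt (c l))
    (hd : ∀ l l', l < l' → 0 < c l → 0 < c l' →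
      Real.sqrt (c l) + Real.sqrt (c l') ≤ |α l - α l'|) :
    Integrable (fun y => if (y ^ 2 - B) * ∏ l, ((y - α l) ^ 2 - c l) < 0
      then (1 : ℝ) else 0) ∧
      ∫ y : ℝ, (if (y ^ 2 - B) * ∏ l, ((y - α l) ^ 2 - c l) < 0 then (1 : ℝ) else 0) =
        2 * Real.sqrt B + ∑ l, e l * (2 * Real.sqrt (c l)) := by
  have hae : ∀ᵐ y : ℝ, y ^ 2 - B ≠ 0 ∧ ∀ l, (y - α l) ^ 2 - c l ≠ 0 := by
    have h1 := sq_ae 0 B
    simp only [sub_zero] at h1
    exact h1.and (ae_all_iff.2 fun l => sq_ae _ _)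
  have hEq : (fun y => if (y ^ 2 - B) * ∏ l, ((y - α l) ^ 2 - c l) < 0
      then (1 : ℝ) else 0) =ᵐ[volume]
      fun y => (if y ^ 2 - B < 0 then (1 : ℝ) else 0) +
      ∑ l, e l * (if (y - α l) ^ 2 - c l < 0 then (1 : ℝ) else 0) := by
    filter_upwards [hae] with y hy
    exact disc_point he h0 hm hpl hd hy.1 hy.2
  have hi : ∀ l : Fin L, Integrable (fun y : ℝ => e l *
      (if (y - α l) ^ 2 - c l < 0 then (1 : ℝ) else 0)) := fun l =>
    (I_int _ _).1.const_mul _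
  have hR := I_int 0 B
  simp only [sub_zero] at hR
  constructor
  · refine Integrable.congr ?_ hEq.symm
    exact hR.1.add (integrable_finsetSum _ fun l _ => hi l)
  · rw [integral_congr_ae hEq, integral_add hR.1 (integrable_finsetSum _ fun l _ => hi l), hR.2,
      integral_finsetSum _ fun l _ => hi l]
    congr 1
    refine Finset.sum_congr rfl fun l _ => ?_
    rw [integral_const_mul, (I_int _ _).2]

/-- The length of the negative set, and its nonnegativity. -/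
theorem disc_vol (he : ∀ l, e l = 1 ∨ e l = -1)
    (h0 : ∀ l, 0 < c l → 0 ≤ α l - Real.sqrt (c l))
    (hm : ∀ l, 0 < c l → e l = -1 → α l + Real.sqrt (c l) ≤ Real.sqrt B)
    (hpl : ∀ l, 0 < c l → e l = 1 → Real.sqrt B ≤ α l - Real.sqrt (c l))
    (hd : ∀ l l', l < l' → 0 < c l → 0 < c l' →
      Real.sqrt (c l) + Real.sqrt (c l') ≤ |α l - α l'|) :
    0 ≤ 2 * Real.sqrt B + ∑ l, e l * (2 * Real.sqrt (c l)) ∧
    volume {y : ℝ | (y ^ 2 - B) * ∏ l, ((y - α l) ^ 2 - c l) < 0} =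
      ENNReal.ofReal (2 * Real.sqrt B + ∑ l, e l * (2 * Real.sqrt (c l))) := by
  obtain ⟨h1, h2⟩ := disc_int he h0 hm hpl hd
  have hnn : 0 ≤ 2 * Real.sqrt B + ∑ l, e l * (2 * Real.sqrt (c l)) := by
    rw [← h2]
    exact integral_nonneg fun y => by
      beta_reduce
      split_ifs <;> norm_num
  refine ⟨hnn, ?_⟩
  set A : Set ℝ := {y : ℝ | (y ^ 2 - B) * ∏ l, ((y - α l) ^ 2 - c l) < 0} with hA
  have hAm : MeasurableSet A := by
    refine (isOpen_lt ?_ continuous_const).measurableSet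
    fun_prop
  have h3 : (fun y => if (y ^ 2 - B) * ∏ l, ((y - α l) ^ 2 - c l) < 0
      then (1 : ℝ) else 0) = A.indicator fun _ => 1 := by
    funext y
    rw [Set.indicator_apply]
    rfl
  rw [h3] at h1 h2
  have h4 : volume A ≠ ⊤ := by
    rw [integrable_indicator_iff hAm, integrableOn_const_iff] at h1
    · rcases h1 with h1 | h1
      · norm_num at h1
      · exact h1.ne
  rw [integral_indicator hAm, setIntegral_const, smul_eq_mul, mul_one, measureReal_def] at h2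
  rw [← h2, ENNReal.ofReal_toReal h4]

/-- The same after scaling, in the form `y = (Z / D) v`. -/
theorem disc_scaled (he : ∀ l, e l = 1 ∨ e l = -1)
    (h0 : ∀ l, 0 < c l → 0 ≤ α l - Real.sqrt (c l))
    (hm : ∀ l, 0 < c l → e l = -1 → α l + Real.sqrt (c l) ≤ Real.sqrt B)
    (hpl : ∀ l, 0 < c l → e l = 1 → Real.sqrt B ≤ α l - Real.sqrt (c l))
    (hd : ∀ l l', l < l' → 0 < c l → 0 < c l' →
      Real.sqrt (c l) + Real.sqrt (c l') ≤ |α l - α l'|)
    {Z D : ℝ} (hZ : Z ≠ 0) (hD : D ≠ 0) :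
    volume {y : ℝ | ((y * D) ^ 2 - B * Z ^ 2) * ∏ l, ((y * D - α l * Z) ^ 2 - c l * Z ^ 2) < 0} =
      ENNReal.ofReal |Z / D| *
        ENNReal.ofReal (2 * Real.sqrt B + ∑ l, e l * (2 * Real.sqrt (c l))) := by
  rw [← (disc_vol he h0 hm hpl hd).2]
  have h1 := Real.volume_preimage_mul_left (div_ne_zero hD hZ)
    {y : ℝ | (y ^ 2 - B) * ∏ l, ((y - α l) ^ 2 - c l) < 0}
  rw [inv_div] at h1
  rw [← h1]
  congr 1
  ext y
  rw [Set.mem_preimage, Set.mem_ofPred_eq, Set.mem_ofPred_eq]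
  have h2 : ((y * D) ^ 2 - B * Z ^ 2) * ∏ l, ((y * D - α l * Z) ^ 2 - c l * Z ^ 2) =
      (Z ^ 2 * ∏ _l : Fin L, Z ^ 2) *
      (((D / Z * y) ^ 2 - B) * ∏ l, ((D / Z * y - α l) ^ 2 - c l)) := by
    have h3 : ∏ l, ((y * D - α l * Z) ^ 2 - c l * Z ^ 2) =
        (∏ _l : Fin L, Z ^ 2) * ∏ l, ((D / Z * y - α l) ^ 2 - c l) := by
      rw [← Finset.prod_mul_distrib]
      refine Finset.prod_congr rfl fun l _ => ?_
      field_simp
    rw [h3]
    generalize (∏ _l : Fin L, Z ^ 2) = T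
    generalize (∏ l, ((D / Z * y - α l) ^ 2 - c l)) = T'
    field_simp
  have h4 : 0 < Z ^ 2 * ∏ _l : Fin L, Z ^ 2 :=
    mul_pos (by positivity) (Finset.prod_pos fun _ _ => by positivity)
  rw [h2]
  constructor
  · intro h5
    by_contra h6
    exact absurd (mul_nonneg h4.le (not_lt.1 h6)) (not_le.2 h5)
  · intro h5
    exact mul_neg_of_pos_of_neg h4 h5

end disc

end Pool.Agent.OneIneq
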