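import Pool.Agent.W_2cf66e_h3.Prob

/-!
# MP_2cf66e_nt, one inequality: the folding map `t ↦ 1 / (1 + t ^ 2)` (helper3)
-/

set_option autoImplicit false

noncomputable section

open MeasureTheory MvPolynomial
open scoped ENNReal

namespace Pool.Agent.OneIneq

open Pool.Agent.CVol

/-- The folding map. -/
def fold (t : ℝ) : ℝ := 1 / (1 + t ^ 2)

/-- Its weight (half of the absolute value of the derivative). -/
def rho (t : ℝ) : ℝ := |t| / (1 + t ^ 2) ^ 2

theorem fold_cont : Continuous fold := by
  unfold fold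
  refine continuous_const.div (by fun_prop) fun t => ?_
  positivity

theorem rho_cont : Continuous rho := by
  unfold rho
  refine continuous_abs.div (by fun_prop) fun t => ?_
  positivity

theorem rho_nonneg (t : ℝ) : 0 ≤ rho t := by
  unfold rho
  positivity

theorem fold_mem (t : ℝ) : 0 ≤ fold t ∧ fold t ≤ 1 := by
  unfold fold
  constructor
  · positivity
  · rw [div_le_one (by positivity)]
    nlinarith [sq_nonneg t]

theorem fold_deriv (t : ℝ) : HasDerivAt fold (-(2 * t) / (1 + t ^ 2) ^ 2) t := by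
  have h1 : HasDerivAt (fun t : ℝ => 1 + t ^ 2) (2 * t) t := by
    have := (hasDerivAt_pow 2 t).const_add 1
    simpa using this
  have h2 := h1.inv (by positivity)
  have h3 : fold = fun t : ℝ => (1 + t ^ 2)⁻¹ := by
    funext t
    rw [fold, one_div]
  rw [h3]
  exact h2

theorem fold_abs (t : ℝ) : |(-(2 * t) / (1 + t ^ 2) ^ 2)| = 2 * rho t := by
  rw [rho, abs_div, abs_neg, abs_mul, abs_two, abs_of_pos (show (0 : ℝ) < (1 + t ^ 2) ^ 2 by
    positivity), mul_div_assoc]

theorem fold_image_pos : fold '' Set.Ioi 0 = Set.Ioo 0 1 := by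
  ext u
  constructor
  · rintro ⟨t, ht, rfl⟩
    have h1 : 0 < t := ht
    unfold fold
    constructor
    · positivity
    · rw [div_lt_one (by positivity)]
      nlinarith [sq_pos_of_pos h1]
  · rintro ⟨h1, h2⟩
    have h3 : 0 < 1 / u - 1 := by
      rw [sub_pos, one_lt_div h1]
      exact h2
    refine ⟨Real.sqrt (1 / u - 1), Real.sqrt_pos.2 h3, ?_⟩
    unfold fold
    rw [Real.sq_sqrt h3.le, add_sub_cancel, one_div_one_div]

theorem fold_image_neg : fold '' Set.Iio 0 = Set.Ioo 0 1 := by
  rw [← fold_image_pos]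
  ext u
  constructor
  · rintro ⟨t, ht, rfl⟩
    refine ⟨-t, ?_, by simp [fold]⟩
    have h1 : t < 0 := ht
    exact Set.mem_Ioi.2 (by linarith)
  · rintro ⟨t, ht, rfl⟩
    refine ⟨-t, ?_, by simp [fold]⟩
    have h1 : 0 < t := ht
    exact Set.mem_Iio.2 (by linarith)

theorem fold_inj {s t : ℝ} (h : fold s = fold t) : s ^ 2 = t ^ 2 := by
  unfold fold at h
  have h1 : (1 + s ^ 2) ≠ 0 := by positivity
  have h2 : (1 + t ^ 2) ≠ 0 := by positivity
  field_simp at h
  linarith

theorem fold_pos (g : ℝ → ℝ≥0∞) :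
    ∫⁻ t in Set.Ioo (0 : ℝ) 1, g t = ∫⁻ t in Set.Ioi (0 : ℝ), ENNReal.ofReal (2 * rho t) *
      g (fold t) := by
  rw [← fold_image_pos, lintegral_image_eq_lintegral_abs_deriv_mul measurableSet_Ioi
    (fun t _ => (fold_deriv t).hasDerivWithinAt)]
  · simp only [fold_abs]
  · intro s hs t ht h
    exact (sq_eq_sq₀ (le_of_lt hs) (le_of_lt ht)).1 (fold_inj h)

theorem fold_neg (g : ℝ → ℝ≥0∞) :
    ∫⁻ t in Set.Ioo (0 : ℝ) 1, g t = ∫⁻ t in Set.Iio (0 : ℝ), ENNReal.ofReal (2 * rho t) *
      g (fold t) := by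
  rw [← fold_image_neg, lintegral_image_eq_lintegral_abs_deriv_mul measurableSet_Iio
    (fun t _ => (fold_deriv t).hasDerivWithinAt)]
  · simp only [fold_abs]
  · intro s hs t ht h
    have h1 := fold_inj h
    have h2 : s < 0 := hs
    have h3 : t < 0 := ht
    have h4 : (-s) ^ 2 = (-t) ^ 2 := by rw [neg_sq, neg_sq, h1]
    have h5 := (sq_eq_sq₀ (by linarith) (by linarith)).1 h4
    linarith

/-- One variable. -/
theorem fold_one (g : ℝ → ℝ≥0∞) :
    ∫⁻ t, ENNReal.ofReal (rho t) * g (fold t) = ∫⁻ t in Set.Icc (0 : ℝ) 1, g t := by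
  have h1 : ∫⁻ t in Set.Icc (0 : ℝ) 1, g t = ∫⁻ t in Set.Ioo (0 : ℝ) 1, g t :=
    (setLIntegral_congr Ioo_ae_eq_Icc).symm
  have h2 : ∫⁻ t, ENNReal.ofReal (2 * rho t) * g (fold t) =
      (∫⁻ t in Set.Ioo (0 : ℝ) 1, g t) + ∫⁻ t in Set.Ioo (0 : ℝ) 1, g t := by
    nth_rewrite 1 [fold_pos g]
    rw [fold_neg g, ← lintegral_union measurableSet_Iio]
    · rw [← setLIntegral_univ]
      refine setLIntegral_congr ?_
      have h3 : Set.Ioi (0 : ℝ) ∪ Set.Iio 0 = {0}ᶜ := by
        ext t
        simp only [Set.mem_union, Set.mem_Ioi, Set.mem_Iio, Set.mem_compl_iff,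
          Set.mem_singleton_iff]
        constructor
        · rintro (h | h) h0
          · rw [h0] at h
            exact lt_irrefl _ h
          · rw [h0] at h
            exact lt_irrefl _ h
        · intro h
          exact (lt_or_gt_of_ne h).symm
      rw [h3]
      have h4 : ({0}ᶜ : Set ℝ) ∈ ae (volume : Measure ℝ) :=
        compl_mem_ae_iff.2 (measure_singleton 0)
      exact (Filter.eventuallyEq_univ.2 h4).symm
    · rw [Set.disjoint_left]
      intro t h h'
      exact lt_asymm (show (0 : ℝ) < t from h) (show t < 0 from h')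
  have h3 : ∫⁻ t, ENNReal.ofReal (2 * rho t) * g (fold t) =
      2 * ∫⁻ t, ENNReal.ofReal (rho t) * g (fold t) := by
    rw [← lintegral_const_mul' _ _ (by norm_num)]
    refine lintegral_congr fun t => ?_
    rw [ENNReal.ofReal_mul (by norm_num), mul_assoc]
    simp
  rw [h1]
  rw [h3, ← two_mul] at h2
  exact (ENNReal.mul_right_inj (by norm_num) (by norm_num)).1 h2

/-- Several variables. -/
theorem fold_all : ∀ (N : ℕ) (g : (Fin N → ℝ) → ℝ≥0∞), Measurable g →
    ∫⁻ w : Fin N → ℝ, (∏ i, ENNReal.ofReal (rho (w i))) * g (fun i => fold (w i)) =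
      ∫⁻ u in ucube (Fin N), g u := by
  intro N
  induction N with
  | zero =>
    intro g _
    have h1 : ucube (Fin 0) = Set.univ := by
      ext u
      simp [mem_ucube]
    rw [h1, setLIntegral_univ]
    refine lintegral_congr fun w => ?_
    rw [Finset.univ_eq_empty, Finset.prod_empty, one_mul]
    congr 1
    exact Subsingleton.elim _ _
  | succ N ih =>
    intro g hg
    have hP := KVal_prob
    set P : Measure ℝ := (volume : Measure ℝ).restrict (Set.Icc 0 1) with hPdef
    let e := MeasurableEquiv.piFinSuccAbove (fun _ : Fin (N + 1) => ℝ) 0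
    have hsymm : ∀ z : ℝ × (Fin N → ℝ), e.symm z = Fin.cons z.1 z.2 := by
      intro z
      have h2 : (e.symm z : Fin (N + 1) → ℝ) = Fin.insertNth 0 z.1 z.2 := rfl
      rw [h2, Fin.insertNth_zero']
    have hcons : Measurable fun z : ℝ × (Fin N → ℝ) => (Fin.cons z.1 z.2 : Fin (N + 1) → ℝ) := by
      have h2 : (fun z : ℝ × (Fin N → ℝ) => (Fin.cons z.1 z.2 : Fin (N + 1) → ℝ)) = e.symm := by
        funext z
        exact (hsymm z).symm
      rw [h2]
      exact e.symm.measurable
    have hgm : Measurable fun z : ℝ × (Fin N → ℝ) => g (Fin.cons z.1 z.2) := hg.comp hcons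
    -- left side
    have hL : ∫⁻ w : Fin (N + 1) → ℝ, (∏ i, ENNReal.ofReal (rho (w i))) *
        g (fun i => fold (w i)) =
        ∫⁻ t, ∫⁻ w : Fin N → ℝ, (ENNReal.ofReal (rho t) *
          ∏ i, ENNReal.ofReal (rho (w i))) * g (Fin.cons (fold t) fun i => fold (w i)) := by
      rw [← (volume_preserving_piFinSuccAbove (fun _ : Fin (N + 1) => ℝ) 0).symm.lintegral_comp_emb
        e.symm.measurableEmbedding]
      rw [Measure.volume_eq_prod, lintegral_prod]
      · refine lintegral_congr fun t => lintegral_congr fun w => ?_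
        rw [show (MeasurableEquiv.piFinSuccAbove (fun _ : Fin (N + 1) => ℝ) 0).symm (t, w) =
          (Fin.cons t w : Fin (N + 1) → ℝ) from hsymm (t, w)]
        rw [Fin.prod_univ_succ]
        simp only [Fin.cons_zero, Fin.cons_succ]
        congr 2
        funext i
        refine Fin.cases ?_ (fun j => ?_) i
        · simp
        · simp
      · refine Measurable.aemeasurable ?_
        have h3 : Measurable fun w : Fin (N + 1) → ℝ => (∏ i, ENNReal.ofReal (rho (w i))) *
            g (fun i => fold (w i)) := by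
          refine Measurable.mul ?_ ?_
          · exact Finset.measurable_prod _ fun i _ =>
              (rho_cont.measurable.comp (measurable_pi_apply i)).ennreal_ofReal
          · exact hg.comp (measurable_pi_iff.2 fun i =>
              fold_cont.measurable.comp (measurable_pi_apply i))
        exact h3.comp e.symm.measurable
    -- right side
    have hR : ∫⁻ u in ucube (Fin (N + 1)), g u =
        ∫⁻ t in Set.Icc (0 : ℝ) 1, ∫⁻ u in ucube (Fin N), g (Fin.cons t u) := by
      rw [KVal_pi, KVal_pi]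
      rw [← (measurePreserving_piFinSuccAbove (fun _ : Fin (N + 1) => P) 0).symm.lintegral_comp_emb
        e.symm.measurableEmbedding]
      rw [lintegral_prod]
      · refine lintegral_congr fun t => lintegral_congr fun w => ?_
        exact congrArg g (hsymm (t, w))
      · exact (hg.comp e.symm.measurable).aemeasurable
    rw [hL, hR, ← fold_one]
    refine lintegral_congr fun t => ?_
    rw [← ih (fun u => g (Fin.cons (fold t) u)) (hgm.comp (measurable_const.prodMk measurable_id)),
      ← lintegral_const_mul' _ _ ENNReal.ofReal_ne_top]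
    refine lintegral_congr fun w => ?_
    rw [mul_assoc]

end Pool.Agent.OneIneq
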