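import Pool.Agent.W_2cf66e_h3.Two

/-!
# MP_2cf66e_nt, one inequality: the folding map `t ↦ (1 + t ^ 2) ^ (-k)` (helper3)
-/

set_option autoImplicit false

noncomputable section

open MeasureTheory MvPolynomial
open scoped ENNReal

namespace Pool.Agent.OneIneq

open Pool.Agent.CVol

/-- The folding map. -/
def fk (k : ℕ) (t : ℝ) : ℝ := (1 / (1 + t ^ 2)) ^ k

/-- Its weight (half of the absolute value of the derivative). -/
def rk (k : ℕ) (t : ℝ) : ℝ := k * |t| / (1 + t ^ 2) ^ (k + 1)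

theorem fk_cont (k : ℕ) : Continuous (fk k) := by
  unfold fk
  refine (continuous_const.div (by fun_prop) fun t => ?_).pow k
  positivity

theorem rk_cont (k : ℕ) : Continuous (rk k) := by
  unfold rk
  refine (continuous_const.mul continuous_abs).div (by fun_prop) fun t => ?_
  positivity

theorem rk_nonneg (k : ℕ) (t : ℝ) : 0 ≤ rk k t := by
  unfold rk
  positivity

theorem inv_mem (t : ℝ) : 0 < 1 / (1 + t ^ 2) ∧ 1 / (1 + t ^ 2) ≤ 1 := by
  constructor
  · positivity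
  · rw [div_le_one (by positivity)]
    nlinarith [sq_nonneg t]

theorem fk_mem (k : ℕ) (t : ℝ) : 0 ≤ fk k t ∧ fk k t ≤ 1 := by
  have h := inv_mem t
  exact ⟨pow_nonneg h.1.le _, pow_le_one₀ h.1.le h.2⟩

theorem inv_deriv (t : ℝ) :
    HasDerivAt (fun t : ℝ => 1 / (1 + t ^ 2)) (-(2 * t) / (1 + t ^ 2) ^ 2) t := by
  have h1 : HasDerivAt (fun t : ℝ => 1 + t ^ 2) (2 * t) t := by
    have := (hasDerivAt_pow 2 t).const_add 1
    simpa using this
  have h2 := h1.inv (by positivity)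
  have h3 : (fun t : ℝ => 1 / (1 + t ^ 2)) = fun t : ℝ => (1 + t ^ 2)⁻¹ := by
    funext t
    rw [one_div]
  rw [h3]
  exact h2

theorem fk_deriv {k : ℕ} (hk : 0 < k) (t : ℝ) :
    HasDerivAt (fk k) (-(2 * k * t) / (1 + t ^ 2) ^ (k + 1)) t := by
  have h1 := (inv_deriv t).pow k
  have h2 : (fun t : ℝ => 1 / (1 + t ^ 2)) ^ k = fk k := by
    funext t
    rfl
  rw [h2] at h1
  convert! h1 using 1
  obtain ⟨j, rfl⟩ : ∃ j, k = j + 1 := ⟨k - 1, by omega⟩
  rw [Nat.add_sub_cancel]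
  have h3 : (1 + t ^ 2) ≠ 0 := by positivity
  rw [div_pow, one_pow]
  push_cast
  field_simp
  ring

theorem fk_image {k : ℕ} (hk : 0 < k) : fk k '' Set.Ioi 0 = Set.Ioo 0 1 := by
  ext u
  constructor
  · rintro ⟨t, ht, rfl⟩
    have h1 : 0 < t := ht
    unfold fk
    constructor
    · positivity
    · refine pow_lt_one₀ (inv_mem t).1.le ?_ hk.ne'
      rw [div_lt_one (by positivity)]
      nlinarith [sq_pos_of_pos h1]
  · rintro ⟨h1, h2⟩
    obtain ⟨p, hp0, hp⟩ : ∃ p : ℝ, 0 < p ∧ p ^ k = u := by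
      refine ⟨u ^ ((k : ℝ)⁻¹), Real.rpow_pos_of_pos h1 _, Real.rpow_inv_natCast_pow h1.le hk.ne'⟩
    have hp1 : p < 1 := by
      by_contra hc
      have := one_le_pow₀ (n := k) (not_lt.1 hc)
      linarith
    have h3 : 0 < 1 / p - 1 := by
      rw [sub_pos, one_lt_div hp0]
      exact hp1
    refine ⟨Real.sqrt (1 / p - 1), Real.sqrt_pos.2 h3, ?_⟩
    unfold fk
    rw [Real.sq_sqrt h3.le, add_sub_cancel, one_div_one_div, hp]

theorem fk_inj {k : ℕ} (hk : 0 < k) : Set.InjOn (fk k) (Set.Ioi 0) := by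
  intro s hs t ht h
  unfold fk at h
  have h1 := (pow_left_inj₀ (inv_mem s).1.le (inv_mem t).1.le hk.ne').1 h
  have h2 : (1 + s ^ 2) ≠ 0 := by positivity
  have h3 : (1 + t ^ 2) ≠ 0 := by positivity
  have h4 : s ^ 2 = t ^ 2 := by
    field_simp at h1
    linarith
  exact (sq_eq_sq₀ (le_of_lt hs) (le_of_lt ht)).1 h4

theorem fk_one {k : ℕ} (hk : 0 < k) (g : ℝ → ℝ≥0∞) :
    ∫⁻ t, ENNReal.ofReal (rk k t) * g (fk k t) = ∫⁻ t in Set.Icc (0 : ℝ) 1, g t := by
  rw [two_one (T := Set.Ioo 0 1) (fk_deriv hk) (fun t => by simp [fk]) (fun t => ?_)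
    (fk_image hk) (fk_inj hk)]
  · exact setLIntegral_congr Ioo_ae_eq_Icc
  · have h1 : (0 : ℝ) < (1 + t ^ 2) ^ (k + 1) := by positivity
    rw [rk, abs_div, abs_neg, abs_mul, abs_of_pos h1, abs_of_nonneg (by positivity)]
    ring

theorem fk_all {k : ℕ} (hk : 0 < k) (N : ℕ) (g : (Fin N → ℝ) → ℝ≥0∞) (hg : Measurable g) :
    ∫⁻ w : Fin N → ℝ, (∏ i, ENNReal.ofReal (rk k (w i))) * g (fun i => fk k (w i)) =
      ∫⁻ u in ucube (Fin N), g u :=
  all_of_one (rk_cont k) (fk_cont k) (fk_one hk) N g hg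

/-- The substitution `s = σ a ^ 2`. -/
theorem sq_one {σ : ℝ} (hσ : 0 < σ) (g : ℝ → ℝ≥0∞) :
    ∫⁻ a, ENNReal.ofReal (σ * |a|) * g (σ * a ^ 2) = ∫⁻ s in Set.Ioi (0 : ℝ), g s := by
  refine two_one (f := fun a => σ * a ^ 2) (f' := fun a => σ * (2 * a)) (fun t => ?_)
    (fun t => by simp) (fun t => ?_) ?_ ?_ g
  · have h1 := (hasDerivAt_pow 2 t).const_mul σ
    simpa using h1
  · rw [abs_mul, abs_mul, abs_of_pos hσ, abs_two]
    ring
  · ext u
    constructor
    · rintro ⟨t, ht, rfl⟩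
      have h1 : 0 < t := ht
      exact Set.mem_Ioi.2 (by positivity)
    · intro hu
      have h1 : 0 < u := hu
      refine ⟨Real.sqrt (u / σ), Real.sqrt_pos.2 (by positivity), ?_⟩
      beta_reduce
      rw [Real.sq_sqrt (by positivity)]
      field_simp
  · intro s hs t ht h
    beta_reduce at h
    have h1 : s ^ 2 = t ^ 2 := mul_left_cancel₀ hσ.ne' h
    exact (sq_eq_sq₀ (le_of_lt hs) (le_of_lt ht)).1 h1

/-- Homogeneous coordinates: `z = (a, a w)`. -/
theorem cone {N : ℕ} {F : (Fin (N + 1) → ℝ) → ℝ≥0∞} (hF : Measurable F) :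
    ∫⁻ z, F z = ∫⁻ w : Fin N → ℝ, ∫⁻ a : ℝ,
      ENNReal.ofReal (|a| ^ N) * F (Fin.cons a fun i => a * w i) := by
  have hm : Measurable fun z : ℝ × (Fin N → ℝ) =>
      F (Fin.cons z.1 fun i => z.1 * z.2 i : Fin (N + 1) → ℝ) := by
    have h1 : Measurable fun z : ℝ × (Fin N → ℝ) => (z.1, fun i => z.1 * z.2 i) := by
      refine measurable_fst.prodMk (measurable_pi_iff.2 fun i => ?_)
      exact measurable_fst.mul ((measurable_pi_apply i).comp measurable_snd)
    exact (hF.comp (meas_cons N)).comp h1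
  rw [fub_cons hF]
  have h2 : ∫⁻ t : ℝ, ∫⁻ w : Fin N → ℝ, F (Fin.cons t w) =
      ∫⁻ t : ℝ, ∫⁻ w : Fin N → ℝ,
        ENNReal.ofReal (|t| ^ N) * F (Fin.cons t fun i => t * w i) := by
    refine lintegral_congr_ae ?_
    have h3 : ({0}ᶜ : Set ℝ) ∈ ae (volume : Measure ℝ) :=
      compl_mem_ae_iff.2 (measure_singleton 0)
    filter_upwards [h3] with t ht
    have ht0 : t ≠ 0 := ht
    rw [lintegral_const_mul' _ _ ENNReal.ofReal_ne_top]
    have h4 : Measurable fun w : Fin N → ℝ => F (Fin.cons t w) :=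
      (hF.comp (meas_cons N)).comp (measurable_const.prodMk measurable_id)
    have h5 := Measure.map_addHaar_smul (volume : Measure (Fin N → ℝ)) ht0
    have h6 : ∫⁻ w : Fin N → ℝ, F (Fin.cons t fun i => t * w i) =
        ENNReal.ofReal |(t ^ N)⁻¹| * ∫⁻ w : Fin N → ℝ, F (Fin.cons t w) := by
      have h7 : (fun w : Fin N → ℝ => F (Fin.cons t fun i => t * w i)) =
          (fun w : Fin N → ℝ => F (Fin.cons t w)) ∘ (t • ·) := by
        funext w
        rfl
      have h9 := lintegral_map (μ := (volume : Measure (Fin N → ℝ))) h4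
        (g := fun w : Fin N → ℝ => t • w) (measurable_const_smul t)
      rw [h7]
      refine h9.symm.trans ?_
      rw [h5, lintegral_smul_measure, Module.finrank_fin_fun]
      rfl
    rw [h6, ← mul_assoc, ← ENNReal.ofReal_mul (by positivity)]
    have h8 : |t| ^ N * |(t ^ N)⁻¹| = 1 := by
      rw [← abs_pow, ← abs_mul, mul_inv_cancel₀ (pow_ne_zero _ ht0), abs_one]
    rw [h8, ENNReal.ofReal_one, one_mul]
  rw [h2]
  refine lintegral_lintegral_swap ?_
  refine Measurable.aemeasurable ?_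
  refine Measurable.mul ?_ hm
  exact (measurable_fst.abs.pow_const N).ennreal_ofReal

end Pool.Agent.OneIneq
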