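import Pool.Agent.W_2cf66e_h3.Line

/-!
# MP_2cf66e_nt, one inequality: positive sets of polynomials in `ℝ^n` (helper3)
-/

set_option autoImplicit false

noncomputable section

open MeasureTheory MvPolynomial
open scoped ENNReal

namespace Pool.Agent.OneIneq

open Pool.Agent.CVol

/-- The product of the `1 + X i ^ 2`. -/
def dn (n : ℕ) : MvPolynomial (Fin n) ℚ := ∏ i, (1 + X i ^ 2)

theorem dn_val {n : ℕ} (w : Fin n → ℝ) : (aeval w (dn n) : ℝ) = ∏ i, (1 + w i ^ 2) := by
  simp [dn]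

theorem dn_pos {n : ℕ} (w : Fin n → ℝ) : 0 < (aeval w (dn n) : ℝ) := by
  rw [dn_val]
  exact Finset.prod_pos fun i _ => by positivity

theorem exists_fold {n : ℕ} (p : MvPolynomial (Fin n) ℚ) :
    ∃ (d : ℕ) (q : MvPolynomial (Fin n) ℚ), ∀ w : Fin n → ℝ,
      (aeval w q : ℝ) = (aeval w (dn n) : ℝ) ^ d * aeval (fun i => fold (w i)) p := by
  induction p using MvPolynomial.induction_on with
  | C a =>
    refine ⟨0, C a, fun w => ?_⟩
    rw [pow_zero, one_mul, aeval_C, aeval_C]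
  | add p q hp hq =>
    obtain ⟨d1, q1, h1⟩ := hp
    obtain ⟨d2, q2, h2⟩ := hq
    refine ⟨d1 + d2, q1 * dn n ^ d2 + q2 * dn n ^ d1, fun w => ?_⟩
    rw [map_add, map_mul, map_mul, map_pow, map_pow, h1 w, h2 w, map_add, pow_add]
    ring
  | mul_X p i hp =>
    obtain ⟨d, q, h⟩ := hp
    refine ⟨d + 1, q * ∏ j ∈ Finset.univ.erase i, (1 + (X j) ^ 2), fun w => ?_⟩
    have h2 : (aeval w (dn n) : ℝ) = (1 + w i ^ 2) *
        ∏ j ∈ Finset.univ.erase i, (1 + w j ^ 2) := by
      rw [dn_val]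
      exact (Finset.mul_prod_erase Finset.univ (fun j => 1 + w j ^ 2) (Finset.mem_univ i)).symm
    have h3 : (aeval w (∏ j ∈ Finset.univ.erase i, (1 + (X j : MvPolynomial (Fin n) ℚ) ^ 2)) : ℝ) =
        ∏ j ∈ Finset.univ.erase i, (1 + w j ^ 2) := by
      simp
    rw [map_mul, h w, h3, map_mul, aeval_X, pow_succ]
    nth_rewrite 3 [h2]
    have h1 : (1 + w i ^ 2) ≠ 0 := by positivity
    rw [fold]
    field_simp

/-- Fubini for the volume of a set. -/
theorem vol_fub {N : ℕ} {S : Set (Fin (N + 1) → ℝ)} (hS : MeasurableSet S) :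
    volume S = ∫⁻ w : Fin N → ℝ, volume {y : ℝ | (Fin.cons y w : Fin (N + 1) → ℝ) ∈ S} := by
  let e := MeasurableEquiv.piFinSuccAbove (fun _ : Fin (N + 1) => ℝ) 0
  have hsymm : ∀ z : ℝ × (Fin N → ℝ), e.symm z = Fin.cons z.1 z.2 := by
    intro z
    have h2 : (e.symm z : Fin (N + 1) → ℝ) = Fin.insertNth 0 z.1 z.2 := rfl
    rw [h2, Fin.insertNth_zero']
  have h1 : volume (e.symm ⁻¹' S) = volume S :=
    (volume_preserving_piFinSuccAbove (fun _ : Fin (N + 1) => ℝ) 0).symm.measure_preimage_equiv S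
  rw [← h1, Measure.volume_eq_prod, Measure.prod_apply_symm (e.symm.measurable hS)]
  refine lintegral_congr fun w => ?_
  congr 1
  ext y
  rw [Set.mem_preimage, Set.mem_preimage, hsymm]
  rfl

/-- A positive rational combination of `L^1` norms is the volume of the positive set of one
polynomial. -/
theorem AV.vol {x : ℝ} (h : AV x) (hx0 : 0 < x) :
    ∃ (n : ℕ) (f : MvPolynomial (Fin n) ℚ),
      volume {u : Fin n → ℝ | 0 < (aeval u f : ℝ)} = ENNReal.ofReal x := by
  obtain ⟨N, L, P, r, e, b, q, he, hs, hb0, hbd, hb4, hx, hR⟩ := h.prep (ε := x / 5) (by positivity)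
  obtain ⟨hR1, hR2⟩ := abs_le.1 hR
  have hr0 : 4 * (x / 5) ≤ (r : ℝ) := by linarith
  have hr : 0 < (r : ℝ) := by linarith
  choose d Q hQ using fun l => exists_fold (P l)
  -- the polynomial
  let D : MvPolynomial (Fin (N + 1)) ℚ := rename Fin.succ (dn N)
  let W : MvPolynomial (Fin (N + 1)) ℚ := rename Fin.succ (∏ i, X i)
  let G : MvPolynomial (Fin (N + 1)) ℚ := X 0 * ((D ^ 2 * X 0 - C r * W) *
    ∏ l, ((D ^ 2 * X 0 - C (r + e l * b l) * W) *
      (D ^ (2 + d l) * X 0 - C (r + e l * b l) * D ^ (d l) * W - rename Fin.succ (Q l) * W)))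
  have hD : ∀ (y : ℝ) (w : Fin N → ℝ), (aeval (Fin.cons y w : Fin (N + 1) → ℝ) D : ℝ) =
      aeval w (dn N) := by
    intro y w
    simp only [D, aeval_rename]
    rfl
  have hW : ∀ (y : ℝ) (w : Fin N → ℝ), (aeval (Fin.cons y w : Fin (N + 1) → ℝ) W : ℝ) =
      ∏ i, w i := by
    intro y w
    simp only [W, aeval_rename, map_prod, aeval_X]
    rfl
  -- the value of the weight
  have hwt : ∀ w : Fin N → ℝ, |(∏ i, w i) / (aeval w (dn N) : ℝ) ^ 2| = ∏ i, rho (w i) := by
    intro w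
    rw [dn_val, ← Finset.prod_pow, ← Finset.prod_div_distrib, Finset.abs_prod]
    refine Finset.prod_congr rfl fun i _ => ?_
    rw [rho, abs_div, abs_of_pos (show (0 : ℝ) < (1 + w i ^ 2) ^ 2 by positivity)]
  have hG : ∀ (y : ℝ) (w : Fin N → ℝ), ∃ T : ℝ, 0 < T ∧
      (aeval (Fin.cons y w : Fin (N + 1) → ℝ) G : ℝ) =
      T * (y * ((y - r * ((∏ i, w i) / (aeval w (dn N) : ℝ) ^ 2)) * ∏ l,
        ((y - ((r : ℝ) + (e l : ℝ) * (b l : ℝ)) * ((∏ i, w i) / (aeval w (dn N) : ℝ) ^ 2)) *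
        (y - ((r : ℝ) + (e l : ℝ) * (b l : ℝ)) * ((∏ i, w i) / (aeval w (dn N) : ℝ) ^ 2) -
          aeval (fun i => fold (w i)) (P l) * ((∏ i, w i) / (aeval w (dn N) : ℝ) ^ 2))))) := by
    intro y w
    have hpos := dn_pos w
    refine ⟨(aeval w (dn N) : ℝ) ^ 2 * ∏ l, ((aeval w (dn N) : ℝ) ^ 2 *
      (aeval w (dn N) : ℝ) ^ (2 + d l)), ?_, ?_⟩
    · refine mul_pos (by positivity) (Finset.prod_pos fun l _ => by positivity)
    · have h1 : ∀ l : Fin L, (aeval (Fin.cons y w : Fin (N + 1) → ℝ)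
          ((D ^ 2 * X 0 - C (r + e l * b l) * W) *
          (D ^ (2 + d l) * X 0 - C (r + e l * b l) * D ^ (d l) * W -
            rename Fin.succ (Q l) * W)) : ℝ) =
          ((aeval w (dn N) : ℝ) ^ 2 * (aeval w (dn N) : ℝ) ^ (2 + d l)) *
          ((y - ((r : ℝ) + (e l : ℝ) * (b l : ℝ)) * ((∏ i, w i) / (aeval w (dn N) : ℝ) ^ 2)) *
        (y - ((r : ℝ) + (e l : ℝ) * (b l : ℝ)) * ((∏ i, w i) / (aeval w (dn N) : ℝ) ^ 2) -
          aeval (fun i => fold (w i)) (P l) * ((∏ i, w i) / (aeval w (dn N) : ℝ) ^ 2))) := by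
        intro l
        have h2 : (aeval (Fin.cons y w : Fin (N + 1) → ℝ) (rename Fin.succ (Q l)) : ℝ) =
            aeval w (Q l) := by
          rw [aeval_rename]
          rfl
        simp only [map_mul, map_sub, map_pow, hD, hW, h2, aeval_X, aeval_C, eq_ratCast,
          Fin.cons_zero, hQ]
        push_cast
        rw [pow_add]
        field_simp
      have h3 : (aeval (Fin.cons y w : Fin (N + 1) → ℝ) (D ^ 2 * X 0 - C r * W) : ℝ) =
          (aeval w (dn N) : ℝ) ^ 2 * (y - r * ((∏ i, w i) / (aeval w (dn N) : ℝ) ^ 2)) := by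
        simp only [map_mul, map_sub, map_pow, hD, hW, aeval_X, aeval_C, eq_ratCast,
          Fin.cons_zero]
        field_simp
      simp only [G]
      rw [map_mul, map_mul, h3, map_prod, Finset.prod_congr rfl fun l _ => h1 l,
        Finset.prod_mul_distrib, aeval_X, Fin.cons_zero]
      ring
  refine ⟨N + 1, -G, ?_⟩
  have hS : MeasurableSet {u : Fin (N + 1) → ℝ | 0 < (aeval u (-G) : ℝ)} :=
    (isOpen_lt continuous_const (HCell_cont (-G))).measurableSet
  rw [vol_fub hS]
  -- the fibre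
  have hW0 : ∀ᵐ w : Fin N → ℝ, (∏ i, w i) ≠ 0 := by
    have h1 := null_rat (∏ i : Fin N, (X i : MvPolynomial (Fin N) ℚ))
      (Finset.prod_ne_zero_iff.2 fun i _ => X_ne_zero i)
    rw [ae_iff]
    refine measure_mono_null (fun w hw => ?_) h1
    have h2 : (∏ i, w i) = 0 := not_not.1 hw
    rw [Set.mem_ofPred_eq]
    simpa using h2
  have hfib : ∀ᵐ w : Fin N → ℝ,
      volume {y : ℝ | (Fin.cons y w : Fin (N + 1) → ℝ) ∈
        {u : Fin (N + 1) → ℝ | 0 < (aeval u (-G) : ℝ)}} =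
      (∏ i, ENNReal.ofReal (rho (w i))) * ENNReal.ofReal (r + ∑ l, (e l : ℝ) *
        |(aeval (fun i => fold (w i)) (P l) : ℝ)|) := by
    filter_upwards [hW0] with w hw
    have hRne : (∏ i, w i) / (aeval w (dn N) : ℝ) ^ 2 ≠ 0 :=
      div_ne_zero hw (pow_ne_zero _ (dn_pos w).ne')
    have hmem : (fun i => fold (w i)) ∈ ucube (Fin N) := mem_ucube.2 fun i => fold_mem (w i)
    have h1 := line_scaled (r := (r : ℝ)) (e := fun l => (e l : ℝ)) (b := fun l => (b l : ℝ))
      (s := fun l => (q l : ℝ)) (p := fun l => (aeval (fun i => fold (w i)) (P l) : ℝ)) he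
      (fun l => hs _ _ hmem) hb0 hbd (fun l => (hb4 l).trans hr0) hr hRne
    rw [← ENNReal.ofReal_prod_of_nonneg fun i _ => rho_nonneg (w i), ← hwt w, ← h1]
    congr 1
    ext y
    rw [Set.mem_ofPred_eq, Set.mem_ofPred_eq, map_neg]
    obtain ⟨T, hT, hTG⟩ := hG y w
    rw [hTG]
    constructor
    · intro h2
      by_contra h3
      have := mul_nonneg hT.le (not_lt.1 h3)
      linarith
    · intro h2
      have := mul_neg_of_pos_of_neg hT h2
      linarith
  rw [lintegral_congr_ae hfib]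
  have hgc : Continuous fun u : Fin N → ℝ => r + ∑ l, (e l : ℝ) * |(aeval u (P l) : ℝ)| := by
    refine continuous_const.add (continuous_finset_sum _ fun l _ => ?_)
    exact continuous_const.mul (HCell_cont (P l)).abs
  rw [fold_all N (fun u => ENNReal.ofReal (r + ∑ l, (e l : ℝ) * |(aeval u (P l) : ℝ)|))
    hgc.measurable.ennreal_ofReal]
  rw [← ofReal_integral_eq_lintegral_ofReal]
  · congr 1
    rw [integral_add, integral_finsetSum]
    · rw [setIntegral_const, ucube_one, one_smul]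
      simp only [integral_const_mul]
      exact hx.symm
    · intro l _
      exact (abs_int _).const_mul _
    · exact integrableOn_const (ucube_compact _).measure_lt_top.ne
    · exact integrable_finsetSum _ fun l _ => (abs_int _).const_mul _
  · exact hgc.continuousOn.integrableOn_compact (ucube_compact _)
  · -- nonnegativity
    rw [Filter.EventuallyLE, ae_restrict_iff' (ucube_meas _)]
    refine Filter.Eventually.of_forall fun u hu => ?_
    have h1 := line_int (r := (r : ℝ)) (e := fun l => (e l : ℝ)) (b := fun l => (b l : ℝ))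
      (s := fun l => (q l : ℝ)) (p := fun l => (aeval u (P l) : ℝ)) he
      (fun l => hs _ _ hu) hb0 hbd (fun l => (hb4 l).trans hr0) hr
    have h2 : 0 ≤ r + ∑ l, (e l : ℝ) * |(aeval u (P l) : ℝ)| := by
      rw [← h1.2]
      exact integral_nonneg fun y => by
        beta_reduce
        split_ifs <;> norm_num
    exact h2

end Pool.Agent.OneIneq
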