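import Pool.Agent.W_2cf66e_h3.Fold

/-!
# MP_2cf66e_nt, one inequality: the fibre on the line (helper3)
-/

set_option autoImplicit false

noncomputable section

open MeasureTheory MvPolynomial
open scoped ENNReal

namespace Pool.Agent.OneIneq

open Pool.Agent.CVol

theorem J_int' (a p : ℝ) :
    Integrable (fun y : ℝ => if (y - a) * (y - a - p) < 0 then (1 : ℝ) else 0) ∧
      ∫ y : ℝ, (if (y - a) * (y - a - p) < 0 then (1 : ℝ) else 0) = |p| := by
  have h2 : (fun y : ℝ => if (y - a) * (y - a - p) < 0 then (1 : ℝ) else 0) =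
      (Set.Ioo (min a (a + p)) (max a (a + p))).indicator fun _ => 1 := by
    funext y
    rw [Set.indicator_apply]
    simp only [J_iff]
  rw [h2]
  constructor
  · exact (integrable_indicator_iff measurableSet_Ioo).2 (integrableOn_const (by simp))
  · rw [integral_indicator measurableSet_Ioo, setIntegral_const,
      measureReal_def, Real.volume_Ioo, ENNReal.toReal_ofReal]
    · rw [max_sub_min_eq_abs]
      simp
    · rw [max_sub_min_eq_abs]
      exact abs_nonneg _

theorem R_int' {r : ℝ} (h0 : 0 ≤ r) :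
    Integrable (fun y : ℝ => if 0 < y ∧ y < r then (1 : ℝ) else 0) ∧
      ∫ y : ℝ, (if 0 < y ∧ y < r then (1 : ℝ) else 0) = r := by
  have h2 : (fun y : ℝ => if 0 < y ∧ y < r then (1 : ℝ) else 0) =
      (Set.Ioo 0 r).indicator fun _ => 1 := by
    funext y
    rw [Set.indicator_apply]
    simp only [Set.mem_Ioo]
  rw [h2]
  constructor
  · exact (integrable_indicator_iff measurableSet_Ioo).2 (integrableOn_const (by simp))
  · rw [integral_indicator measurableSet_Ioo, setIntegral_const,
      measureReal_def, Real.volume_Ioo, ENNReal.toReal_ofReal (by linarith)]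
    simp

section line

variable {L : ℕ} {r : ℝ} {e b s p : Fin L → ℝ}

theorem line_point (he : ∀ l, e l = 1 ∨ e l = -1) (hp : ∀ l, |p l| ≤ s l)
    (hb0 : ∀ l, 0 ≤ b l - s l) (hbd : ∀ l l', l < l' → b l + s l ≤ b l' - s l')
    (hb1 : ∀ l, b l + s l ≤ r) (hr : 0 < r)
    {y : ℝ} (hy0 : y ≠ 0) (hyr : y ≠ r)
    (hy : ∀ l, (y - (r + e l * b l)) * (y - (r + e l * b l) - p l) ≠ 0) :
    (if y * ((y - r) * ∏ l, ((y - (r + e l * b l)) * (y - (r + e l * b l) - p l))) < 0
      then (1 : ℝ) else 0) = (if 0 < y ∧ y < r then (1 : ℝ) else 0) +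
      ∑ l, e l * (if (y - (r + e l * b l)) * (y - (r + e l * b l) - p l) < 0
        then (1 : ℝ) else 0) := by
  have h := fib_point he hp hb0 hbd hyr hy
  rcases lt_or_gt_of_ne hy0 with h0 | h0
  · have hsum : ∑ l, e l * (if (y - (r + e l * b l)) * (y - (r + e l * b l) - p l) < 0
        then (1 : ℝ) else 0) = 0 := by
      refine Finset.sum_eq_zero fun l _ => ?_
      rw [if_neg, mul_zero]
      intro hl
      have h1 := J_abs (hp l) hl
      have h2 := hb0 l
      have h3 := hb1 l
      have h4 := (abs_nonneg _).trans (hp l)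
      rcases he l with h5 | h5 <;> rw [h5] at h1
      · linarith [h1.1]
      · linarith [h1.1]
    rw [hsum, add_zero] at h ⊢
    rw [if_pos (show y < r by linarith)] at h
    have h1 : (y - r) * ∏ l, ((y - (r + e l * b l)) * (y - (r + e l * b l) - p l)) < 0 := by
      by_contra hc
      rw [if_neg hc] at h
      norm_num at h
    rw [if_neg (not_lt.2 (mul_pos_of_neg_of_neg h0 h1).le), if_neg (by
      rintro ⟨h2, -⟩
      linarith)]
  · have h1 : ∀ z : ℝ, y * z < 0 ↔ z < 0 := fun z => by
      constructor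
      · intro h2
        by_contra h3
        exact absurd (mul_nonneg h0.le (not_lt.1 h3)) (not_le.2 h2)
      · intro h2
        exact mul_neg_of_pos_of_neg h0 h2
    simp only [h1, h, h0, true_and]

theorem line_int (he : ∀ l, e l = 1 ∨ e l = -1) (hp : ∀ l, |p l| ≤ s l)
    (hb0 : ∀ l, 0 ≤ b l - s l) (hbd : ∀ l l', l < l' → b l + s l ≤ b l' - s l')
    (hb1 : ∀ l, b l + s l ≤ r) (hr : 0 < r) :
    Integrable (fun y => if y * ((y - r) * ∏ l, ((y - (r + e l * b l)) *
        (y - (r + e l * b l) - p l))) < 0 then (1 : ℝ) else 0) ∧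
      ∫ y : ℝ, (if y * ((y - r) * ∏ l, ((y - (r + e l * b l)) *
        (y - (r + e l * b l) - p l))) < 0 then (1 : ℝ) else 0) = r + ∑ l, e l * |p l| := by
  have hae : ∀ᵐ y : ℝ, y ≠ 0 ∧ y ≠ r ∧
      ∀ l, (y - (r + e l * b l)) * (y - (r + e l * b l) - p l) ≠ 0 := by
    refine (ae_ne' 0).and ((ae_ne' r).and (ae_all_iff.2 fun l => ?_))
    filter_upwards [ae_ne' (r + e l * b l), ae_ne' (r + e l * b l + p l)] with y h1 h2
    refine mul_ne_zero (sub_ne_zero.2 h1) ?_
    intro h
    exact h2 (by linarith)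
  have hEq : (fun y => if y * ((y - r) * ∏ l, ((y - (r + e l * b l)) *
        (y - (r + e l * b l) - p l))) < 0 then (1 : ℝ) else 0) =ᵐ[volume]
      fun y => (if 0 < y ∧ y < r then (1 : ℝ) else 0) +
      ∑ l, e l * (if (y - (r + e l * b l)) * (y - (r + e l * b l) - p l) < 0
        then (1 : ℝ) else 0) := by
    filter_upwards [hae] with y hy
    exact line_point he hp hb0 hbd hb1 hr hy.1 hy.2.1 hy.2.2
  have hi : ∀ l : Fin L, Integrable (fun y : ℝ => e l *
      (if (y - (r + e l * b l)) * (y - (r + e l * b l) - p l) < 0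
        then (1 : ℝ) else 0)) := fun l =>
    (J_int' _ _).1.const_mul _
  have hR := R_int' hr.le
  constructor
  · refine Integrable.congr ?_ hEq.symm
    exact hR.1.add (integrable_finsetSum _ fun l _ => hi l)
  · rw [integral_congr_ae hEq, integral_add hR.1 (integrable_finsetSum _ fun l _ => hi l), hR.2,
      integral_finsetSum _ fun l _ => hi l]
    congr 1
    refine Finset.sum_congr rfl fun l _ => ?_
    rw [integral_const_mul, (J_int' _ _).2]

/-- The length of the negative set. -/
theorem line_vol (he : ∀ l, e l = 1 ∨ e l = -1) (hp : ∀ l, |p l| ≤ s l)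
    (hb0 : ∀ l, 0 ≤ b l - s l) (hbd : ∀ l l', l < l' → b l + s l ≤ b l' - s l')
    (hb1 : ∀ l, b l + s l ≤ r) (hr : 0 < r) :
    volume {y : ℝ | y * ((y - r) * ∏ l, ((y - (r + e l * b l)) *
        (y - (r + e l * b l) - p l))) < 0} = ENNReal.ofReal (r + ∑ l, e l * |p l|) := by
  obtain ⟨h1, h2⟩ := line_int he hp hb0 hbd hb1 hr
  set A : Set ℝ := {y : ℝ | y * ((y - r) * ∏ l, ((y - (r + e l * b l)) *
        (y - (r + e l * b l) - p l))) < 0} with hA
  have hAm : MeasurableSet A := by
    refine (isOpen_lt ?_ continuous_const).measurableSet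
    fun_prop
  have h3 : (fun y => if y * ((y - r) * ∏ l, ((y - (r + e l * b l)) *
        (y - (r + e l * b l) - p l))) < 0 then (1 : ℝ) else 0) = A.indicator fun _ => 1 := by
    funext y
    rw [Set.indicator_apply]
    rfl
  rw [h3] at h1 h2
  have h4 : volume A ≠ ⊤ := by
    rw [integrable_indicator_iff hAm, integrableOn_const_iff] at h1
    · rcases h1 with h1 | h1
      · norm_num at h1
      · exact h1.ne
  rw [integral_indicator hAm, setIntegral_const, smul_eq_mul, mul_one, measureReal_def] at h2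
  rw [← h2, ENNReal.ofReal_toReal h4]

/-- The same after scaling. -/
theorem line_scaled (he : ∀ l, e l = 1 ∨ e l = -1) (hp : ∀ l, |p l| ≤ s l)
    (hb0 : ∀ l, 0 ≤ b l - s l) (hbd : ∀ l l', l < l' → b l + s l ≤ b l' - s l')
    (hb1 : ∀ l, b l + s l ≤ r) (hr : 0 < r) {R : ℝ} (hR : R ≠ 0) :
    volume {y : ℝ | y * ((y - r * R) * ∏ l, ((y - (r + e l * b l) * R) *
        (y - (r + e l * b l) * R - p l * R))) < 0} =
      ENNReal.ofReal |R| * ENNReal.ofReal (r + ∑ l, e l * |p l|) := by
  rw [← line_vol he hp hb0 hbd hb1 hr]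
  have h1 := Real.volume_preimage_mul_left (inv_ne_zero hR) {y : ℝ | y * ((y - r) * ∏ l,
    ((y - (r + e l * b l)) * (y - (r + e l * b l) - p l))) < 0}
  rw [inv_inv] at h1
  rw [← h1]
  congr 1
  ext y
  rw [Set.mem_preimage, Set.mem_ofPred_eq, Set.mem_ofPred_eq]
  have h2 : y * ((y - r * R) * ∏ l, ((y - (r + e l * b l) * R) *
        (y - (r + e l * b l) * R - p l * R))) = (R * R * ∏ _l : Fin L, (R * R)) *
      (R⁻¹ * y * ((R⁻¹ * y - r) * ∏ l, ((R⁻¹ * y - (r + e l * b l)) *
        (R⁻¹ * y - (r + e l * b l) - p l)))) := by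
    have h3 : ∏ l, ((y - (r + e l * b l) * R) * (y - (r + e l * b l) * R - p l * R)) =
        (∏ _l : Fin L, (R * R)) * ∏ l, ((R⁻¹ * y - (r + e l * b l)) *
        (R⁻¹ * y - (r + e l * b l) - p l)) := by
      rw [← Finset.prod_mul_distrib]
      refine Finset.prod_congr rfl fun l _ => ?_
      field_simp
    rw [h3]
    generalize (∏ _l : Fin L, (R * R)) = T
    generalize (∏ l, ((R⁻¹ * y - (r + e l * b l)) * (R⁻¹ * y - (r + e l * b l) - p l))) = T'
    field_simp
  have h4 : 0 < R * R * ∏ _l : Fin L, (R * R) := by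
    have h5 : 0 < R * R := by
      rw [← sq]
      positivity
    exact mul_pos h5 (Finset.prod_pos fun _ _ => h5)
  rw [h2]
  constructor
  · intro h5
    by_contra h6
    exact absurd (mul_nonneg h4.le (not_lt.1 h6)) (not_le.2 h5)
  · intro h5
    exact mul_neg_of_pos_of_neg h4 h5

end line

end Pool.Agent.OneIneq
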