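import Pool.Agent.W_2cf66e_h3.Fib

/-!
# MP_2cf66e_nt, one inequality: construction of the polynomial (helper3)
-/

set_option autoImplicit false

noncomputable section

open MeasureTheory MvPolynomial

namespace Pool.Agent.OneIneq

open Pool.Agent.CVol

theorem mem_ucube {ι : Type} {u : ι → ℝ} : u ∈ ucube ι ↔ ∀ i, 0 ≤ u i ∧ u i ≤ 1 := by
  rw [ucube, Set.mem_Icc, Pi.le_def, Pi.le_def, ← forall_and]

/-- The volume of the positive set in the cube as an integral. -/
theorem vol_int {n : ℕ} (f : MvPolynomial (Fin n) ℚ) :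
    (volume {u : Fin n → ℝ | (∀ i, 0 ≤ u i ∧ u i ≤ 1) ∧ 0 < (aeval u f : ℝ)}).toReal =
      ∫ u in ucube (Fin n), (if (aeval u (-f) : ℝ) < 0 then (1 : ℝ) else 0) := by
  have hT : MeasurableSet {u : Fin n → ℝ | 0 < (aeval u f : ℝ)} :=
    (isOpen_lt continuous_const (HCell_cont f)).measurableSet
  have h1 : (fun u : Fin n → ℝ => if (aeval u (-f) : ℝ) < 0 then (1 : ℝ) else 0) =
      {u : Fin n → ℝ | 0 < (aeval u f : ℝ)}.indicator fun _ => 1 := by
    funext u
    rw [Set.indicator_apply]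
    have h2 : ((aeval u (-f) : ℝ) < 0) ↔ u ∈ {u : Fin n → ℝ | 0 < (aeval u f : ℝ)} := by
      rw [map_neg, Set.mem_ofPred_eq]
      constructor <;> intro h <;> linarith
    simp only [h2]
  have h3 : {u : Fin n → ℝ | (∀ i, 0 ≤ u i ∧ u i ≤ 1) ∧ 0 < (aeval u f : ℝ)} =
      ucube (Fin n) ∩ {u : Fin n → ℝ | 0 < (aeval u f : ℝ)} := by
    ext u
    rw [Set.mem_inter_iff, mem_ucube]
    rfl
  rw [h1, setIntegral_indicator hT, setIntegral_const, ← h3, measureReal_def]
  simp

theorem ucube_one (N : ℕ) : volume.real (ucube (Fin N)) = 1 := by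
  rw [measureReal_def, ucube, Real.volume_Icc_pi_toReal]
  · simp
  · intro i
    norm_num

/-- The data of the construction: rational number `ρ`, signs `e`, radii `q`, positions `b`. -/
theorem AV.prep {x : ℝ} (h : AV x) {ε : ℝ} (hε0 : 0 < ε) :
    ∃ (N L : ℕ) (P : Fin L → MvPolynomial (Fin N) ℚ) (ρ : ℚ) (e b q : Fin L → ℚ),
      (∀ l, (e l : ℝ) = 1 ∨ (e l : ℝ) = -1) ∧
      (∀ l, ∀ z ∈ ucube (Fin N), |(aeval z (P l) : ℝ)| ≤ q l) ∧
      (∀ l, 0 ≤ (b l : ℝ) - q l) ∧ (∀ l l', l < l' → (b l : ℝ) + q l ≤ (b l' : ℝ) - q l') ∧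
      (∀ l, (b l : ℝ) + q l ≤ 4 * ε) ∧
      x = ρ + ∑ l, (e l : ℝ) * ∫ z in ucube (Fin N), |(aeval z (P l) : ℝ)| ∧
      |x - ρ| ≤ ε := by
  classical
  obtain ⟨N, α, iα, r, σ, P, s, hs, hsum, hx⟩ := h.small hε0
  set L := Fintype.card α with hL
  let φ := Fintype.equivFin α
  -- rational radii
  have hq : ∀ l : Fin L, ∃ q : ℚ, s (φ.symm l) < q ∧ (q : ℝ) < s (φ.symm l) + ε / (L + 1) :=
    fun l => exists_rat_btwn (by linarith [show 0 < ε / (L + 1) by positivity])
  choose q hq1 hq2 using hq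
  have hzero : (fun _ => 0 : Fin N → ℝ) ∈ ucube (Fin N) := mem_ucube.2 fun _ => by norm_num
  have hs0 : ∀ c, 0 ≤ s c := fun c => (abs_nonneg _).trans (hs c _ hzero)
  have hq0 : ∀ l, 0 ≤ (q l : ℝ) := fun l => (hs0 _).trans (hq1 l).le
  have hsumq : ∑ l, (q l : ℝ) ≤ 2 * ε := by
    have h2 : ∑ l, (q l : ℝ) ≤ ∑ l : Fin L, (s (φ.symm l) + ε / (L + 1)) :=
      Finset.sum_le_sum fun l _ => (hq2 l).le
    rw [Finset.sum_add_distrib, Equiv.sum_comp φ.symm s, Finset.sum_const, Finset.card_univ,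
      Fintype.card_fin, nsmul_eq_mul] at h2
    have h3 : (L : ℝ) * (ε / (L + 1)) ≤ ε := by
      rw [← mul_div_assoc, div_le_iff₀ (by positivity)]
      nlinarith
    linarith
  -- centres
  let b : Fin L → ℚ := fun l => 2 * (∑ j ∈ Finset.Iio l, q j) + q l
  have hb : ∀ l, ((b l : ℚ) : ℝ) = 2 * (∑ j ∈ Finset.Iio l, (q j : ℝ)) + q l := by
    intro l
    simp only [b]
    push_cast
    rfl
  have hpart : ∀ l : Fin L, ∑ j ∈ Finset.Iio l, (q j : ℝ) + q l ≤ ∑ j, (q j : ℝ) := by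
    intro l
    have h2 : ∑ j ∈ insert l (Finset.Iio l), (q j : ℝ) ≤ ∑ j, (q j : ℝ) :=
      Finset.sum_le_sum_of_subset_of_nonneg (Finset.subset_univ _) fun j _ _ => hq0 j
    rw [Finset.sum_insert (by simp)] at h2
    linarith
  have hb0 : ∀ l, 0 ≤ (b l : ℝ) - q l := by
    intro l
    rw [hb]
    have := Finset.sum_nonneg fun j (_ : j ∈ Finset.Iio l) => hq0 j
    linarith
  have hb4 : ∀ l, (b l : ℝ) + q l ≤ 4 * ε := by
    intro l
    rw [hb]
    have := hpart l
    linarith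
  have hbd : ∀ l l', l < l' → (b l : ℝ) + q l ≤ (b l' : ℝ) - q l' := by
    intro l l' hl
    rw [hb, hb]
    have h2 : ∑ j ∈ insert l (Finset.Iio l), (q j : ℝ) ≤ ∑ j ∈ Finset.Iio l', (q j : ℝ) := by
      refine Finset.sum_le_sum_of_subset_of_nonneg (fun j hj => ?_) fun j _ _ => hq0 j
      rw [Finset.mem_insert, Finset.mem_Iio] at hj
      rw [Finset.mem_Iio]
      rcases hj with rfl | hj
      · exact hl
      · exact hj.trans hl
    rw [Finset.sum_insert (by simp)] at h2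
    linarith
  let e : Fin L → ℚ := fun l => if σ (φ.symm l) then 1 else -1
  have he : ∀ l, (e l : ℝ) = 1 ∨ (e l : ℝ) = -1 := by
    intro l
    simp only [e]
    by_cases h2 : σ (φ.symm l) = true
    · left
      rw [if_pos h2]
      norm_num
    · right
      rw [if_neg h2]
      norm_num
  have hx' : x = (r : ℝ) + ∑ l, (e l : ℝ) *
      ∫ z in ucube (Fin N), |(aeval z (P (φ.symm l)) : ℝ)| := by
    have h2 : ∑ l, (e l : ℝ) * ∫ z in ucube (Fin N), |(aeval z (P (φ.symm l)) : ℝ)| =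
        ∑ c, (if σ c then (1 : ℝ) else -1) * ∫ z in ucube (Fin N), |(aeval z (P c) : ℝ)| := by
      rw [← Equiv.sum_comp φ.symm fun c => (if σ c then (1 : ℝ) else -1) *
        ∫ z in ucube (Fin N), |(aeval z (P c) : ℝ)|]
      refine Finset.sum_congr rfl fun l _ => ?_
      congr 1
      simp only [e]
      split_ifs <;> norm_num
    rw [h2, hx]
  -- bounds for the rational part
  have hI : ∀ c, |(∫ z in ucube (Fin N), |(aeval z (P c) : ℝ)| : ℝ)| ≤ s c := by
    intro c
    have h2 := norm_setIntegral_le_of_norm_le_const (μ := volume) (C := s c)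
      (f := fun z => |(aeval z (P c) : ℝ)|) (s := ucube (Fin N))
      (ucube_compact _).measure_lt_top fun z hz => by
        rw [Real.norm_eq_abs, abs_abs]
        exact hs c z hz
    rw [ucube_one, mul_one, Real.norm_eq_abs] at h2
    exact h2
  have hR : |x - (r : ℝ)| ≤ ε := by
    rw [hx', add_sub_cancel_left]
    refine (Finset.abs_sum_le_sum_abs _ _).trans (le_trans ?_ hsum)
    rw [← Equiv.sum_comp φ.symm s]
    refine Finset.sum_le_sum fun l _ => ?_
    rw [abs_mul]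
    have h2 : |(e l : ℝ)| = 1 := by
      rcases he l with h3 | h3 <;> rw [h3] <;> norm_num
    rw [h2, one_mul]
    exact hI _
  exact ⟨N, L, fun l => P (φ.symm l), r, e, b, q, he,
    fun l z hz => (hs _ z hz).trans (hq1 l).le, hb0, hbd, hb4, hx', hR⟩

theorem AV.prob {x : ℝ} (h : AV x) (a : ℤ) (h0 : 0 < x - a) (h1 : x - a < 1) :
    ∃ (n : ℕ) (f : MvPolynomial (Fin n) ℚ),
      x = a + (volume {u : Fin n → ℝ | (∀ i, 0 ≤ u i ∧ u i ≤ 1) ∧
        0 < (aeval u f : ℝ)}).toReal := by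
  set t : ℝ := x - a with ht
  set ε : ℝ := min t (1 - t) / 5 with hε
  have hε0 : 0 < ε := by
    have := lt_min h0 (sub_pos.2 h1)
    positivity
  have hεt : 5 * ε ≤ t := by
    have := min_le_left t (1 - t)
    rw [hε]
    linarith
  have hεt' : 5 * ε ≤ 1 - t := by
    have := min_le_right t (1 - t)
    rw [hε]
    linarith
  obtain ⟨N, L, P, r, e, b, q, he, hs, hb0, hbd, hb4, hx, hR⟩ := h.prep hε0
  have hρx : ((r - a : ℚ) : ℝ) = (r : ℝ) - a := by push_cast; rfl
  set ρ : ℚ := r - a with hρ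
  have hx' : t = (ρ : ℝ) + ∑ l, (e l : ℝ) *
      ∫ z in ucube (Fin N), |(aeval z (P l) : ℝ)| := by
    rw [ht, hρx]
    linarith
  obtain ⟨hR1, hR2⟩ := abs_le.1 hR
  have hr0 : 4 * ε ≤ (ρ : ℝ) := by linarith
  have hr1 : 4 * ε ≤ 1 - (ρ : ℝ) := by linarith
  -- the polynomial
  let G : MvPolynomial (Fin (N + 1)) ℚ := (X 0 - C ρ) * ∏ l, ((X 0 - C (ρ + e l * b l)) *
    (X 0 - C (ρ + e l * b l) - rename Fin.succ (P l)))
  have hG : ∀ (y : ℝ) (w : Fin N → ℝ), (aeval (Fin.cons y w : Fin (N + 1) → ℝ) G : ℝ) =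
      (y - ρ) * ∏ l, ((y - ((ρ : ℝ) + (e l : ℝ) * (b l : ℝ))) *
        (y - ((ρ : ℝ) + (e l : ℝ) * (b l : ℝ)) - aeval w (P l))) := by
    intro y w
    simp only [G, map_mul, map_prod, map_sub, aeval_X, aeval_C, aeval_rename, Fin.cons_zero,
      eq_ratCast]
    push_cast
    rfl
  refine ⟨N + 1, -G, ?_⟩
  rw [vol_int, neg_neg]
  have hfib := fun (w : Fin N → ℝ) (hw : w ∈ ucube (Fin N)) =>
    fib_int (r := (ρ : ℝ)) (e := fun l => (e l : ℝ)) (b := fun l => (b l : ℝ))
      (s := fun l => (q l : ℝ)) (p := fun l => (aeval w (P l) : ℝ)) he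
      (fun l => hs _ w hw) hb0 hbd (fun l => (hb4 l).trans hr0)
      (fun l => (hb4 l).trans hr1) (by linarith) (by linarith)
  have hmeas : Measurable fun u : Fin (N + 1) → ℝ =>
      if (aeval u G : ℝ) < 0 then (1 : ℝ) else 0 := by
    refine Measurable.ite ?_ measurable_const measurable_const
    exact (isOpen_lt (HCell_cont G) continuous_const).measurableSet
  have hkey := KVal_fub (fun u => if (aeval u G : ℝ) < 0 then (1 : ℝ) else 0) hmeas
    (fun w => (ρ : ℝ) + ∑ l, (e l : ℝ) * |(aeval w (P l) : ℝ)|) 1 (by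
      rw [ae_restrict_iff' (ucube_meas _)]
      refine Filter.Eventually.of_forall fun w hw => ?_
      have h2 := hfib w hw
      beta_reduce
      simp only [hG]
      refine ⟨h2.1, h2.2, ?_⟩
      refine le_trans (setIntegral_mono_on (g := fun _ => (1 : ℝ)) ?_ ?_ measurableSet_Icc ?_) ?_
      · exact h2.1.abs
      · exact integrableOn_const (by simp)
      · intro y _
        split_ifs <;> norm_num
      · rw [setIntegral_const, measureReal_def, Real.volume_Icc]
        simp)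
  rw [hkey.2, integral_add, integral_finsetSum]
  · rw [setIntegral_const, ucube_one, one_smul]
    simp only [integral_const_mul]
    rw [← hx', ht]
    ring
  · intro l _
    exact (abs_int _).const_mul _
  · exact integrableOn_const (ucube_compact _).measure_lt_top.ne
  · exact integrable_finsetSum _ fun l _ => (abs_int _).const_mul _

end Pool.Agent.OneIneq
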