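import Pool.Agent.W_2cf66e_h3.Disc

/-!
# MP_2cf66e_nt, one inequality: the integral of the square root of `t^2 (1 - t^2)` (helper3)
-/

set_option autoImplicit false

noncomputable section

open MeasureTheory MvPolynomial
open scoped ENNReal

namespace Pool.Agent.OneIneq

open Pool.Agent.CVol

/-- The profile. -/
def qf (t : ℝ) : ℝ := t ^ 2 * (1 - t ^ 2)

theorem qf_cont : Continuous qf := by
  unfold qf
  fun_prop

theorem qf_sqrt (t : ℝ) : Real.sqrt (qf t) = |t| * Real.sqrt (1 - |t| ^ 2) := by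
  rw [qf, Real.sqrt_mul (sq_nonneg t), Real.sqrt_sq_eq_abs, sq_abs]

theorem qf_pos {t : ℝ} (h : 0 < qf t) : |t| < 1 := by
  unfold qf at h
  by_contra hc
  have h1 : 1 ≤ |t| ^ 2 := one_le_pow₀ (not_lt.1 hc)
  rw [sq_abs] at h1
  nlinarith [sq_nonneg t]

theorem qf_half (t : ℝ) : Real.sqrt (qf t) ≤ 1 / 2 := by
  rw [Real.sqrt_le_left (by norm_num)]
  unfold qf
  nlinarith [sq_nonneg (t ^ 2 - 1 / 2)]

theorem qf_zero {t : ℝ} (h : 1 ≤ |t|) : Real.sqrt (qf t) = 0 := by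
  refine Real.sqrt_eq_zero_of_nonpos ?_
  by_contra hc
  exact absurd (qf_pos (not_le.1 hc)) (not_lt.2 h)

theorem qf_int : Integrable (fun t => Real.sqrt (qf t)) := by
  have h1 : (fun t => Real.sqrt (qf t)) = (Set.Icc (-1 : ℝ) 1).indicator
      fun t => Real.sqrt (qf t) := by
    funext t
    by_cases h : t ∈ Set.Icc (-1 : ℝ) 1
    · rw [Set.indicator_of_mem h]
    · rw [Set.indicator_of_notMem h]
      refine qf_zero ?_
      by_contra hc
      exact h (abs_le.1 (not_le.1 hc).le)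
  rw [h1, integrable_indicator_iff measurableSet_Icc]
  exact (Real.continuous_sqrt.comp qf_cont).continuousOn.integrableOn_compact isCompact_Icc

theorem qf_half_int : ∫ t in (0 : ℝ)..1, t * Real.sqrt (1 - t ^ 2) = 1 / 3 := by
  have h1 : ∀ t ∈ Set.Ioo (0 : ℝ) 1, HasDerivAt
      (fun t : ℝ => -(1 / 3) * ((1 - t ^ 2) * Real.sqrt (1 - t ^ 2)))
      (t * Real.sqrt (1 - t ^ 2)) t := by
    intro t ht
    have h2 : 0 < 1 - t ^ 2 := by nlinarith [ht.1, ht.2]
    have h3 : HasDerivAt (fun t : ℝ => 1 - t ^ 2) (-(2 * t)) t := by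
      have := (hasDerivAt_pow 2 t).const_sub 1
      simpa using this
    have h4 := (h3.mul (h3.sqrt h2.ne')).const_mul (-(1 / 3) : ℝ)
    convert! h4 using 1
    have h5 : Real.sqrt (1 - t ^ 2) ≠ 0 := (Real.sqrt_pos.2 h2).ne'
    have h6 : Real.sqrt (1 - t ^ 2) ^ 2 = 1 - t ^ 2 := Real.sq_sqrt h2.le
    field_simp
    rw [h6]
    ring
  rw [intervalIntegral.integral_eq_sub_of_hasDerivAt_of_le zero_le_one ?_ h1 ?_]
  · simp
  · refine Continuous.continuousOn ?_
    fun_prop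
  · refine Continuous.intervalIntegrable ?_ _ _
    fun_prop

theorem qf_val : ∫ t, Real.sqrt (qf t) = 2 / 3 := by
  have h1 : ∫ t, Real.sqrt (qf t) = ∫ t : ℝ, (fun u : ℝ => u * Real.sqrt (1 - u ^ 2)) |t| := by
    refine integral_congr_ae (Filter.Eventually.of_forall fun t => ?_)
    exact qf_sqrt t
  have h0 := integral_comp_abs (f := fun u : ℝ => u * Real.sqrt (1 - u ^ 2))
  beta_reduce at h0 h1
  rw [h1, h0]
  have h2 : ∫ t in Set.Ioi (0 : ℝ), t * Real.sqrt (1 - t ^ 2) =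
      ∫ t in Set.Ioc (0 : ℝ) 1, t * Real.sqrt (1 - t ^ 2) := by
    refine (setIntegral_eq_of_subset_of_forall_diff_eq_zero measurableSet_Ioi
      Set.Ioc_subset_Ioi_self fun t ht => ?_)
    have h3 : 1 < t := by
      by_contra hc
      exact ht.2 ⟨ht.1, not_lt.1 hc⟩
    rw [Real.sqrt_eq_zero_of_nonpos (by nlinarith), mul_zero]
  rw [h2, ← intervalIntegral.integral_of_le zero_le_one, qf_half_int]
  norm_num

/-- The base of the fibre. -/
def bs (s : ℝ) : ℝ := Real.sqrt (qf (s - 2))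

/-- The lobes of the fibre. -/
def lb (s : ℝ) : ℝ := Real.sqrt (qf (10 * (s - 2) - 7))

theorem bs_int : Integrable bs := qf_int.comp_sub_right 2

theorem bs_val : ∫ s, bs s = 2 / 3 := by
  rw [← qf_val]
  exact integral_sub_right_eq_self (fun t => Real.sqrt (qf t)) 2

theorem lb_eq : lb = fun s => (fun t => Real.sqrt (qf t)) (10 * s - 27) := by
  funext s
  unfold lb
  congr 2
  ring

theorem lb_int : Integrable lb := by
  rw [lb_eq]
  exact (qf_int.comp_sub_right 27).comp_mul_left' (by norm_num : (10 : ℝ) ≠ 0)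

theorem lb_val : ∫ s, lb s = 1 / 15 := by
  rw [lb_eq]
  have h1 := Measure.integral_comp_mul_left (fun t => Real.sqrt (qf (t - 27))) (10 : ℝ)
  beta_reduce at h1 ⊢
  rw [h1, integral_sub_right_eq_self (fun t => Real.sqrt (qf t)) 27, qf_val, smul_eq_mul]
  norm_num

theorem bs_nonneg (s : ℝ) : 0 ≤ bs s := Real.sqrt_nonneg _

theorem lb_nonneg (s : ℝ) : 0 ≤ lb s := Real.sqrt_nonneg _

theorem bs_le (s : ℝ) : bs s ≤ 1 / 2 := qf_half _

theorem lb_le (s : ℝ) : lb s ≤ 1 / 2 := qf_half _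

/-- Where the lobes live the base is thick. -/
theorem bs_ge {s : ℝ} (h : 0 < qf (10 * (s - 2) - 7)) : 12 / 25 ≤ bs s := by
  have h1 := abs_lt.1 (qf_pos h)
  have h2 : (6 / 10 : ℝ) < s - 2 := by linarith [h1.1]
  have h3 : s - 2 < (8 / 10 : ℝ) := by linarith [h1.2]
  refine Real.le_sqrt_of_sq_le ?_
  unfold qf
  have h4 : (36 / 100 : ℝ) ≤ (s - 2) ^ 2 := by nlinarith
  have h5 : (s - 2) ^ 2 ≤ (64 / 100 : ℝ) := by nlinarith
  nlinarith

theorem bs_out {s : ℝ} (h : s ≤ 1) : bs s = 0 := by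
  refine qf_zero ?_
  rw [abs_of_nonpos (by linarith)]
  linarith

theorem lb_out {s : ℝ} (h : s ≤ 1) : lb s = 0 := by
  refine qf_zero ?_
  rw [abs_of_nonpos (by linarith)]
  linarith

end Pool.Agent.OneIneq
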