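import Mathlib

/-!
# MP_2cf66e_nt, one inequality: the definition used in the statement (helper3)
-/

set_option autoImplicit false

noncomputable section

namespace Pool.Agent.OneIneq

/-- The square matrix each of whose entries is `0`, `1` or one of the numbers `u_1, ..., u_n`: its
`(i, j)` entry is the coordinate with number `c i j` of the vector `(0, 1, u_1, ..., u_n)`. -/
def mat {n N : ℕ} (c : Fin N → Fin N → Fin (n + 2)) (u : Fin n → ℝ) :
    Matrix (Fin N) (Fin N) ℝ :=
  Matrix.of fun i j => (Fin.cons 0 (Fin.cons 1 u) : Fin (n + 2) → ℝ) (c i j)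

end Pool.Agent.OneIneq
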