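import Pool.Agent.W_2cf66e_h3.Prob

/-!
# MP_2cf66e_nt, one inequality: two-to-one substitutions (helper3)
-/

set_option autoImplicit false

noncomputable section

open MeasureTheory MvPolynomial
open scoped ENNReal

namespace Pool.Agent.OneIneq

open Pool.Agent.CVol

/-- Substitution with an even function. -/
theorem two_one {f f' ρ : ℝ → ℝ} {T : Set ℝ} (hf : ∀ t, HasDerivAt f (f' t) t)
    (heven : ∀ t, f (-t) = f t) (hρ : ∀ t, |f' t| = 2 * ρ t) (himg : f '' Set.Ioi 0 = T)
    (hinj : Set.InjOn f (Set.Ioi 0)) (g : ℝ → ℝ≥0∞) :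
    ∫⁻ t, ENNReal.ofReal (ρ t) * g (f t) = ∫⁻ t in T, g t := by
  have himg' : f '' Set.Iio 0 = T := by
    rw [← himg]
    ext u
    constructor
    · rintro ⟨t, ht, rfl⟩
      have h1 : t < 0 := ht
      exact ⟨-t, Set.mem_Ioi.2 (by linarith), heven t⟩
    · rintro ⟨t, ht, rfl⟩
      have h1 : 0 < t := ht
      exact ⟨-t, Set.mem_Iio.2 (by linarith), heven t⟩
  have hinj' : Set.InjOn f (Set.Iio 0) := by
    intro s hs t ht h
    have h1 : s < 0 := hs
    have h2 : t < 0 := ht
    have h3 := hinj (Set.mem_Ioi.2 (by linarith : 0 < -s)) (Set.mem_Ioi.2 (by linarith : 0 < -t))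
      (by rw [heven, heven, h])
    linarith
  have hp : ∫⁻ t in T, g t = ∫⁻ t in Set.Ioi (0 : ℝ), ENNReal.ofReal (2 * ρ t) * g (f t) := by
    rw [← himg, lintegral_image_eq_lintegral_abs_deriv_mul measurableSet_Ioi
      (fun t _ => (hf t).hasDerivWithinAt) hinj]
    simp only [hρ]
  have hn : ∫⁻ t in T, g t = ∫⁻ t in Set.Iio (0 : ℝ), ENNReal.ofReal (2 * ρ t) * g (f t) := by
    rw [← himg', lintegral_image_eq_lintegral_abs_deriv_mul measurableSet_Iio
      (fun t _ => (hf t).hasDerivWithinAt) hinj']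
    simp only [hρ]
  have h2 : ∫⁻ t, ENNReal.ofReal (2 * ρ t) * g (f t) =
      (∫⁻ t in T, g t) + ∫⁻ t in T, g t := by
    nth_rewrite 1 [hp]
    rw [hn, ← lintegral_union measurableSet_Iio]
    · rw [← setLIntegral_univ]
      refine setLIntegral_congr ?_
      have h3 : Set.Ioi (0 : ℝ) ∪ Set.Iio 0 = {0}ᶜ := by
        ext t
        simp only [Set.mem_union, Set.mem_Ioi, Set.mem_Iio, Set.mem_compl_iff,
          Set.mem_singleton_iff]
        constructor
        · rintro (h | h) h0
          · rw [h0] at h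
            exact lt_irrefl _ h
          · rw [h0] at h
            exact lt_irrefl _ h
        · intro h
          exact (lt_or_gt_of_ne h).symm
      rw [h3]
      have h4 : ({0}ᶜ : Set ℝ) ∈ ae (volume : Measure ℝ) :=
        compl_mem_ae_iff.2 (measure_singleton 0)
      exact (Filter.eventuallyEq_univ.2 h4).symm
    · rw [Set.disjoint_left]
      intro t h h'
      exact lt_asymm (show (0 : ℝ) < t from h) (show t < 0 from h')
  have h3 : ∫⁻ t, ENNReal.ofReal (2 * ρ t) * g (f t) =
      2 * ∫⁻ t, ENNReal.ofReal (ρ t) * g (f t) := by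
    rw [← lintegral_const_mul' _ _ (by norm_num)]
    refine lintegral_congr fun t => ?_
    rw [ENNReal.ofReal_mul (by norm_num), mul_assoc]
    simp
  rw [h3, ← two_mul] at h2
  exact (ENNReal.mul_right_inj (by norm_num) (by norm_num)).1 h2

/-- Fubini in the variable `0`. -/
theorem fub_cons {N : ℕ} {F : (Fin (N + 1) → ℝ) → ℝ≥0∞} (hF : Measurable F) :
    ∫⁻ z, F z = ∫⁻ t : ℝ, ∫⁻ w : Fin N → ℝ, F (Fin.cons t w) := by
  let e := MeasurableEquiv.piFinSuccAbove (fun _ : Fin (N + 1) => ℝ) 0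
  have hsymm : ∀ z : ℝ × (Fin N → ℝ), e.symm z = Fin.cons z.1 z.2 := by
    intro z
    have h2 : (e.symm z : Fin (N + 1) → ℝ) = Fin.insertNth 0 z.1 z.2 := rfl
    rw [h2, Fin.insertNth_zero']
  rw [← (volume_preserving_piFinSuccAbove (fun _ : Fin (N + 1) => ℝ) 0).symm.lintegral_comp_emb
    e.symm.measurableEmbedding]
  rw [Measure.volume_eq_prod, lintegral_prod]
  · refine lintegral_congr fun t => lintegral_congr fun w => ?_
    exact congrArg F (hsymm (t, w))
  · exact (hF.comp e.symm.measurable).aemeasurable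

theorem meas_cons (N : ℕ) :
    Measurable fun z : ℝ × (Fin N → ℝ) => (Fin.cons z.1 z.2 : Fin (N + 1) → ℝ) := by
  let e := MeasurableEquiv.piFinSuccAbove (fun _ : Fin (N + 1) => ℝ) 0
  have h2 : (fun z : ℝ × (Fin N → ℝ) => (Fin.cons z.1 z.2 : Fin (N + 1) → ℝ)) = e.symm := by
    funext z
    have h2 : (e.symm z : Fin (N + 1) → ℝ) = Fin.insertNth 0 z.1 z.2 := rfl
    rw [h2, Fin.insertNth_zero']
  rw [h2]
  exact e.symm.measurable

/-- The same for the cube. -/
theorem fub_cube {N : ℕ} {F : (Fin (N + 1) → ℝ) → ℝ≥0∞} (hF : Measurable F) :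
    ∫⁻ z in ucube (Fin (N + 1)), F z =
      ∫⁻ t in Set.Icc (0 : ℝ) 1, ∫⁻ w in ucube (Fin N), F (Fin.cons t w) := by
  have hP := KVal_prob
  set P : Measure ℝ := (volume : Measure ℝ).restrict (Set.Icc 0 1) with hPdef
  let e := MeasurableEquiv.piFinSuccAbove (fun _ : Fin (N + 1) => ℝ) 0
  have hsymm : ∀ z : ℝ × (Fin N → ℝ), e.symm z = Fin.cons z.1 z.2 := by
    intro z
    have h2 : (e.symm z : Fin (N + 1) → ℝ) = Fin.insertNth 0 z.1 z.2 := rfl
    rw [h2, Fin.insertNth_zero']
  rw [KVal_pi, KVal_pi]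
  rw [← (measurePreserving_piFinSuccAbove (fun _ : Fin (N + 1) => P) 0).symm.lintegral_comp_emb
    e.symm.measurableEmbedding]
  rw [lintegral_prod]
  · refine lintegral_congr fun t => lintegral_congr fun w => ?_
    exact congrArg F (hsymm (t, w))
  · exact (hF.comp e.symm.measurable).aemeasurable

/-- Products of one variable substitutions. -/
theorem all_of_one {ρ φ : ℝ → ℝ} (hρ : Continuous ρ) (hφ : Continuous φ)
    (h1 : ∀ g : ℝ → ℝ≥0∞, ∫⁻ t, ENNReal.ofReal (ρ t) * g (φ t) = ∫⁻ t in Set.Icc (0 : ℝ) 1, g t) :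
    ∀ (N : ℕ) (g : (Fin N → ℝ) → ℝ≥0∞), Measurable g →
    ∫⁻ w : Fin N → ℝ, (∏ i, ENNReal.ofReal (ρ (w i))) * g (fun i => φ (w i)) =
      ∫⁻ u in ucube (Fin N), g u := by
  intro N
  induction N with
  | zero =>
    intro g _
    have h1 : ucube (Fin 0) = Set.univ := by
      ext u
      simp [mem_ucube]
    rw [h1, setLIntegral_univ]
    refine lintegral_congr fun w => ?_
    rw [Finset.univ_eq_empty, Finset.prod_empty, one_mul]
    congr 1
    exact Subsingleton.elim _ _
  | succ N ih =>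
    intro g hg
    have hgm : Measurable fun z : ℝ × (Fin N → ℝ) => g (Fin.cons z.1 z.2) :=
      hg.comp (meas_cons N)
    have h3 : Measurable fun w : Fin (N + 1) → ℝ => (∏ i, ENNReal.ofReal (ρ (w i))) *
        g (fun i => φ (w i)) := by
      refine Measurable.mul ?_ ?_
      · exact Finset.measurable_prod _ fun i _ =>
          (hρ.measurable.comp (measurable_pi_apply i)).ennreal_ofReal
      · exact hg.comp (measurable_pi_iff.2 fun i =>
          hφ.measurable.comp (measurable_pi_apply i))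
    rw [fub_cons h3, fub_cube hg, ← h1]
    refine lintegral_congr fun t => ?_
    rw [← ih (fun u => g (Fin.cons (φ t) u)) (hgm.comp (measurable_const.prodMk measurable_id)),
      ← lintegral_const_mul' _ _ ENNReal.ofReal_ne_top]
    refine lintegral_congr fun w => ?_
    rw [Fin.prod_univ_succ, ← mul_assoc]
    simp only [Fin.cons_zero, Fin.cons_succ]
    congr 2
    funext i
    refine Fin.cases ?_ (fun j => ?_) i
    · simp
    · simp

end Pool.Agent.OneIneq
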