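import Pool.Agent.W_2cf66e_h3.QInt

/-!
# MP_2cf66e_nt, one inequality: the homogeneous weight (helper3)
-/

set_option autoImplicit false

noncomputable section

open MeasureTheory MvPolynomial
open scoped ENNReal

namespace Pool.Agent.OneIneq

open Pool.Agent.CVol

/-- `∏ (a² + b_i²)`. -/
def D0 (N : ℕ) : MvPolynomial (Fin (N + 1)) ℚ := ∏ i : Fin N, (X 0 ^ 2 + X i.succ ^ 2)

/-- `a² + ∑ b_i²`. -/
def S0 (N : ℕ) : MvPolynomial (Fin (N + 1)) ℚ := X 0 ^ 2 + ∑ i : Fin N, X i.succ ^ 2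

/-- `∏ b_i`. -/
def W0 (N : ℕ) : MvPolynomial (Fin (N + 1)) ℚ := ∏ i : Fin N, X i.succ

/-- The denominator of the weight. -/
def D1 (k N : ℕ) : MvPolynomial (Fin (N + 1)) ℚ := D0 N ^ (k + 1) * X 0 ^ 2

/-- The numerator of the weight. -/
def Z1 (k N : ℕ) : MvPolynomial (Fin (N + 1)) ℚ :=
  C ((k : ℚ) ^ N) * S0 N * W0 N * X 0 ^ (2 * N * k + 1)

section

variable {k N : ℕ}

theorem D0_val (z : Fin (N + 1) → ℝ) :
    (aeval z (D0 N) : ℝ) = ∏ i : Fin N, (z 0 ^ 2 + z i.succ ^ 2) := by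
  simp [D0]

theorem S0_val (z : Fin (N + 1) → ℝ) :
    (aeval z (S0 N) : ℝ) = z 0 ^ 2 + ∑ i : Fin N, z i.succ ^ 2 := by
  simp [S0]

theorem W0_val (z : Fin (N + 1) → ℝ) : (aeval z (W0 N) : ℝ) = ∏ i : Fin N, z i.succ := by
  simp [W0]

theorem D1_val (z : Fin (N + 1) → ℝ) :
    (aeval z (D1 k N) : ℝ) = (aeval z (D0 N) : ℝ) ^ (k + 1) * z 0 ^ 2 := by
  simp [D1]

theorem Z1_val (z : Fin (N + 1) → ℝ) :
    (aeval z (Z1 k N) : ℝ) = (k : ℝ) ^ N * aeval z (S0 N) * aeval z (W0 N) *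
      z 0 ^ (2 * N * k + 1) := by
  simp [Z1]

theorem D0_pos {z : Fin (N + 1) → ℝ} (hz : z 0 ≠ 0) : 0 < (aeval z (D0 N) : ℝ) := by
  rw [D0_val]
  exact Finset.prod_pos fun i _ => by positivity

theorem D1_ne {z : Fin (N + 1) → ℝ} (hz : z 0 ≠ 0) : (aeval z (D1 k N) : ℝ) ≠ 0 := by
  rw [D1_val]
  have := D0_pos hz
  positivity

/-- `1 + ∑ w_i²`. -/
def sg (w : Fin N → ℝ) : ℝ := 1 + ∑ i, w i ^ 2

theorem sg_pos (w : Fin N → ℝ) : 0 < sg w := by
  unfold sg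
  positivity

theorem sg_le (w : Fin N → ℝ) : sg w ≤ ∏ i, (1 + w i ^ 2) := by
  unfold sg
  induction N with
  | zero => simp
  | succ N ih =>
    rw [Fin.sum_univ_succ, Fin.prod_univ_succ]
    have h1 := ih fun i => w i.succ
    have h2 : 0 ≤ ∑ i : Fin N, w i.succ ^ 2 := Finset.sum_nonneg fun i _ => sq_nonneg _
    nlinarith [sq_nonneg (w 0)]

theorem S0_cone (a : ℝ) (w : Fin N → ℝ) :
    (aeval (Fin.cons a fun i => a * w i : Fin (N + 1) → ℝ) (S0 N) : ℝ) = sg w * a ^ 2 := by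
  rw [S0_val, sg, add_mul, Finset.sum_mul]
  simp only [Fin.cons_zero, Fin.cons_succ, one_mul, mul_pow]
  congr 1
  refine Finset.sum_congr rfl fun i _ => ?_
  ring

theorem D0_cone (a : ℝ) (w : Fin N → ℝ) :
    (aeval (Fin.cons a fun i => a * w i : Fin (N + 1) → ℝ) (D0 N) : ℝ) =
      a ^ (2 * N) * ∏ i, (1 + w i ^ 2) := by
  rw [D0_val]
  simp only [Fin.cons_zero, Fin.cons_succ]
  have h1 : a ^ (2 * N) = ∏ _i : Fin N, a ^ 2 := by
    rw [Finset.prod_const, Finset.card_univ, Fintype.card_fin, ← pow_mul]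
  rw [h1, ← Finset.prod_mul_distrib]
  refine Finset.prod_congr rfl fun i _ => ?_
  ring

theorem W0_cone (a : ℝ) (w : Fin N → ℝ) :
    (aeval (Fin.cons a fun i => a * w i : Fin (N + 1) → ℝ) (W0 N) : ℝ) = a ^ N * ∏ i, w i := by
  rw [W0_val]
  simp only [Fin.cons_succ]
  rw [Finset.prod_mul_distrib, Finset.prod_const, Finset.card_univ, Fintype.card_fin]

theorem rk_prod (w : Fin N → ℝ) :
    ∏ i, rk k (w i) = (k : ℝ) ^ N * |∏ i, w i| / (∏ i, (1 + w i ^ 2)) ^ (k + 1) := by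
  unfold rk
  rw [Finset.prod_div_distrib, Finset.prod_mul_distrib, Finset.prod_const, Finset.card_univ,
    Fintype.card_fin, Finset.abs_prod, Finset.prod_pow]

/-- The weight in homogeneous coordinates. -/
theorem wt_id {a : ℝ} (ha : a ≠ 0) (w : Fin N → ℝ) :
    |a| ^ N * |(aeval (Fin.cons a fun i => a * w i : Fin (N + 1) → ℝ) (Z1 k N) : ℝ) /
      aeval (Fin.cons a fun i => a * w i : Fin (N + 1) → ℝ) (D1 k N)| =
      (∏ i, rk k (w i)) * (sg w * |a|) := by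
  have hPp : 0 < ∏ i, (1 + w i ^ 2) := Finset.prod_pos fun i _ => by positivity
  rw [rk_prod, ← abs_pow, ← abs_mul]
  have h1 : a ^ N * ((aeval (Fin.cons a fun i => a * w i : Fin (N + 1) → ℝ) (Z1 k N) : ℝ) /
      aeval (Fin.cons a fun i => a * w i : Fin (N + 1) → ℝ) (D1 k N)) =
      ((k : ℝ) ^ N * (∏ i, w i) / (∏ i, (1 + w i ^ 2)) ^ (k + 1)) * (sg w * a) := by
    rw [Z1_val, D1_val, S0_cone, D0_cone, W0_cone, Fin.cons_zero]
    generalize (∏ i, w i) = W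
    generalize (∏ i, (1 + w i ^ 2)) = Pp at hPp ⊢
    generalize sg w = σ
    have h2 : (a ^ (2 * N) * Pp) ^ (k + 1) * a ^ 2 ≠ 0 := by
      have := hPp.ne'
      positivity
    have h3 : Pp ^ (k + 1) ≠ 0 := pow_ne_zero _ hPp.ne'
    rw [← mul_div_assoc, div_mul_eq_mul_div, div_eq_div_iff h2 h3]
    ring
  rw [h1, abs_mul, abs_div, abs_mul, abs_mul, abs_of_pos (sg_pos w),
    abs_of_nonneg (show (0 : ℝ) ≤ (k : ℝ) ^ N by positivity),
    abs_of_pos (show (0 : ℝ) < (∏ i, (1 + w i ^ 2)) ^ (k + 1) by positivity)]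

/-- The weight is bounded in the shell. -/
theorem wt_bound {z : Fin (N + 1) → ℝ} (hz : z 0 ≠ 0) (h1 : 1 ≤ (aeval z (S0 N) : ℝ))
    (h3 : (aeval z (S0 N) : ℝ) ≤ 3) :
    |(aeval z (Z1 (N + 1) N) : ℝ) / aeval z (D1 (N + 1) N)| ≤ 3 * ((N + 1 : ℕ) : ℝ) ^ N := by
  set a := z 0 with ha
  set w : Fin N → ℝ := fun i => z i.succ / a with hw
  have hzc : (Fin.cons a fun i => a * w i : Fin (N + 1) → ℝ) = z := by
    funext i
    refine Fin.cases ?_ (fun j => ?_) i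
    · simp [ha]
    · simp only [Fin.cons_succ, hw]
      field_simp
  have hid := wt_id (k := N + 1) hz w
  have hs := S0_cone a w
  rw [hzc] at hid hs
  set Ω := |(aeval z (Z1 (N + 1) N) : ℝ) / aeval z (D1 (N + 1) N)| with hΩ
  set Pp : ℝ := ∏ i, (1 + w i ^ 2) with hPp
  have hPp1 : 1 ≤ Pp := by
    have h4 : (1 : ℝ) = ∏ _i : Fin N, (1 : ℝ) := by simp
    rw [hPp, h4]
    exact Finset.prod_le_prod (fun _ _ => zero_le_one) fun i _ => by nlinarith [sq_nonneg (w i)]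
  have hPpa : 1 ≤ Pp * |a| := by
    rcases le_or_gt 1 |a| with h4 | h4
    · nlinarith
    · have h5 : a ^ 2 ≤ |a| := by
        rw [← sq_abs]
        nlinarith [abs_nonneg a]
      have h6 : 1 ≤ Pp * a ^ 2 := by
        rw [hs] at h1
        have := mul_le_mul_of_nonneg_right (sg_le w) (sq_nonneg a)
        linarith
      nlinarith
  have hΩ0 : 0 ≤ Ω := abs_nonneg _
  have hkey : Ω * |a| ^ (N + 1) ≤ 3 * ∏ i, rk (N + 1) (w i) := by
    have h4 : Ω * |a| ^ (N + 1) = (∏ i, rk (N + 1) (w i)) * (aeval z (S0 N) : ℝ) := by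
      rw [hs, ← sq_abs a]
      calc Ω * |a| ^ (N + 1) = (|a| ^ N * Ω) * |a| := by ring
        _ = _ := by rw [hid]; ring
    rw [h4]
    have h5 : 0 ≤ ∏ i, rk (N + 1) (w i) := Finset.prod_nonneg fun i _ => rk_nonneg _ _
    nlinarith
  calc Ω ≤ Ω * (Pp * |a|) ^ (N + 1) := le_mul_of_one_le_right hΩ0 (one_le_pow₀ hPpa)
    _ = Pp ^ (N + 1) * (Ω * |a| ^ (N + 1)) := by ring
    _ ≤ Pp ^ (N + 1) * (3 * ∏ i, rk (N + 1) (w i)) :=
      mul_le_mul_of_nonneg_left hkey (by positivity)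
    _ = 3 * ∏ i, ((1 + w i ^ 2) ^ (N + 1) * rk (N + 1) (w i)) := by
      rw [Finset.prod_mul_distrib, Finset.prod_pow]
      ring
    _ ≤ 3 * ∏ _i : Fin N, ((N + 1 : ℕ) : ℝ) := by
      refine mul_le_mul_of_nonneg_left (Finset.prod_le_prod (fun i _ => ?_) fun i _ => ?_)
        (by norm_num)
      · exact mul_nonneg (by positivity) (rk_nonneg _ _)
      · unfold rk
        have h6 : |w i| ≤ 1 + w i ^ 2 := by
          rw [← sq_abs]
          nlinarith [sq_nonneg (|w i| - 1), abs_nonneg (w i)]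
        rw [← mul_div_assoc, div_le_iff₀ (by positivity)]
        have h7 : (0 : ℝ) ≤ (1 + w i ^ 2) ^ (N + 1) * ((N + 1 : ℕ) : ℝ) := by positivity
        calc (1 + w i ^ 2) ^ (N + 1) * (((N + 1 : ℕ) : ℝ) * |w i|) =
            (1 + w i ^ 2) ^ (N + 1) * ((N + 1 : ℕ) : ℝ) * |w i| := by ring
          _ ≤ (1 + w i ^ 2) ^ (N + 1) * ((N + 1 : ℕ) : ℝ) * (1 + w i ^ 2) :=
            mul_le_mul_of_nonneg_left h6 h7
          _ = ((N + 1 : ℕ) : ℝ) * (1 + w i ^ 2) ^ (N + 1 + 1) := by ring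
    _ = 3 * ((N + 1 : ℕ) : ℝ) ^ N := by
      rw [Finset.prod_const, Finset.card_univ, Fintype.card_fin]

/-- The folded coordinates. -/
def uc (k : ℕ) (z : Fin (N + 1) → ℝ) (i : Fin N) : ℝ :=
  (z 0 ^ 2 / (z 0 ^ 2 + z i.succ ^ 2)) ^ k

theorem uc_cone {a : ℝ} (ha : a ≠ 0) (w : Fin N → ℝ) :
    uc k (Fin.cons a fun i => a * w i : Fin (N + 1) → ℝ) = fun i => fk k (w i) := by
  funext i
  unfold uc fk
  congr 1
  simp only [Fin.cons_zero, Fin.cons_succ]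
  have h1 : a ^ 2 + (a * w i) ^ 2 = a ^ 2 * (1 + w i ^ 2) := by ring
  rw [h1]
  field_simp

theorem uc_mem (z : Fin (N + 1) → ℝ) : uc k z ∈ ucube (Fin N) := by
  refine mem_ucube.2 fun i => ?_
  unfold uc
  have h1 : 0 ≤ z 0 ^ 2 / (z 0 ^ 2 + z i.succ ^ 2) := by positivity
  refine ⟨by positivity, pow_le_one₀ h1 ?_⟩
  exact div_le_one_of_le₀ (by nlinarith [sq_nonneg (z i.succ)]) (by positivity)

theorem uc_meas : Measurable (uc k : (Fin (N + 1) → ℝ) → Fin N → ℝ) := by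
  refine measurable_pi_iff.2 fun i => ?_
  unfold uc
  refine Measurable.pow_const ?_ k
  refine Measurable.div ?_ ?_
  · exact (measurable_pi_apply _).pow_const 2
  · exact ((measurable_pi_apply _).pow_const 2).add ((measurable_pi_apply _).pow_const 2)

/-- Polynomials in the folded coordinates. -/
theorem exists_uc (k : ℕ) (p : MvPolynomial (Fin N) ℚ) :
    ∃ (d : ℕ) (q : MvPolynomial (Fin (N + 1)) ℚ), ∀ z : Fin (N + 1) → ℝ, z 0 ≠ 0 →
      (aeval z q : ℝ) = (aeval z (D0 N) : ℝ) ^ d * aeval (uc k z) p := by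
  induction p using MvPolynomial.induction_on with
  | C a =>
    refine ⟨0, C a, fun z _ => ?_⟩
    rw [pow_zero, one_mul, aeval_C, aeval_C]
  | add p q hp hq =>
    obtain ⟨d1, q1, h1⟩ := hp
    obtain ⟨d2, q2, h2⟩ := hq
    refine ⟨d1 + d2, q1 * D0 N ^ d2 + q2 * D0 N ^ d1, fun z hz => ?_⟩
    rw [map_add, map_mul, map_mul, map_pow, map_pow, h1 z hz, h2 z hz, map_add, pow_add]
    ring
  | mul_X p i hp =>
    obtain ⟨d, q, h⟩ := hp
    refine ⟨d + k, q * (X 0 ^ 2 * ∏ j ∈ Finset.univ.erase i, (X 0 ^ 2 + X j.succ ^ 2)) ^ k,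
      fun z hz => ?_⟩
    have h2 : (aeval z (D0 N) : ℝ) = (z 0 ^ 2 + z i.succ ^ 2) *
        ∏ j ∈ Finset.univ.erase i, (z 0 ^ 2 + z j.succ ^ 2) := by
      rw [D0_val]
      exact (Finset.mul_prod_erase Finset.univ (fun j : Fin N => z 0 ^ 2 + z j.succ ^ 2)
        (Finset.mem_univ i)).symm
    have h3 : (aeval z ((X 0 : MvPolynomial (Fin (N + 1)) ℚ) ^ 2 *
        ∏ j ∈ Finset.univ.erase i, (X 0 ^ 2 + X j.succ ^ 2)) : ℝ) =
        z 0 ^ 2 * ∏ j ∈ Finset.univ.erase i, (z 0 ^ 2 + z j.succ ^ 2) := by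
      simp
    rw [map_mul, h z hz, map_pow, h3, map_mul, aeval_X, pow_add]
    have h1 : (z 0 ^ 2 + z i.succ ^ 2) ≠ 0 := by positivity
    have h4 : (z 0 ^ 2 * ∏ j ∈ Finset.univ.erase i, (z 0 ^ 2 + z j.succ ^ 2)) =
        (aeval z (D0 N) : ℝ) * (z 0 ^ 2 / (z 0 ^ 2 + z i.succ ^ 2)) := by
      rw [h2]
      field_simp
    rw [h4, mul_pow]
    simp only [uc]
    ring

end

end Pool.Agent.OneIneq
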